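import Mathlib

set_option autoImplicit false

namespace Pool.Agent.Helper59.PCF

/-- A finite grammar system with binary rules. -/
structure Sys (α : Type) where
  Q : Type
  finQ : Finite Q
  eps : Q → Prop
  term : Q → α → Prop
  bin : Q → Q → Q → Prop

/-- `Yld S X w`: the state `X` yields the word `w`. -/
inductive Yld {α : Type} (S : Sys α) : S.Q → List α → Prop
  | eps {X : S.Q} : S.eps X → Yld S X []
  | term {X : S.Q} {a : α} : S.term X a → Yld S X [a]
  | bin {X Y Z : S.Q} {u v : List α} : S.bin X Y Z → Yld S Y u → Yld S Z v → Yld S X (u ++ v)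

section unary

variable {α : Type} (S : Sys α) (a : α)

/-- unary yields restricted to the states in `A`. -/
inductive GA (A : Set S.Q) : S.Q → ℕ → Prop
  | eps {X : S.Q} : X ∈ A → S.eps X → GA A X 0
  | term {X : S.Q} : X ∈ A → S.term X a → GA A X 1
  | bin {X Y Z : S.Q} {m n : ℕ} : X ∈ A → S.bin X Y Z → GA A Y m → GA A Z n → GA A X (m + n)

theorem GA.root {A : Set S.Q} {X : S.Q} {m : ℕ} (h : GA S a A X m) : X ∈ A := by
  cases h <;> assumption

theorem GA.mono {A B : Set S.Q} (hAB : A ⊆ B) {X : S.Q} {m : ℕ} (h : GA S a A X m) :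
    GA S a B X m := by
  induction h with
  | eps h1 h2 => exact GA.eps (hAB h1) h2
  | term h1 h2 => exact GA.term (hAB h1) h2
  | bin h1 h2 _ _ ih1 ih2 => exact GA.bin (hAB h1) h2 ih1 ih2

theorem yld_iff_GA (X : S.Q) (m : ℕ) : Yld S X (List.replicate m a) ↔ GA S a Set.univ X m := by
  constructor
  · intro h
    generalize hw : List.replicate m a = w at h
    induction h generalizing m with
    | eps h1 =>
      have : m = 0 := by simpa using congrArg List.length hw
      subst this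
      exact GA.eps (Set.mem_univ _) h1
    | @term X b h1 =>
      have : m = 1 := by simpa using congrArg List.length hw
      subst this
      simp at hw
      subst hw
      exact GA.term (Set.mem_univ _) h1
    | @bin X Y Z u v h1 _ _ ih1 ih2 =>
      obtain ⟨hl, hu, hv⟩ := List.append_eq_replicate_iff.mp hw.symm
      rw [← hl]
      exact GA.bin (Set.mem_univ _) h1 (ih1 _ hu.symm) (ih2 _ hv.symm)
  · intro h
    induction h with
    | eps _ h2 => exact Yld.eps h2
    | term _ h2 => exact Yld.term h2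
    | bin _ h2 _ _ ih1 ih2 =>
      rw [List.replicate_add]
      exact Yld.bin h2 ih1 ih2

/-- unary contexts. -/
inductive CX : S.Q → S.Q → ℕ → Prop
  | refl (X : S.Q) : CX X X 0
  | left {X Y Z W : S.Q} {m s : ℕ} : S.bin X Y Z → GA S a Set.univ Z m → CX Y W s → CX X W (s + m)
  | right {X Y Z W : S.Q} {m s : ℕ} : S.bin X Z Y → GA S a Set.univ Z m → CX Y W s → CX X W (s + m)

theorem CX.fill {X Y : S.Q} {s : ℕ} (h : CX S a X Y s) {m : ℕ} (hm : GA S a Set.univ Y m) :
    GA S a Set.univ X (m + s) := by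
  induction h with
  | refl X => simpa using hm
  | left h1 h2 _ ih =>
    have := GA.bin (A := Set.univ) (Set.mem_univ _) h1 (ih hm) h2
    rwa [add_assoc] at this
  | right h1 h2 _ ih =>
    have := GA.bin (A := Set.univ) (Set.mem_univ _) h1 h2 (ih hm)
    rwa [add_comm, add_assoc] at this

theorem CX.trans {X Y W : S.Q} {s t : ℕ} (h : CX S a X Y s) (h' : CX S a Y W t) :
    CX S a X W (t + s) := by
  induction h with
  | refl X => simpa using h'
  | left h1 h2 _ ih =>
    have := CX.left h1 h2 (ih h')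
    rwa [add_assoc] at this
  | right h1 h2 _ ih =>
    have := CX.right h1 h2 (ih h')
    rwa [add_assoc] at this

/-- root `Y`, children avoiding `Y`. -/
def TY (A : Set S.Q) (Y : S.Q) (m : ℕ) : Prop :=
  m ≤ 1 ∨ ∃ Z W m1 m2, S.bin Y Z W ∧ GA S a (A \ {Y}) Z m1 ∧ GA S a (A \ {Y}) W m2 ∧ m = m1 + m2

theorem GA.split {A : Set S.Q} {X : S.Q} {m : ℕ} (h : GA S a A X m) (Y : S.Q) :
    GA S a (A \ {Y}) X m ∨ ∃ m' s, m = m' + s ∧ CX S a X Y s ∧ TY S a A Y m' := by
  induction h with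
  | @eps X h1 h2 =>
    by_cases hXY : X = Y
    · subst hXY
      exact Or.inr ⟨0, 0, rfl, CX.refl _, Or.inl (by omega)⟩
    · exact Or.inl (GA.eps ⟨h1, by simpa using hXY⟩ h2)
  | @term X h1 h2 =>
    by_cases hXY : X = Y
    · subst hXY
      exact Or.inr ⟨1, 0, rfl, CX.refl _, Or.inl (by omega)⟩
    · exact Or.inl (GA.term ⟨h1, by simpa using hXY⟩ h2)
  | @bin X Z W m1 m2 h1 h2 hZ hW ihZ ihW =>
    rcases ihZ with ihZ | ⟨m', s, hm, hC, hT⟩
    · rcases ihW with ihW | ⟨m', s, hm, hC, hT⟩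
      · by_cases hXY : X = Y
        · subst hXY
          exact Or.inr ⟨m1 + m2, 0, rfl, CX.refl _, Or.inr ⟨Z, W, m1, m2, h2, ihZ, ihW, rfl⟩⟩
        · exact Or.inl (GA.bin ⟨h1, by simpa using hXY⟩ h2 ihZ ihW)
      · refine Or.inr ⟨m', s + m1, by omega, ?_, hT⟩
        exact CX.right h2 (hZ.mono S a (Set.subset_univ _)) hC
    · refine Or.inr ⟨m', s + m2, by omega, ?_, hT⟩
      exact CX.left h2 (hW.mono S a (Set.subset_univ _)) hC

theorem GA.bound (n : ℕ) : ∀ (A : Set S.Q), A.Finite → A.ncard ≤ n →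
    (∀ X ∈ A, ∀ s, CX S a X X s → s = 0) → ∀ X m, GA S a A X m → m ≤ 2 ^ n := by
  induction n with
  | zero =>
    intro A hfin hA _ X m h
    have hX := h.root
    have : 0 < A.ncard := (Set.ncard_pos hfin).mpr ⟨X, hX⟩
    omega
  | succ n ih =>
    intro A hfin hA hC X m h
    have hX := h.root
    rcases h.split S a X with h | ⟨m', s, hm, hCX, hT⟩
    · exact absurd h.root (by simp)
    · have hs : s = 0 := hC X hX s hCX
      subst hs
      have hm' : m = m' := by omega
      subst hm'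
      have hcard : (A \ {X}).ncard ≤ n := by
        have := Set.ncard_diff_singleton_add_one hX hfin
        omega
      have hih := ih (A \ {X}) hfin.diff hcard (fun Y hY => hC Y hY.1)
      have h2 : 1 ≤ 2 ^ n := Nat.one_le_two_pow
      have h3 : 2 ^ (n + 1) = 2 ^ n + 2 ^ n := by ring
      rcases hT with hT | ⟨Z, W, m1, m2, _, h1, h2', h3'⟩
      · omega
      · have := hih _ _ h1
        have := hih _ _ h2'
        omega

theorem GA.outside (A : Set S.Q) {X : S.Q} {m : ℕ} (h : GA S a Set.univ X m) :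
    GA S a A X m ∨ ∃ Y, Y ∉ A ∧ ∃ m' s, m = m' + s ∧ CX S a X Y s ∧ GA S a Set.univ Y m' := by
  induction h with
  | @eps X h1 h2 =>
    by_cases hX : X ∈ A
    · exact Or.inl (GA.eps hX h2)
    · exact Or.inr ⟨X, hX, 0, 0, rfl, CX.refl _, GA.eps h1 h2⟩
  | @term X h1 h2 =>
    by_cases hX : X ∈ A
    · exact Or.inl (GA.term hX h2)
    · exact Or.inr ⟨X, hX, 1, 0, rfl, CX.refl _, GA.term h1 h2⟩
  | @bin X Z W m1 m2 h1 h2 hZ hW ihZ ihW =>
    rcases ihZ with ihZ | ⟨Y, hY, m', s, hm, hC, hT⟩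
    · rcases ihW with ihW | ⟨Y, hY, m', s, hm, hC, hT⟩
      · by_cases hX : X ∈ A
        · exact Or.inl (GA.bin hX h2 ihZ ihW)
        · exact Or.inr ⟨X, hX, m1 + m2, 0, rfl, CX.refl _, GA.bin h1 h2 hZ hW⟩
      · exact Or.inr ⟨Y, hY, m', s + m1, by omega, CX.right h2 hZ hC, hT⟩
    · exact Or.inr ⟨Y, hY, m', s + m2, by omega, CX.left h2 hW hC, hT⟩

theorem CX.iter {X : S.Q} {s : ℕ} (h : CX S a X X s) (k : ℕ) : CX S a X X (k * s) := by
  induction k with
  | zero => simpa using CX.refl X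
  | succ k ih =>
    have := ih.trans S a h
    rwa [show s + k * s = (k + 1) * s by ring] at this

theorem ultimately_periodic_of_up (s : Set ℕ) (B p : ℕ) (hp : 0 < p)
    (h : ∀ x ≥ B, x ∈ s → x + p ∈ s) : ∃ k, ∃ p > 0, ∀ x ≥ k, x ∈ s ↔ x + p ∈ s := by
  classical
  let f : ℕ → ℕ := fun r => if hx : ∃ x, x ≥ B ∧ x % p = r ∧ x ∈ s then hx.choose else 0
  have hiter : ∀ x ≥ B, x ∈ s → ∀ j, x + j * p ∈ s := by
    intro x hx hxs j
    induction j with
    | zero => simpa using hxs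
    | succ j ih =>
      have := h (x + j * p) (by omega) ih
      rwa [show x + j * p + p = x + (j + 1) * p by ring] at this
  refine ⟨B + ∑ r ∈ Finset.range p, f r, p, hp, fun x hx => ⟨h x (by omega), fun hxs => ?_⟩⟩
  have hex : ∃ y, y ≥ B ∧ y % p = x % p ∧ y ∈ s := ⟨x + p, by omega, by simp, hxs⟩
  have hf : f (x % p) = hex.choose := by simp only [f]; rw [dif_pos hex]
  have hle : f (x % p) ≤ ∑ r ∈ Finset.range p, f r :=
    Finset.single_le_sum (f := f) (fun _ _ => Nat.zero_le _)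
      (Finset.mem_range.mpr (Nat.mod_lt _ hp))
  obtain ⟨h1, h2, h3⟩ := hex.choose_spec
  have hyx : hex.choose ≤ x := by rw [← hf]; omega
  obtain ⟨j, hj⟩ : ∃ j, x = hex.choose + j * p := by
    refine ⟨(x - hex.choose) / p, ?_⟩
    have hd : p ∣ x - hex.choose := (Nat.modEq_iff_dvd' hyx).mp h2
    rw [Nat.div_mul_cancel hd]; omega
  rw [hj]
  exact hiter _ h1 h3 j

theorem isSemilinearSet_unary (X : S.Q) :
    IsSemilinearSet {m : ℕ | Yld S X (List.replicate m a)} := by
  classical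
  haveI := S.finQ
  haveI := Fintype.ofFinite S.Q
  rw [Nat.isSemilinearSet_iff_ultimately_periodic]
  let A : Set S.Q := {X | ∀ s, CX S a X X s → s = 0}
  have hex : ∀ Y : S.Q, ∃ s : ℕ, 0 < s ∧ (Y ∉ A → CX S a Y Y s) := by
    intro Y
    by_cases hY : Y ∈ A
    · exact ⟨1, one_pos, fun h => absurd hY h⟩
    · have : ∃ s, CX S a Y Y s ∧ s ≠ 0 := by
        by_contra hcon
        push Not at hcon
        exact hY (fun s hs => hcon s hs)
      obtain ⟨s, hs, hs0⟩ := this
      exact ⟨s, Nat.pos_of_ne_zero hs0, fun _ => hs⟩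
  choose s hs0 hs using hex
  refine ultimately_periodic_of_up _ (2 ^ (A.ncard) + 1) (∏ Y, s Y)
    (Finset.prod_pos fun Y _ => hs0 Y) ?_
  intro x hx hxs
  simp only [Set.mem_setOf_eq] at hxs ⊢
  rw [yld_iff_GA] at hxs ⊢
  rcases hxs.outside S a A with h | ⟨Y, hY, m', t, hm, hC, hT⟩
  · have := GA.bound S a A.ncard A (Set.toFinite A) le_rfl (fun X hX => hX) X x h
    omega
  · obtain ⟨k, hk⟩ : s Y ∣ ∏ Y, s Y := Finset.dvd_prod_of_mem s (Finset.mem_univ Y)
    have h1 : CX S a Y Y (k * s Y) := (hs Y hY).iter S a k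
    have h2 := hC.fill S a (h1.fill S a hT)
    rwa [show m' + k * s Y + t = x + ∏ Y, s Y by rw [hk, hm]; ring] at h2

end unary

end Pool.Agent.Helper59.PCF
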