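import Mathlib
import Pool.Agent.Helper59.PCF.Unary

set_option autoImplicit false

namespace Pool.Agent.Helper59.PCF

open Set Pointwise AddSubmonoid

section walk

variable {σ V : Type} [AddCommMonoid V] (C : σ → σ → Set V)

inductive WK (T : Set σ) : σ → σ → V → Prop
  | single {p q : σ} {x : V} : x ∈ C p q → WK T p q x
  | cons {p r q : σ} {x y : V} : x ∈ C p r → r ∈ T → WK T r q y → WK T p q (x + y)

theorem WK.mono {T T' : Set σ} (h : T ⊆ T') {p q : σ} {x : V} (hx : WK C T p q x) :
    WK C T' p q x := by
  induction hx with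
  | single h1 => exact WK.single h1
  | cons h1 h2 _ ih => exact WK.cons h1 (h h2) ih

theorem WK.append {T : Set σ} {p r q : σ} {x y : V} (hx : WK C T p r x) (hr : r ∈ T)
    (hy : WK C T r q y) : WK C T p q (x + y) := by
  induction hx with
  | single h1 => exact WK.cons h1 hr hy
  | cons h1 h2 _ ih =>
    rw [add_assoc]
    exact WK.cons h1 h2 (ih hr hy)

theorem WK.insert_iff (T : Set σ) (r p q : σ) :
    {x | WK C (insert r T) p q x} = {x | WK C T p q x} ∪
      ({x | WK C T p r x} + (((closure {x | WK C T r r x} : AddSubmonoid V) : Set V) +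
        {x | WK C T r q x})) := by
  ext x
  constructor
  · intro hx
    simp only [mem_ofPred_eq] at hx
    induction hx with
    | single h1 => exact Or.inl (WK.single h1)
    | @cons p r' q x y h1 h2 _ ih =>
      rcases ih with ih | ih
      · by_cases hr : r' = r
        · subst hr
          right
          exact ⟨x, WK.single h1, y, ⟨0, zero_mem _, y, ih, zero_add y⟩, rfl⟩
        · left
          exact WK.cons h1 (by simpa [hr] using h2) ih
      · obtain ⟨u, hu, y', ⟨v, hv, w, hw, rfl⟩, rfl⟩ := ih
        right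
        by_cases hr : r' = r
        · subst hr
          refine ⟨x, WK.single h1, (u + v) + w, ⟨u + v, add_mem (subset_closure hu) hv, w, hw, rfl⟩, ?_⟩
          simp only [add_assoc]
        · refine ⟨x + u, WK.cons h1 (by simpa [hr] using h2) hu, v + w, ⟨v, hv, w, hw, rfl⟩, ?_⟩
          simp only [add_assoc]
  · rintro (hx | ⟨u, hu, y, ⟨v, hv, w, hw, rfl⟩, rfl⟩)
    · exact hx.mono C (subset_insert _ _)
    · have hu' := WK.mono C (subset_insert r T) hu
      have hw' := WK.mono C (subset_insert r T) hw
      refine hu'.append C (mem_insert _ _) ?_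
      have key : ∀ y, WK C (insert r T) r q y → WK C (insert r T) r q (v + y) := by
        refine closure_induction (motive := fun v _ => ∀ y, WK C (insert r T) r q y →
          WK C (insert r T) r q (v + y)) ?_ ?_ ?_ hv
        · intro d hd y hy
          exact (WK.mono C (subset_insert r T) hd).append C (mem_insert _ _) hy
        · intro y hy; rwa [zero_add]
        · intro a b _ _ iha ihb y hy
          rw [add_assoc]; exact iha _ (ihb y hy)
      exact key w hw'

theorem WK.empty_iff (p q : σ) : {x | WK C ∅ p q x} = C p q := by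
  ext x
  constructor
  · intro h
    cases h with
    | single h1 => exact h1
    | cons _ h2 _ => exact absurd h2 (notMem_empty _)
  · intro h; exact WK.single h

theorem WK.semilinear [Finite σ] (hC : ∀ p q, IsSemilinearSet (C p q)) (p q : σ) :
    IsSemilinearSet {x | WK C univ p q x} := by
  have h : ∀ T : Set σ, ∀ p q, IsSemilinearSet {x | WK C T p q x} := by
    intro T
    induction T, (Set.toFinite T) using Set.Finite.induction_on with
    | empty => intro p q; rw [WK.empty_iff]; exact hC p q
    | @insert r T _ _ ih =>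
      intro p q
      rw [WK.insert_iff]
      exact (ih p q).union ((ih p r).add ((ih r r).closure.add (ih r q)))
  exact h univ p q

end walk

section ctx

variable {α : Type} (S : Sys α) (a b : α)

/-- one-step context contributions -/
def CC (X Y : S.Q) : Set (ℕ × ℕ) :=
  (⋃ Z : S.Q, ⋃ _ : S.bin X Z Y, (fun m : ℕ => (m, 0)) '' {m | Yld S Z (List.replicate m a)}) ∪
  (⋃ Z : S.Q, ⋃ _ : S.bin X Y Z, (fun m : ℕ => (0, m)) '' {m | Yld S Z (List.replicate m b)})

theorem CC.semilinear (X Y : S.Q) : IsSemilinearSet (CC S a b X Y) := by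
  classical
  have := S.finQ
  refine IsSemilinearSet.union (IsSemilinearSet.iUnion fun Z => ?_) (IsSemilinearSet.iUnion fun Z => ?_)
  · by_cases h : S.bin X Z Y
    · simp only [h, iUnion_true]
      exact (isSemilinearSet_unary S a Z).image (AddMonoidHom.inl ℕ ℕ)
    · simp only [h, iUnion_false]
      exact IsSemilinearSet.empty
  · by_cases h : S.bin X Y Z
    · simp only [h, iUnion_true]
      exact (isSemilinearSet_unary S b Z).image (AddMonoidHom.inr ℕ ℕ)
    · simp only [h, iUnion_false]
      exact IsSemilinearSet.empty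

def HH (X Y : S.Q) (x : ℕ × ℕ) : Prop := (X = Y ∧ x = 0) ∨ WK (CC S a b) univ X Y x

theorem HH.semilinear (X Y : S.Q) : IsSemilinearSet {x | HH S a b X Y x} := by
  have := S.finQ
  have h2 := WK.semilinear (CC S a b) (CC.semilinear S a b) X Y
  by_cases h : X = Y
  · have : {x | HH S a b X Y x} = {0} ∪ {x | WK (CC S a b) univ X Y x} := by
      ext x; simp [HH, h]
    rw [this]
    exact (IsSemilinearSet.singleton 0).union h2
  · have : {x | HH S a b X Y x} = {x | WK (CC S a b) univ X Y x} := by
      ext x; simp [HH, h]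
    rw [this]; exact h2

theorem CC.fill {X Y : S.Q} {x : ℕ × ℕ} (h : x ∈ CC S a b X Y) {w : List α} (hw : Yld S Y w) :
    Yld S X (List.replicate x.1 a ++ w ++ List.replicate x.2 b) := by
  rcases h with h | h
  · simp only [mem_iUnion, mem_image] at h
    obtain ⟨Z, hZ, m, hm, rfl⟩ := h
    simpa using Yld.bin hZ hm hw
  · simp only [mem_iUnion, mem_image] at h
    obtain ⟨Z, hZ, m, hm, rfl⟩ := h
    simpa using Yld.bin hZ hw hm

theorem WK.fill {X Y : S.Q} {x : ℕ × ℕ} (h : WK (CC S a b) univ X Y x) {w : List α}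
    (hw : Yld S Y w) : Yld S X (List.replicate x.1 a ++ w ++ List.replicate x.2 b) := by
  induction h with
  | single h1 => exact CC.fill S a b h1 hw
  | cons h1 _ _ ih =>
    have := CC.fill S a b h1 (ih hw)
    simp only [Prod.fst_add, Prod.snd_add]
    rw [List.replicate_add, add_comm, List.replicate_add]
    simpa only [List.append_assoc] using this

theorem HH.fill {X Y : S.Q} {x : ℕ × ℕ} (h : HH S a b X Y x) {w : List α}
    (hw : Yld S Y w) : Yld S X (List.replicate x.1 a ++ w ++ List.replicate x.2 b) := by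
  rcases h with ⟨rfl, rfl⟩ | h
  · simpa using hw
  · exact h.fill S a b hw

theorem HH.step {X Y W : S.Q} {x y : ℕ × ℕ} (h : x ∈ CC S a b X Y) (h' : HH S a b Y W y) :
    HH S a b X W (x + y) := by
  rcases h' with ⟨rfl, rfl⟩ | h'
  · right
    rw [add_zero]
    exact WK.single h
  · right
    exact WK.cons h (mem_univ _) h'

end ctx

/-- explicit finite description of semilinear sets -/
theorem IsSemilinearSet.explicit {V : Type} [AddCommMonoid V] {s : Set V}
    (h : IsSemilinearSet s) : ∃ D : Set (V × Finset V), D.Finite ∧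
      ∀ x, x ∈ s ↔ ∃ d ∈ D, ∃ c : V → ℕ, x = d.1 + ∑ v ∈ d.2, c v • v := by
  classical
  obtain ⟨T, hT, hlin, rfl⟩ := h
  have hlin' : ∀ t : Set V, ∃ d : V × Finset V, t ∈ T →
      t = d.1 +ᵥ ((closure (d.2 : Set V) : AddSubmonoid V) : Set V) := by
    intro t
    by_cases ht : t ∈ T
    · obtain ⟨a, P, hP⟩ := isLinearSet_iff.mp (hlin t ht)
      exact ⟨(a, P), fun _ => hP⟩
    · exact ⟨(0, ∅), fun h => absurd h ht⟩
  choose d hd using hlin'
  refine ⟨d '' T, hT.image d, fun x => ?_⟩
  constructor
  · rintro ⟨t, ht, hx⟩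
    rw [hd t ht] at hx
    obtain ⟨y, hy, rfl⟩ := hx
    obtain ⟨f, _, hf⟩ := AddSubmonoid.mem_closure_finset.mp hy
    exact ⟨d t, mem_image_of_mem d ht, f, by simp [← hf]⟩
  · rintro ⟨_, ⟨t, ht, rfl⟩, c, rfl⟩
    refine ⟨t, ht, ?_⟩
    have hmem : (d t).1 + ∑ v ∈ (d t).2, c v • v ∈
        (d t).1 +ᵥ ((closure ((d t).2 : Set V) : AddSubmonoid V) : Set V) :=
      ⟨∑ v ∈ (d t).2, c v • v, sum_mem fun v hv => nsmul_mem (subset_closure hv) _, rfl⟩
    rw [← hd t ht] at hmem
    exact hmem

end Pool.Agent.Helper59.PCF
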