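import Mathlib
import Pool.Agent.Helper59.PCF.Walk

set_option autoImplicit false

namespace Pool.Agent.Helper59.PCF

open Set
open scoped Pointwise

section words

variable {α : Type} (ℓ : ℕ → α)

/-- the word with exponent vector `n` -/
def WW (R : ℕ) (n : ℕ → ℕ) : List α := (List.range R).flatMap (fun p => List.replicate (n p) (ℓ p))

theorem WW_succ (R : ℕ) (n : ℕ → ℕ) :
    WW ℓ (R + 1) n = WW ℓ R n ++ List.replicate (n R) (ℓ R) := by
  simp [WW, List.range_succ, List.flatMap_append]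

theorem WW_zero (n : ℕ → ℕ) : WW ℓ 0 n = [] := rfl

theorem WW_congr (R : ℕ) (n n' : ℕ → ℕ) (h : ∀ p < R, n p = n' p) : WW ℓ R n = WW ℓ R n' := by
  induction R with
  | zero => rfl
  | succ R ih =>
    rw [WW_succ, WW_succ, ih (fun p hp => h p (by omega)), h R (by omega)]

theorem WW_eq_nil (R : ℕ) (n : ℕ → ℕ) : WW ℓ R n = [] ↔ ∀ p < R, n p = 0 := by
  induction R with
  | zero => simp [WW_zero]
  | succ R ih =>
    rw [WW_succ, List.append_eq_nil_iff, ih]
    constructor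
    · rintro ⟨h1, h2⟩ p hp
      rcases Nat.lt_succ_iff_lt_or_eq.mp hp with h | rfl
      · exact h1 p h
      · simpa using h2
    · intro h
      exact ⟨fun p hp => h p (by omega), by simp [h R (by omega)]⟩

theorem WW_add (R : ℕ) (n' n'' : ℕ → ℕ) (k : ℕ) (h1 : ∀ p, k < p → n' p = 0)
    (h2 : ∀ p, p < k → n'' p = 0) : WW ℓ R (n' + n'') = WW ℓ R n' ++ WW ℓ R n'' := by
  induction R with
  | zero => rfl
  | succ R ih =>
    rw [WW_succ, WW_succ, WW_succ, ih]
    by_cases hR : k < R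
    · simp [h1 R hR]
    · have : WW ℓ R n'' = [] := (WW_eq_nil ℓ R n'').mpr fun p hp => h2 p (by omega)
      rw [this, Pi.add_apply, List.replicate_add, List.append_nil, List.nil_append,
        List.append_assoc]

theorem WW_single (R : ℕ) (i : ℕ) (hi : i < R) (m : ℕ) :
    WW ℓ R (Pi.single i m) = List.replicate m (ℓ i) := by
  induction R with
  | zero => omega
  | succ R ih =>
    rw [WW_succ]
    by_cases h : i = R
    · subst h
      rw [(WW_eq_nil ℓ i _).mpr]
      · simp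
      · intro p hp
        simp [Pi.single_apply, show p ≠ i by omega]
    · rw [ih (by omega)]
      simp [Pi.single_apply, Ne.symm h]

theorem WW_split (R : ℕ) : ∀ (n : ℕ → ℕ), (∀ p, R ≤ p → n p = 0) → ∀ u v, WW ℓ R n = u ++ v →
    ∃ (k : ℕ) (n' n'' : ℕ → ℕ), n = n' + n'' ∧ WW ℓ R n' = u ∧ WW ℓ R n'' = v ∧
      (∀ p, k < p → n' p = 0) ∧ (∀ p, p < k → n'' p = 0) := by
  induction R with
  | zero =>
    intro n hn u v h
    rw [WW_zero] at h
    obtain ⟨rfl, rfl⟩ := List.append_eq_nil_iff.mp h.symm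
    exact ⟨0, 0, 0, funext fun p => by simp [hn p (by omega)], rfl, rfl, by simp, by simp⟩
  | succ R ih =>
    intro n hn u v h
    rw [WW_succ] at h
    set n0 : ℕ → ℕ := fun p => if p < R then n p else 0 with hn0
    have hW0 : WW ℓ R n0 = WW ℓ R n := WW_congr ℓ R _ _ fun p hp => by simp [hn0, hp]
    rcases List.append_eq_append_iff.mp h with ⟨c, hc1, hc2⟩ | ⟨c, hc1, hc2⟩
    · obtain ⟨hl, hu, hv⟩ := List.append_eq_replicate_iff.mp hc2.symm
      refine ⟨R, n0 + Pi.single R c.length, Pi.single R v.length, ?_, ?_, ?_, ?_, ?_⟩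
      · funext p
        simp only [hn0, Pi.add_apply, Pi.single_apply]
        by_cases h1 : p < R
        · simp [h1, show p ≠ R by omega]
        · by_cases h2 : p = R
          · subst h2; simp [hl]
          · simp [h1, h2, hn p (by omega)]
      · rw [WW_add ℓ (R + 1) n0 (Pi.single R c.length) R, WW_single ℓ (R + 1) R (by omega), hc1]
        · rw [WW_succ, hW0]
          simp [hn0, ← hu]
        · intro p hp; simp [hn0, show ¬ p < R by omega]
        · intro p hp; simp [Pi.single_apply, show p ≠ R by omega]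
      · rw [WW_single ℓ (R + 1) R (by omega), ← hv]
      · intro p hp; simp [hn0, show ¬ p < R by omega, Pi.single_apply, show p ≠ R by omega]
      · intro p hp; simp [Pi.single_apply, show p ≠ R by omega]
    · obtain ⟨k, n', n'', h1, h2, h3, h4, h5⟩ := ih n0 (fun p hp => by simp [hn0, show ¬ p < R by omega])
        u c (by rw [hW0, hc1])
      have hle : ∀ p, R ≤ p → n' p = 0 ∧ n'' p = 0 := by
        intro p hp
        have := congrFun h1 p
        simp only [hn0, Pi.add_apply, show ¬ p < R by omega, if_false] at this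
        omega
      refine ⟨min k R, n', n'' + Pi.single R (n R), ?_, ?_, ?_, ?_, ?_⟩
      · funext p
        have := congrFun h1 p
        simp only [hn0, Pi.add_apply, Pi.single_apply] at this ⊢
        by_cases h1 : p < R
        · simp [h1, show p ≠ R by omega] at this ⊢; omega
        · have h0 := hle p (by omega)
          by_cases h2 : p = R
          · subst h2; simp [h0.1, h0.2]
          · simp [h0.1, h0.2, h2, hn p (by omega)]
      · rw [WW_succ, h2, (hle R le_rfl).1]; simp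
      · rw [WW_add ℓ (R + 1) n'' (Pi.single R (n R)) R, WW_single ℓ (R + 1) R (by omega), hc2,
          WW_succ, h3, (hle R le_rfl).2]
        · simp
        · intro p hp; exact (hle p (by omega)).2
        · intro p hp; simp [Pi.single_apply, show p ≠ R by omega]
      · intro p hp
        by_cases hpR : R ≤ p
        · exact (hle p hpR).1
        · exact h4 p (by omega)
      · intro p hp
        simp [Pi.single_apply, show p ≠ R by omega, h5 p (by omega)]

/-- support in `[i,j]`. -/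
def Supp (i j : ℕ) (n : ℕ → ℕ) : Prop := ∀ p, (p < i ∨ j < p) → n p = 0

theorem WW_split' (R i j : ℕ) (hij : i ≤ j) (hj : j < R) (n : ℕ → ℕ) (hn : Supp i j n)
    (u v : List α) (h : WW ℓ R n = u ++ v) :
    ∃ (k : ℕ) (n' n'' : ℕ → ℕ), i ≤ k ∧ k ≤ j ∧ n = n' + n'' ∧ WW ℓ R n' = u ∧ WW ℓ R n'' = v ∧
      Supp i k n' ∧ Supp k j n'' := by
  obtain ⟨k, n', n'', h1, h2, h3, h4, h5⟩ := WW_split ℓ R n (fun p hp => hn p (by omega)) u v h
  have hle : ∀ p, (p < i ∨ j < p) → n' p = 0 ∧ n'' p = 0 := by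
    intro p hp
    have := congrFun h1 p
    rw [hn p hp] at this
    simp only [Pi.add_apply] at this
    omega
  refine ⟨max i (min k j), n', n'', le_max_left _ _, by omega, h1, h2, h3, ?_, ?_⟩
  · intro p hp
    by_cases h : p < i ∨ j < p
    · exact (hle p h).1
    · exact h4 p (by omega)
  · intro p hp
    by_cases h : p < i ∨ j < p
    · exact (hle p h).2
    · exact h5 p (by omega)

theorem length_WW (R : ℕ) (n : ℕ → ℕ) : (WW ℓ R n).length = ∑ p ∈ Finset.range R, n p := by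
  induction R with
  | zero => rfl
  | succ R ih => rw [WW_succ, List.length_append, ih, Finset.sum_range_succ]; simp

theorem WW_eq_singleton (R : ℕ) (n : ℕ → ℕ) (hn : ∀ p, R ≤ p → n p = 0) (a : α)
    (h : WW ℓ R n = [a]) : ∃ p < R, ℓ p = a ∧ n = Pi.single p 1 := by
  have hl := length_WW ℓ R n
  rw [h, List.length_singleton] at hl
  have hex : ∃ p ∈ Finset.range R, n p ≠ 0 := by
    by_contra hcon
    push Not at hcon
    rw [Finset.sum_eq_zero hcon] at hl
    omega
  obtain ⟨p, hp, hnp⟩ := hex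
  have hsum := Finset.sum_erase_add (Finset.range R) n hp
  rw [← hl] at hsum
  have hp1 : n p = 1 := by omega
  have h0 : ∑ q ∈ (Finset.range R).erase p, n q = 0 := by omega
  have h0' := Finset.sum_eq_zero_iff.mp h0
  have hn' : n = Pi.single p 1 := by
    funext q
    by_cases hq : q = p
    · subst hq; simp [hp1]
    · rw [Pi.single_apply, if_neg hq]
      by_cases hqR : q < R
      · exact h0' q (Finset.mem_erase.mpr ⟨hq, Finset.mem_range.mpr hqR⟩)
      · exact hn q (by omega)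
  have hpR := Finset.mem_range.mp hp
  refine ⟨p, hpR, ?_, hn'⟩
  rw [hn', WW_single ℓ R p hpR] at h
  simpa using h

end words

section pieces

variable {α : Type}

/-- edge `(i, j, s, t)` -/
abbrev Edge := ℕ × ℕ × ℕ × ℕ

/-- embedding of `ℕ × ℕ` at coordinates `i, j`. -/
def emb (i j : ℕ) : ℕ × ℕ →+ (ℕ → ℕ) where
  toFun x := Pi.single i x.1 + Pi.single j x.2
  map_zero' := by simp
  map_add' x y := by
    simp only [Prod.fst_add, Prod.snd_add, Pi.single_add]
    abel

def evec (e : Edge) : ℕ → ℕ := emb e.1 e.2.1 e.2.2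

def Piece := (ℕ → ℕ) × Set Edge

structure Good (S : Sys α) (ℓ : ℕ → α) (R : ℕ) (PS : Set (ℕ × ℕ)) (i j : ℕ) (X : S.Q)
    (b : ℕ → ℕ) (K : Set Edge) : Prop where
  fin : K.Finite
  yld : ∀ y ∈ AddSubmonoid.closure (evec '' K), Yld S X (WW ℓ R (b + y))
  supp : Supp i j b
  edge : ∀ e ∈ K, i ≤ e.1 ∧ e.1 ≤ e.2.1 ∧ e.2.1 ≤ j ∧ e.2.2 ∈ PS
  nc : ∀ e ∈ K, ∀ e' ∈ K, ¬ (e.1 < e'.1 ∧ e'.1 < e.2.1 ∧ e.2.1 < e'.2.1)

def InP (b : ℕ → ℕ) (K : Set Edge) (n : ℕ → ℕ) : Prop := ∃ y ∈ AddSubmonoid.closure (evec '' K), n = b + y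

theorem Supp.add {i j : ℕ} {n m : ℕ → ℕ} (hn : Supp i j n) (hm : Supp i j m) :
    Supp i j (n + m) := fun p hp => by simp [hn p hp, hm p hp]

theorem Supp.mono {i j i' j' : ℕ} (h1 : i' ≤ i) (h2 : j ≤ j') {n : ℕ → ℕ} (hn : Supp i j n) :
    Supp i' j' n := fun p hp => hn p (by omega)

theorem supp_closure {i j : ℕ} {K : Set Edge} (hK : ∀ e ∈ K, i ≤ e.1 ∧ e.1 ≤ e.2.1 ∧ e.2.1 ≤ j)
    {y : ℕ → ℕ} (hy : y ∈ AddSubmonoid.closure (evec '' K)) : Supp i j y := by
  induction hy using AddSubmonoid.closure_induction with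
  | mem y hy =>
    obtain ⟨e, he, rfl⟩ := hy
    have := hK e he
    intro p hp
    simp only [evec, emb, AddMonoidHom.coe_mk, ZeroHom.coe_mk, Pi.add_apply, Pi.single_apply]
    rw [if_neg (by omega), if_neg (by omega)]; rfl
  | zero => intro p _; rfl
  | add a b _ _ ha hb => exact ha.add hb

/-- the data of the period sets of a system -/
structure PData (S : Sys α) where
  DU : S.Q → α → Set (ℕ × Finset ℕ)
  DUfin : ∀ X a, (DU X a).Finite
  DUspec : ∀ X a m, Yld S X (List.replicate m a) ↔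
    ∃ d ∈ DU X a, ∃ y ∈ AddSubmonoid.closure (d.2 : Set ℕ), m = d.1 + y
  DH : S.Q → S.Q → α → α → Set ((ℕ × ℕ) × Finset (ℕ × ℕ))
  DHfin : ∀ X Y a b, (DH X Y a b).Finite
  DHspec : ∀ X Y a b x, HH S a b X Y x ↔
    ∃ d ∈ DH X Y a b, ∃ y ∈ AddSubmonoid.closure (d.2 : Set (ℕ × ℕ)), x = d.1 + y

def PData.PP {S : Sys α} (D : PData S) : Set (ℕ × ℕ) :=
  (⋃ X, ⋃ a, ⋃ d ∈ D.DU X a, (fun v : ℕ => (v, 0)) '' (d.2 : Set ℕ)) ∪
  (⋃ X, ⋃ Y, ⋃ a, ⋃ b, ⋃ d ∈ D.DH X Y a b, (d.2 : Set (ℕ × ℕ)))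

theorem PData.PP_finite [Finite α] {S : Sys α} (D : PData S) : D.PP.Finite := by
  have := S.finQ
  refine Set.Finite.union ?_ ?_
  · refine Set.finite_iUnion fun X => Set.finite_iUnion fun a => ?_
    exact (D.DUfin X a).biUnion fun d _ => (Finset.finite_toSet _).image _
  · refine Set.finite_iUnion fun X => Set.finite_iUnion fun Y => Set.finite_iUnion fun a =>
      Set.finite_iUnion fun b => ?_
    exact (D.DHfin X Y a b).biUnion fun d _ => Finset.finite_toSet _

theorem IsSemilinearSet.explicit' {V : Type} [AddCommMonoid V] {s : Set V}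
    (h : IsSemilinearSet s) : ∃ D : Set (V × Finset V), D.Finite ∧
      ∀ x, x ∈ s ↔ ∃ d ∈ D, ∃ y ∈ AddSubmonoid.closure (d.2 : Set V), x = d.1 + y := by
  classical
  obtain ⟨T, hT, hlin, rfl⟩ := h
  have hlin' : ∀ t : Set V, ∃ d : V × Finset V, t ∈ T →
      t = d.1 +ᵥ ((AddSubmonoid.closure (d.2 : Set V) : AddSubmonoid V) : Set V) := by
    intro t
    by_cases ht : t ∈ T
    · obtain ⟨a, P, hP⟩ := isLinearSet_iff.mp (hlin t ht)
      exact ⟨(a, P), fun _ => hP⟩
    · exact ⟨(0, ∅), fun h => absurd h ht⟩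
  choose d hd using hlin'
  refine ⟨d '' T, hT.image d, fun x => ?_⟩
  constructor
  · rintro ⟨t, ht, hx⟩
    rw [hd t ht] at hx
    obtain ⟨y, hy, rfl⟩ := hx
    exact ⟨d t, mem_image_of_mem d ht, y, hy, rfl⟩
  · rintro ⟨_, ⟨t, ht, rfl⟩, y, hy, rfl⟩
    refine ⟨t, ht, ?_⟩
    have hmem : (d t).1 + y ∈ (d t).1 +ᵥ ((AddSubmonoid.closure ((d t).2 : Set V) : AddSubmonoid V) : Set V) :=
      ⟨y, hy, rfl⟩
    rw [← hd t ht] at hmem
    exact hmem

theorem exists_pdata (S : Sys α) : Nonempty (PData S) := by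
  have h1 : ∀ X a, ∃ D : Set (ℕ × Finset ℕ), D.Finite ∧ ∀ m, Yld S X (List.replicate m a) ↔
      ∃ d ∈ D, ∃ y ∈ AddSubmonoid.closure (d.2 : Set ℕ), m = d.1 + y := fun X a =>
    IsSemilinearSet.explicit' (isSemilinearSet_unary S a X)
  have h2 : ∀ X Y a b, ∃ D : Set ((ℕ × ℕ) × Finset (ℕ × ℕ)), D.Finite ∧ ∀ x, HH S a b X Y x ↔
      ∃ d ∈ D, ∃ y ∈ AddSubmonoid.closure (d.2 : Set (ℕ × ℕ)), x = d.1 + y := fun X Y a b =>
    IsSemilinearSet.explicit' (HH.semilinear S a b X Y)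
  choose DU hU1 hU2 using h1
  choose DH hH1 hH2 using h2
  exact ⟨⟨DU, hU1, hU2, DH, hH1, hH2⟩⟩

section main

variable {α : Type} (S : Sys α) (ℓ : ℕ → α) (R : ℕ)

theorem WW_emb {i j : ℕ} (hij : i < j) (hj : j < R) (n0 : ℕ → ℕ) (h0 : Supp i j n0)
    (x : ℕ × ℕ) : WW ℓ R (emb i j x + n0) =
      List.replicate x.1 (ℓ i) ++ WW ℓ R n0 ++ List.replicate x.2 (ℓ j) := by
  have e : emb i j x + n0 = Pi.single i x.1 + (n0 + Pi.single j x.2) := by
    simp only [emb, AddMonoidHom.coe_mk, ZeroHom.coe_mk]; abel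
  have e1 := WW_add ℓ R (Pi.single i x.1 : ℕ → ℕ) (n0 + (Pi.single j x.2 : ℕ → ℕ)) i
    (fun p hp => by simp [show p ≠ i by omega])
    (fun p hp => by simp [show p ≠ j by omega, h0 p (by omega)])
  have e2 := WW_add ℓ R n0 (Pi.single j x.2 : ℕ → ℕ) j
    (fun p hp => h0 p (by omega)) (fun p hp => by simp [show p ≠ j by omega])
  rw [e, e1, e2, WW_single ℓ R i (by omega), WW_single ℓ R j hj, List.append_assoc]

def Base (i j : ℕ) (Y : S.Q) (n0 : ℕ → ℕ) : Prop :=
  (S.eps Y ∧ n0 = 0) ∨ (∃ p, i ≤ p ∧ p ≤ j ∧ S.term Y (ℓ p) ∧ n0 = Pi.single p 1) ∨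
  (∃ Z Z' k n' n'', i < k ∧ k < j ∧ S.bin Y Z Z' ∧ Supp i k n' ∧ Supp k j n'' ∧ n0 = n' + n'' ∧
    Yld S Z (WW ℓ R n') ∧ Yld S Z' (WW ℓ R n''))

theorem dec {i j : ℕ} (hij : i < j) (hj : j < R) {X : S.Q} {w : List α} (h : Yld S X w) :
    ∀ n, Supp i j n → WW ℓ R n = w → ∃ Y x n0, HH S (ℓ i) (ℓ j) X Y x ∧ n = emb i j x + n0 ∧
      Base S ℓ R i j Y n0 := by
  induction h with
  | @eps X h1 =>
    intro n hn hw
    have : n = 0 := by
      funext p
      by_cases hp : p < R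
      · exact (WW_eq_nil ℓ R n).mp hw p hp
      · exact hn p (by omega)
    exact ⟨X, 0, 0, Or.inl ⟨rfl, rfl⟩, by simp [this], Or.inl ⟨h1, rfl⟩⟩
  | @term X a h1 =>
    intro n hn hw
    obtain ⟨p, hp, rfl, rfl⟩ := WW_eq_singleton ℓ R n (fun p hp => hn p (by omega)) a hw
    refine ⟨X, 0, Pi.single p 1, Or.inl ⟨rfl, rfl⟩, by simp, Or.inr (Or.inl ⟨p, ?_, ?_, h1, rfl⟩)⟩
    · by_contra hcon
      have := hn p (by omega)
      simp at this
    · by_contra hcon
      have := hn p (by omega)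
      simp at this
  | @bin X Y Z u v h1 h2 h3 ih1 ih2 =>
    intro n hn hw
    obtain ⟨k, n', n'', hik, hkj, rfl, hu, hv, hs', hs''⟩ :=
      WW_split' ℓ R i j hij.le hj n hn u v hw
    by_cases hki : k = i
    · subst hki
      obtain ⟨W, x, n0, hH, hn0, hB⟩ := ih2 n'' hs'' hv
      have e' : n' = Pi.single k (n' k) := by
        funext p
        by_cases hp : p = k
        · subst hp; simp
        · simp [hp, hs' p (by omega)]
      refine ⟨W, (n' k, 0) + x, n0, HH.step S _ _ ?_ hH, ?_, hB⟩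
      · left
        simp only [mem_iUnion, mem_image]
        refine ⟨Y, h1, n' k, ?_, rfl⟩
        have := h2
        rw [← hu, e', WW_single ℓ R k (by omega)] at this
        simpa using this
      · rw [map_add, add_assoc, ← hn0]
        congr 1
        conv_lhs => rw [e']
        simp [emb]
    · by_cases hkj' : k = j
      · subst hkj'
        obtain ⟨W, x, n0, hH, hn0, hB⟩ := ih1 n' hs' hu
        have e' : n'' = Pi.single k (n'' k) := by
          funext p
          by_cases hp : p = k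
          · subst hp; simp
          · simp [hp, hs'' p (by omega)]
        refine ⟨W, (0, n'' k) + x, n0, HH.step S _ _ ?_ hH, ?_, hB⟩
        · right
          simp only [mem_iUnion, mem_image]
          refine ⟨Z, h1, n'' k, ?_, rfl⟩
          have := h3
          rw [← hv, e', WW_single ℓ R k (by omega)] at this
          simpa using this
        · rw [map_add, add_assoc, ← hn0, add_comm]
          congr 1
          conv_lhs => rw [e']
          simp [emb]
      · exact ⟨X, 0, n' + n'', Or.inl ⟨rfl, rfl⟩, by simp, Or.inr (Or.inr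
          ⟨Y, Z, k, n', n'', by omega, by omega, h1, hs', hs'', rfl, hu ▸ h2, hv ▸ h3⟩)⟩

theorem Base.yld {i j : ℕ} (hij : i < j) (hj : j < R) {Y : S.Q} {n0 : ℕ → ℕ}
    (h : Base S ℓ R i j Y n0) : Yld S Y (WW ℓ R n0) ∧ Supp i j n0 := by
  rcases h with ⟨h, rfl⟩ | ⟨p, h1, h2, h3, rfl⟩ |
    ⟨Z, Z', k, n', n'', h1, h2, h3, h4, h5, rfl, h6, h7⟩
  · refine ⟨?_, fun p _ => rfl⟩
    have : WW ℓ R 0 = [] := (WW_eq_nil ℓ R 0).mpr fun p _ => rfl
    rw [this]; exact Yld.eps h
  · refine ⟨?_, fun q hq => by simp [show q ≠ p by omega]⟩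
    rw [WW_single ℓ R p (by omega)]
    exact Yld.term h3
  · refine ⟨?_, (h4.mono le_rfl h2.le).add (h5.mono h1.le le_rfl)⟩
    rw [WW_add ℓ R n' n'' k (fun p hp => h4 p (by omega)) (fun p hp => h5 p (by omega))]
    exact Yld.bin h3 h6 h7

theorem HH.yld {i j : ℕ} (hij : i < j) (hj : j < R) {X Y : S.Q} {x : ℕ × ℕ}
    (hH : HH S (ℓ i) (ℓ j) X Y x) {n0 : ℕ → ℕ} (h0 : Supp i j n0) (hY : Yld S Y (WW ℓ R n0)) :
    Yld S X (WW ℓ R (emb i j x + n0)) := by
  rw [WW_emb ℓ R hij hj n0 h0]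
  exact hH.fill S _ _ hY

theorem gs (D : PData S) : ∀ (d i j : ℕ), i ≤ j → j - i = d → j < R → ∀ X : S.Q,
    ∃ T : Set ((ℕ → ℕ) × Set Edge), T.Finite ∧ (∀ P ∈ T, Good S ℓ R D.PP i j X P.1 P.2) ∧
      ∀ n, Supp i j n → Yld S X (WW ℓ R n) → ∃ P ∈ T, InP P.1 P.2 n := by
  intro d
  induction d using Nat.strong_induction_on with
  | _ d ih =>
  intro i j hij hd hj X
  by_cases hi : i = j
  · -- unary case
    subst hi
    refine ⟨(fun q : ℕ × Finset ℕ => ((Pi.single i q.1 : ℕ → ℕ),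
      (fun v : ℕ => ((i, i, v, 0) : Edge)) '' (q.2 : Set ℕ))) '' (D.DU X (ℓ i)),
      (D.DUfin X (ℓ i)).image _, ?_, ?_⟩
    · rintro _ ⟨q, hq, rfl⟩
      have hcl : ∀ y ∈ AddSubmonoid.closure (evec '' ((fun v : ℕ => ((i, i, v, 0) : Edge)) ''
          (q.2 : Set ℕ))), ∃ m ∈ AddSubmonoid.closure (q.2 : Set ℕ), y = Pi.single i m := by
        intro y hy
        induction hy using AddSubmonoid.closure_induction with
        | mem y hy =>
          obtain ⟨_, ⟨v, hv, rfl⟩, rfl⟩ := hy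
          exact ⟨v, AddSubmonoid.subset_closure hv, by simp [evec, emb]⟩
        | zero => exact ⟨0, zero_mem _, by simp⟩
        | add a b _ _ ha hb =>
          obtain ⟨m, hm, rfl⟩ := ha
          obtain ⟨m', hm', rfl⟩ := hb
          exact ⟨m + m', add_mem hm hm', by rw [Pi.single_add]⟩
      refine ⟨(Finset.finite_toSet _).image _, ?_, ?_, ?_, ?_⟩
      · intro y hy
        obtain ⟨m, hm, rfl⟩ := hcl y hy
        simp only
        rw [← Pi.single_add, WW_single ℓ R i hj, D.DUspec]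
        exact ⟨q, hq, m, hm, rfl⟩
      · intro p hp; simp [show p ≠ i by omega]
      · rintro _ ⟨v, hv, rfl⟩
        refine ⟨le_rfl, le_rfl, le_rfl, Or.inl ?_⟩
        simp only [mem_iUnion]
        exact ⟨X, ℓ i, q, hq, v, hv, rfl⟩
      · rintro _ ⟨v, hv, rfl⟩ _ ⟨v', hv', rfl⟩ h
        simp at h
    · intro n hn hY
      have e' : n = Pi.single i (n i) := by
        funext p
        by_cases hp : p = i
        · subst hp; simp
        · simp [hp, hn p (by omega)]
      rw [e', WW_single ℓ R i hj, D.DUspec] at hY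
      obtain ⟨q, hq, m, hm, hnm⟩ := hY
      refine ⟨_, mem_image_of_mem _ hq, Pi.single i m, ?_, ?_⟩
      · clear hnm
        induction hm using AddSubmonoid.closure_induction with
        | mem v hv =>
          exact AddSubmonoid.subset_closure ⟨(i, i, v, 0), ⟨v, hv, rfl⟩, by simp [evec, emb]⟩
        | zero => simp
        | add a b _ _ ha hb => rw [Pi.single_add]; exact add_mem ha hb
      · rw [← Pi.single_add, ← hnm]; exact e'
  · have hij' : i < j := lt_of_le_of_ne hij hi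
    -- recursive pieces
    have ih1 : ∀ k, ∀ Z : S.Q, ∃ T : Set ((ℕ → ℕ) × Set Edge), (i < k → k < j → T.Finite ∧
        (∀ P ∈ T, Good S ℓ R D.PP i k Z P.1 P.2) ∧
        ∀ n, Supp i k n → Yld S Z (WW ℓ R n) → ∃ P ∈ T, InP P.1 P.2 n) := by
      intro k Z
      by_cases hk : i < k ∧ k < j
      · obtain ⟨T, hT⟩ := ih (k - i) (by omega) i k hk.1.le rfl (by omega) Z
        exact ⟨T, fun _ _ => hT⟩
      · exact ⟨∅, fun h1 h2 => absurd ⟨h1, h2⟩ hk⟩
    have ih2 : ∀ k, ∀ Z : S.Q, ∃ T : Set ((ℕ → ℕ) × Set Edge), (i < k → k < j → T.Finite ∧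
        (∀ P ∈ T, Good S ℓ R D.PP k j Z P.1 P.2) ∧
        ∀ n, Supp k j n → Yld S Z (WW ℓ R n) → ∃ P ∈ T, InP P.1 P.2 n) := by
      intro k Z
      by_cases hk : i < k ∧ k < j
      · obtain ⟨T, hT⟩ := ih (j - k) (by omega) k j hk.2.le rfl (by omega) Z
        exact ⟨T, fun _ _ => hT⟩
      · exact ⟨∅, fun h1 h2 => absurd ⟨h1, h2⟩ hk⟩
    choose T1 hT1 using ih1
    choose T2 hT2 using ih2
    have := S.finQ
    -- base pieces
    let BP : S.Q → Set ((ℕ → ℕ) × Set Edge) := fun Y =>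
      {P | P = (0, ∅) ∧ S.eps Y} ∪
      (⋃ p ∈ Finset.Icc i j, {P | P = ((Pi.single p 1 : ℕ → ℕ), (∅ : Set Edge)) ∧ S.term Y (ℓ p)}) ∪
      (⋃ k ∈ Finset.Ioo i j, ⋃ Z : S.Q, ⋃ Z' : S.Q, {P | S.bin Y Z Z' ∧
        P ∈ (fun x : ((ℕ → ℕ) × Set Edge) × ((ℕ → ℕ) × Set Edge) =>
          (x.1.1 + x.2.1, x.1.2 ∪ x.2.2)) '' (T1 k Z ×ˢ T2 k Z')})
    have hBPfin : ∀ Y, (BP Y).Finite := by
      intro Y
      refine Set.Finite.union (Set.Finite.union ?_ ?_) ?_
      · exact (Set.finite_singleton (0, ∅)).subset fun P hP => hP.1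
      · refine Set.Finite.biUnion (Finset.finite_toSet _) fun p _ => ?_
        exact (Set.finite_singleton ((Pi.single p 1 : ℕ → ℕ), (∅ : Set Edge))).subset
          fun P hP => hP.1
      · refine Set.Finite.biUnion (Finset.finite_toSet _) fun k hk => ?_
        have hk' := Finset.mem_Ioo.mp (Finset.mem_coe.mp hk)
        refine Set.finite_iUnion fun Z => Set.finite_iUnion fun Z' => ?_
        exact (((hT1 k Z hk'.1 hk'.2).1.prod (hT2 k Z' hk'.1 hk'.2).1).image _).subset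
          fun P hP => hP.2
    have hBPgood : ∀ Y, ∀ P ∈ BP Y, P.2.Finite ∧ (∀ y ∈ AddSubmonoid.closure (evec '' P.2),
        Base S ℓ R i j Y (P.1 + y)) ∧ Supp i j P.1 ∧ (∀ e ∈ P.2, (i ≤ e.1 ∧ e.1 ≤ e.2.1 ∧
        e.2.1 ≤ j ∧ e.2.2 ∈ D.PP)) ∧
        (∀ e ∈ P.2, ∀ e' ∈ P.2, ¬ (e.1 < e'.1 ∧ e'.1 < e.2.1 ∧ e.2.1 < e'.2.1)) := by
      intro Y P hP
      rcases hP with (⟨rfl, h⟩ | h) | h
      · refine ⟨Set.finite_empty, ?_, fun p _ => rfl, by simp, by simp⟩
        intro y hy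
        simp only [image_empty, AddSubmonoid.closure_empty, AddSubmonoid.mem_bot] at hy
        subst hy
        exact Or.inl ⟨h, by simp⟩
      · simp only [mem_iUnion] at h
        obtain ⟨p, hp, rfl, ht⟩ := h
        have hp' := Finset.mem_Icc.mp hp
        refine ⟨Set.finite_empty, ?_, fun q hq => by simp [show q ≠ p by omega], by simp, by simp⟩
        intro y hy
        simp only [image_empty, AddSubmonoid.closure_empty, AddSubmonoid.mem_bot] at hy
        subst hy
        exact Or.inr (Or.inl ⟨p, hp'.1, hp'.2, ht, by simp⟩)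
      · simp only [mem_iUnion] at h
        obtain ⟨k, hk, Z, Z', hb, ⟨⟨P1, P2⟩, ⟨h1, h2⟩, rfl⟩⟩ := h
        have hk' := Finset.mem_Ioo.mp hk
        have g1 := (hT1 k Z hk'.1 hk'.2).2.1 P1 h1
        have g2 := (hT2 k Z' hk'.1 hk'.2).2.1 P2 h2
        refine ⟨g1.fin.union g2.fin, ?_, (g1.supp.mono le_rfl hk'.2.le).add
          (g2.supp.mono hk'.1.le le_rfl), ?_, ?_⟩
        · intro y hy
          simp only at hy
          rw [image_union, AddSubmonoid.closure_union, AddSubmonoid.mem_sup] at hy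
          obtain ⟨y1, hy1, y2, hy2, rfl⟩ := hy
          have s1 := supp_closure (fun e he => ⟨(g1.edge e he).1, (g1.edge e he).2.1,
            (g1.edge e he).2.2.1⟩) hy1
          have s2 := supp_closure (fun e he => ⟨(g2.edge e he).1, (g2.edge e he).2.1,
            (g2.edge e he).2.2.1⟩) hy2
          refine Or.inr (Or.inr ⟨Z, Z', k, P1.1 + y1, P2.1 + y2, hk'.1, hk'.2, hb,
            g1.supp.add s1, g2.supp.add s2, ?_, g1.yld y1 hy1, g2.yld y2 hy2⟩)
          simp only; abel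
        · rintro e (he | he)
          · have := g1.edge e he
            exact ⟨this.1, this.2.1, by omega, this.2.2.2⟩
          · have := g2.edge e he
            exact ⟨by omega, this.2.1, this.2.2.1, this.2.2.2⟩
        · rintro e (he | he) e' (he' | he') h
          · exact g1.nc e he e' he' h
          · have := g1.edge e he
            have := g2.edge e' he'
            omega
          · have := g2.edge e he
            have := g1.edge e' he'
            omega
          · exact g2.nc e he e' he' h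
    refine ⟨⋃ Y : S.Q, (fun x : ((ℕ × ℕ) × Finset (ℕ × ℕ)) × ((ℕ → ℕ) × Set Edge) =>
      (emb i j x.1.1 + x.2.1, (fun v : ℕ × ℕ => ((i, j, v) : Edge)) '' (x.1.2 : Set (ℕ × ℕ)) ∪ x.2.2))
        '' (D.DH X Y (ℓ i) (ℓ j) ×ˢ BP Y), ?_, ?_, ?_⟩
    · exact Set.finite_iUnion fun Y => ((D.DHfin X Y _ _).prod (hBPfin Y)).image _
    · intro P hP
      simp only [mem_iUnion] at hP
      obtain ⟨Y, ⟨⟨q, P⟩, ⟨hq, hP⟩, rfl⟩⟩ := hP
      simp only at hq hP ⊢
      obtain ⟨f1, f2, f3, f4, f5⟩ := hBPgood Y P hP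
      refine ⟨((Finset.finite_toSet _).image _).union f1, ?_, ?_, ?_, ?_⟩
      · intro y hy
        rw [image_union, AddSubmonoid.closure_union, AddSubmonoid.mem_sup] at hy
        obtain ⟨y1, hy1, y2, hy2, rfl⟩ := hy
        have : ∃ z ∈ AddSubmonoid.closure (q.2 : Set (ℕ × ℕ)), y1 = emb i j z := by
          rw [← image_comp] at hy1
          have : (evec ∘ fun v : ℕ × ℕ => ((i, j, v) : Edge)) = emb i j := rfl
          rw [this, ← AddMonoidHom.map_mclosure] at hy1
          obtain ⟨z, hz, rfl⟩ := hy1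
          exact ⟨z, hz, rfl⟩
        obtain ⟨z, hz, rfl⟩ := this
        obtain ⟨hYl, hsp⟩ := (f2 y2 hy2).yld S ℓ R hij' hj
        have hH : HH S (ℓ i) (ℓ j) X Y (q.1 + z) := (D.DHspec X Y _ _ _).mpr ⟨q, hq, z, hz, rfl⟩
        have := hH.yld S ℓ R hij' hj hsp hYl
        rw [show emb i j q.1 + P.1 + (emb i j z + y2) = emb i j (q.1 + z) + (P.1 + y2) by
          rw [map_add]; abel]
        exact this
      · refine Supp.add ?_ f3
        intro p hp
        simp only [emb, AddMonoidHom.coe_mk, ZeroHom.coe_mk, Pi.add_apply, Pi.single_apply]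
        rw [if_neg (by omega), if_neg (by omega)]; rfl
      · rintro e (⟨v, hv, rfl⟩ | he)
        · refine ⟨le_rfl, hij, le_rfl, Or.inr ?_⟩
          simp only [mem_iUnion]
          exact ⟨X, Y, ℓ i, ℓ j, q, hq, hv⟩
        · exact f4 e he
      · rintro e (⟨v, hv, rfl⟩ | he) e' (⟨v', hv', rfl⟩ | he') h
        · simp at h
        · have := f4 e' he'; simp only at h; omega
        · have := f4 e he; simp only at h; omega
        · exact f5 e he e' he' h
    · intro n hn hY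
      obtain ⟨Y, x, n0, hH, rfl, hB⟩ := dec S ℓ R hij' hj hY n hn rfl
      have hb : ∃ P ∈ BP Y, InP P.1 P.2 n0 := by
        rcases hB with ⟨h, rfl⟩ | ⟨p, h1, h2, h3, rfl⟩ |
          ⟨Z, Z', k, n', n'', h1, h2, h3, h4, h5, rfl, h6, h7⟩
        · exact ⟨(0, ∅), Or.inl (Or.inl ⟨rfl, h⟩), 0, zero_mem _, by simp⟩
        · refine ⟨(Pi.single p 1, ∅), Or.inl (Or.inr ?_), 0, zero_mem _, by simp⟩
          simp only [mem_iUnion]
          exact ⟨p, Finset.mem_Icc.mpr ⟨h1, h2⟩, rfl, h3⟩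
        · obtain ⟨P1, hP1, y1, hy1, rfl⟩ := (hT1 k Z h1 h2).2.2 n' h4 h6
          obtain ⟨P2, hP2, y2, hy2, rfl⟩ := (hT2 k Z' h1 h2).2.2 n'' h5 h7
          refine ⟨(P1.1 + P2.1, P1.2 ∪ P2.2), Or.inr ?_, y1 + y2, ?_, ?_⟩
          · simp only [mem_iUnion]
            exact ⟨k, Finset.mem_Ioo.mpr ⟨h1, h2⟩, Z, Z', h3, ⟨(P1, P2), ⟨hP1, hP2⟩, rfl⟩⟩
          · simp only
            rw [image_union, AddSubmonoid.closure_union]
            exact AddSubmonoid.mem_sup.mpr ⟨y1, hy1, y2, hy2, rfl⟩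
          · simp only; abel
      obtain ⟨P, hP, y, hy, rfl⟩ := hb
      obtain ⟨q, hq, z, hz, rfl⟩ := (D.DHspec X Y _ _ _).mp hH
      refine ⟨(emb i j q.1 + P.1, (fun v : ℕ × ℕ => ((i, j, v) : Edge)) '' (q.2 : Set (ℕ × ℕ)) ∪ P.2),
        ?_, emb i j z + y, ?_, ?_⟩
      · simp only [mem_iUnion]
        exact ⟨Y, ⟨(q, P), ⟨hq, hP⟩, rfl⟩⟩
      · simp only
        rw [image_union, AddSubmonoid.closure_union]
        refine AddSubmonoid.mem_sup.mpr ⟨emb i j z, ?_, y, hy, rfl⟩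
        rw [← image_comp]
        have : (evec ∘ fun v : ℕ × ℕ => ((i, j, v) : Edge)) = emb i j := rfl
        rw [this, ← AddMonoidHom.map_mclosure]
        exact ⟨z, hz, rfl⟩
      · simp only
        rw [map_add]; abel

end main

end pieces

end Pool.Agent.Helper59.PCF
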