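import Mathlib
import Pool.Agent.Helper59.PCF.Unary

set_option autoImplicit false

namespace Pool.Agent.Helper59.PCF

open ContextFreeGrammar

section

variable {T : Type} (g : ContextFreeGrammar T)

inductive YS : List (Symbol T g.NT) → List T → Prop
  | nil : YS [] []
  | term {a : T} {s : List (Symbol T g.NT)} {w : List T} : YS s w →
      YS (Symbol.terminal a :: s) (a :: w)
  | nt {r : ContextFreeRule T g.NT} {s : List (Symbol T g.NT)} {u v : List T} : r ∈ g.rules →
      YS r.output u → YS s v → YS (Symbol.nonterminal r.input :: s) (u ++ v)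

theorem YS.append {s t : List (Symbol T g.NT)} {u v : List T} (hs : YS g s u) (ht : YS g t v) :
    YS g (s ++ t) (u ++ v) := by
  induction hs with
  | nil => exact ht
  | term _ ih => exact YS.term ih
  | nt h1 h2 _ _ ih =>
    rw [List.cons_append, List.append_assoc]
    exact YS.nt h1 h2 ih

theorem YS.split {s t : List (Symbol T g.NT)} {w : List T} (h : YS g (s ++ t) w) :
    ∃ u v, w = u ++ v ∧ YS g s u ∧ YS g t v := by
  induction s generalizing w with
  | nil => exact ⟨[], w, rfl, YS.nil, h⟩
  | cons x s ih =>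
    rw [List.cons_append] at h
    generalize hx : x :: (s ++ t) = z at h
    cases h with
    | nil => simp at hx
    | @term a s' w' h' =>
      obtain ⟨rfl, rfl⟩ := List.cons.inj hx
      obtain ⟨u, v, rfl, hu, hv⟩ := ih h'
      exact ⟨a :: u, v, rfl, YS.term hu, hv⟩
    | @nt r s' u' v' h1 h2 h3 =>
      obtain ⟨rfl, rfl⟩ := List.cons.inj hx
      obtain ⟨u, v, rfl, hu, hv⟩ := ih h3
      exact ⟨u' ++ u, v, by simp, YS.nt h1 h2 hu, hv⟩

theorem YS.derives {s : List (Symbol T g.NT)} {w : List T} (h : YS g s w) :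
    g.Derives s (w.map Symbol.terminal) := by
  induction h with
  | nil => exact Derives.refl _
  | @term a s w _ ih => exact ih.append_left [Symbol.terminal a]
  | @nt r s u v h1 h2 h3 ih1 ih2 =>
    have e1 : g.Derives (Symbol.nonterminal r.input :: s) (r.output ++ s) :=
      Produces.single ⟨r, h1, ContextFreeRule.Rewrites.head s⟩
    refine e1.trans ?_
    rw [List.map_append]
    exact (ih1.append_right s).trans (ih2.append_left _)

theorem YS.of_map (w : List T) : YS g (w.map Symbol.terminal) w := by
  induction w with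
  | nil => exact YS.nil
  | cons a w ih => exact YS.term ih

theorem YS.of_derives {s t : List (Symbol T g.NT)} (h : g.Derives s t) (w : List T)
    (ht : t = w.map Symbol.terminal) : YS g s w := by
  induction h using Relation.ReflTransGen.head_induction_on with
  | refl => subst ht; exact YS.of_map g w
  | @head a c hac _ ih =>
    obtain ⟨r, hr, hrw⟩ := hac
    obtain ⟨p, q, rfl, rfl⟩ := hrw.exists_parts
    obtain ⟨u, v, rfl, hu, hv⟩ := YS.split g ih
    obtain ⟨u1, u2, rfl, hu1, hu2⟩ := YS.split g hu
    refine YS.append g (YS.append g hu1 ?_) hv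
    have := YS.nt hr hu2 YS.nil
    simpa using this

def sfx : Set (List (Symbol T g.NT)) :=
  {s | s = [Symbol.nonterminal g.initial] ∨ s = [] ∨ ∃ r ∈ g.rules, s <:+ r.output}

theorem sfx_finite : (sfx g).Finite := by
  have h : sfx g ⊆ {[Symbol.nonterminal g.initial]} ∪ ({[]} ∪
      ⋃ r ∈ g.rules, {s | s <:+ r.output}) := by
    rintro s (h | h | ⟨r, hr, h⟩)
    · exact Or.inl h
    · exact Or.inr (Or.inl h)
    · exact Or.inr (Or.inr (by simp only [Set.mem_iUnion]; exact ⟨r, hr, h⟩))
  refine Set.Finite.subset ((Set.finite_singleton _).union ((Set.finite_singleton _).union ?_)) h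
  refine Set.Finite.biUnion (Finset.finite_toSet _) fun r _ => ?_
  have : {s | s <:+ r.output} = {s | s ∈ r.output.tails} := by
    ext s; simp
  rw [this]
  exact List.finite_toSet _

def gsys [Finite T] : Sys T where
  Q := sfx g ⊕ T
  finQ := by
    have := (sfx_finite g).to_subtype
    infer_instance
  eps := fun X => match X with
    | Sum.inl s => s.1 = []
    | Sum.inr _ => False
  term := fun X b => match X with
    | Sum.inl _ => False
    | Sum.inr a => a = b
  bin := fun X Y Z => match X, Z with
    | Sum.inl s, Sum.inl s' => (∃ a, s.1 = Symbol.terminal a :: s'.1 ∧ Y = Sum.inr a) ∨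
        (∃ r ∈ g.rules, s.1 = Symbol.nonterminal r.input :: s'.1 ∧
          ∃ s'' : sfx g, Y = Sum.inl s'' ∧ s''.1 = r.output)
    | _, _ => False

def gval : sfx g ⊕ T → List T → Prop
  | Sum.inl s, w => YS g s.1 w
  | Sum.inr a, w => w = [a]

theorem gsys_sound [Finite T] (X : (gsys g).Q) (w : List T) (h : Yld (gsys g) X w) :
    gval g X w := by
  induction h with
  | @eps X h1 =>
    match X, h1 with
    | Sum.inl s, h1 =>
      change s.1 = [] at h1
      simp only [gval, h1]
      exact YS.nil
    | Sum.inr _, h1 => exact h1.elim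
  | @term X a h1 =>
    match X, h1 with
    | Sum.inl s, h1 => exact h1.elim
    | Sum.inr b, h1 =>
      change b = a at h1
      simp [gval, h1]
  | @bin X Y Z u v h1 h2 h3 ih1 ih2 =>
    clear h2 h3
    match X, Z, h1, ih2 with
    | Sum.inl s, Sum.inl s', h1, ih2 =>
      simp only [gval] at ih2 ⊢
      rcases h1 with ⟨a, hs, rfl⟩ | ⟨r, hr, hs, s'', rfl, hs''⟩
      · simp only [gval] at ih1
        subst ih1
        rw [hs]
        exact YS.term ih2
      · simp only [gval] at ih1
        rw [hs]
        rw [hs''] at ih1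
        exact YS.nt hr ih1 ih2
    | Sum.inl _, Sum.inr _, h1, _ => exact h1.elim
    | Sum.inr _, _, h1, _ => exact h1.elim

theorem gsys_complete [Finite T] {s : List (Symbol T g.NT)} {w : List T} (h : YS g s w) :
    ∀ hs : s ∈ sfx g, Yld (gsys g) (Sum.inl ⟨s, hs⟩) w := by
  induction h with
  | nil => intro hs; exact Yld.eps (S := gsys g) rfl
  | @term a s w h ih =>
    intro hs
    have hs' : s ∈ sfx g := by
      rcases hs with h | h | ⟨r, hr, h⟩
      · simp at h
      · simp at h
      · exact Or.inr (Or.inr ⟨r, hr, (List.suffix_cons _ _).trans h⟩)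
    refine Yld.bin (S := gsys g) (u := [a]) (Y := Sum.inr a) (Z := Sum.inl ⟨s, hs'⟩)
      (Or.inl ⟨a, rfl, rfl⟩) (Yld.term (S := gsys g) rfl) (ih hs')
  | @nt r s u v h1 h2 h3 ih1 ih2 =>
    intro hs
    have hs' : s ∈ sfx g := by
      rcases hs with h | h | ⟨r, hr, h⟩
      · simp only [List.cons.injEq] at h
        exact Or.inr (Or.inl h.2)
      · simp at h
      · exact Or.inr (Or.inr ⟨r, hr, (List.suffix_cons _ _).trans h⟩)
    have hr' : r.output ∈ sfx g := Or.inr (Or.inr ⟨r, h1, List.suffix_refl _⟩)
    exact Yld.bin (S := gsys g) (Y := Sum.inl ⟨r.output, hr'⟩) (Z := Sum.inl ⟨s, hs'⟩)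
      (Or.inr ⟨r, h1, rfl, ⟨r.output, hr'⟩, rfl, rfl⟩) (ih1 hr') (ih2 hs')

end

theorem exists_sys {T : Type} [Finite T] (L : Language T) (hL : L.IsContextFree) :
    ∃ (S : Sys T) (X : S.Q), ∀ w, w ∈ L ↔ Yld S X w := by
  obtain ⟨g, rfl⟩ := hL
  refine ⟨gsys g, Sum.inl ⟨[Symbol.nonterminal g.initial], Or.inl rfl⟩, fun w => ?_⟩
  rw [mem_language_iff]
  constructor
  · intro h
    exact gsys_complete g (YS.of_derives g h w rfl) _
  · intro h
    exact YS.derives g (gsys_sound g _ w h)

end Pool.Agent.Helper59.PCF
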