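import Mathlib
import Pool.Agent.Helper59.PCF.Bounded

set_option autoImplicit false

namespace Pool.Agent.Helper59.PCF

/-- functionals vanishing on the edge vectors -/
def Ann (K : Set Edge) (φ : ℕ → ℚ) : Prop :=
  ∀ e ∈ K, (e.2.2.1 : ℚ) * φ e.1 + (e.2.2.2 : ℚ) * φ e.2.1 = 0

/-- proper pairs -/
def PP (K : Set Edge) (i j : ℕ) : Prop := i < j ∧ ∃ s t, (i, j, s, t) ∈ K ∧ s ≠ 0 ∧ t ≠ 0

def sg (m p : ℕ) : ℚ := if p < m - 2 then 1 else -1

theorem sg_mul_self (m p : ℕ) : sg m p * sg m p = 1 := by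
  unfold sg; split_ifs <;> norm_num

theorem sg_cases (m p : ℕ) : sg m p = 1 ∨ sg m p = -1 := by
  unfold sg; split_ifs <;> simp

theorem aux7 {Q Q' j a0 b0 m i k : ℕ} {A B : Prop} (hQ : Q + m ≤ Q') (ha : a0 < m) (hb : b0 < m)
    (hj : j + 1 < m) (hab : b0 < a0) (l0 : i < k)
    (n1 : ¬ (i < Q + j ∧ Q + j < k ∧ k < Q' + a0))
    (n2 : ¬ (Q + j < i ∧ i < Q' + a0 ∧ Q' + a0 < k))
    (n3 : ¬ (i < Q + (j+1) ∧ Q + (j+1) < k ∧ k < Q' + b0))
    (n4 : ¬ (Q + (j+1) < i ∧ i < Q' + b0 ∧ Q' + b0 < k))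
    (f1 : i = Q + j → Q' ≤ k → k < Q' + m → Q' + a0 ≤ k)
    (f2 : i = Q + (j+1) → Q' ≤ k → k < Q' + m → k ≤ Q' + b0)
    (f3 : Q' ≤ i → k < Q' + m → (A ↔ B))
    (f4 : ¬ (i = Q + j ∧ k = Q + (j+1)))
    (f5 : i = Q' + b0 → A) (f7 : k = Q' + a0 → ¬ B) :
    ((Q + (j + 1) ≤ i ∧ i ≤ Q' + b0) ∨ (Q' + b0 < i ∧ i < Q' + a0 ∧ A)) ↔
    ((Q + (j + 1) ≤ k ∧ k ≤ Q' + b0) ∨ (Q' + b0 < k ∧ k < Q' + a0 ∧ B)) := by
  constructor
  · rintro (⟨g1, g2⟩ | ⟨g1, g2, hA⟩)
    · by_cases hk : k ≤ Q' + b0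
      · left; omega
      · push Not at hk
        right
        rcases Nat.lt_trichotomy k (Q' + a0) with h | h | h
        · refine ⟨hk, h, ?_⟩
          rcases Nat.lt_or_ge i (Q' + b0) with h' | h'
          · exfalso
            rcases Nat.lt_or_ge (Q + (j + 1)) i with h'' | h''
            · exact n4 ⟨h'', h', hk⟩
            · have := f2 (by omega) (by omega) (by omega); omega
          · exact (f3 (by omega) (by omega)).mp (f5 (by omega))
        · exfalso
          rcases Nat.lt_or_ge i (Q' + b0) with h' | h'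
          · rcases Nat.lt_or_ge (Q + (j + 1)) i with h'' | h''
            · exact n4 ⟨h'', h', hk⟩
            · have := f2 (by omega) (by omega) (by omega); omega
          · exact f7 h ((f3 (by omega) (by omega)).mp (f5 (by omega)))
        · exact absurd ⟨by omega, by omega, h⟩ n2
    · rcases Nat.lt_trichotomy k (Q' + a0) with h | h | h
      · right
        exact ⟨by omega, h, (f3 (by omega) (by omega)).mp hA⟩
      · exact absurd ((f3 (by omega) (by omega)).mp hA) (f7 h)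
      · exact absurd ⟨by omega, by omega, h⟩ n2
  · rintro (⟨g1, g2⟩ | ⟨g1, g2, hB⟩)
    · left
      rcases Nat.lt_trichotomy i (Q + j) with h | h | h
      · exact absurd ⟨h, by omega, by omega⟩ n1
      · exfalso
        rcases Nat.lt_trichotomy k (Q' + b0) with h' | h' | h'
        · rcases Nat.lt_or_ge (Q + (j + 1)) k with h'' | h''
          · exact n3 ⟨by omega, h'', h'⟩
          · exact f4 ⟨h, by omega⟩
        · have := f1 h (by omega) (by omega); omega
        · omega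
      · omega
    · rcases Nat.lt_trichotomy i (Q + j) with h | h | h
      · exact absurd ⟨h, by omega, by omega⟩ n1
      · have := f1 h (by omega) (by omega); omega
      · by_cases h' : i ≤ Q' + b0
        · left; omega
        · right
          exact ⟨by omega, by omega, (f3 (by omega) (by omega)).mpr hB⟩

theorem aux8 {Q Q' j a0 b0 m i k : ℕ} {A B : Prop} (hQ : Q' + m ≤ Q) (ha : a0 < m) (hb : b0 < m)
    (hj : j + 2 < m) (hab : b0 < a0) (l0 : i < k)
    (n1 : ¬ (i < Q' + a0 ∧ Q' + a0 < k ∧ k < Q + j))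
    (n2 : ¬ (Q' + a0 < i ∧ i < Q + j ∧ Q + j < k))
    (n3 : ¬ (i < Q' + b0 ∧ Q' + b0 < k ∧ k < Q + (j+1)))
    (n4 : ¬ (Q' + b0 < i ∧ i < Q + (j+1) ∧ Q + (j+1) < k))
    (f1 : k = Q + j → Q' ≤ i → i < Q' + m → Q' + a0 ≤ i)
    (f2 : k = Q + (j+1) → Q' ≤ i → i < Q' + m → i ≤ Q' + b0)
    (f3 : Q' ≤ i → k < Q' + m → (A ↔ B))
    (f4 : ¬ (i = Q + j ∧ k = Q + (j+1)))
    (f5 : k = Q' + a0 → B) (f7 : i = Q' + b0 → ¬ A) :
    ((Q' + a0 ≤ i ∧ i ≤ Q + j) ∨ (Q' + b0 < i ∧ i < Q' + a0 ∧ A)) ↔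
    ((Q' + a0 ≤ k ∧ k ≤ Q + j) ∨ (Q' + b0 < k ∧ k < Q' + a0 ∧ B)) := by
  constructor
  · rintro (⟨g1, g2⟩ | ⟨g1, g2, hA⟩)
    · left
      refine ⟨by omega, ?_⟩
      by_contra hk
      push Not at hk
      -- k > Q + j
      rcases Nat.lt_trichotomy k (Q + (j + 1)) with h | h | h
      · omega
      · have : i ≠ Q + j := fun h' => f4 ⟨h', h⟩
        rcases Nat.lt_or_ge i (Q' + m) with h' | h'
        · have := f2 h (by omega) h'; omega
        · exact n2 ⟨by omega, by omega, by omega⟩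
      · exact n4 ⟨by omega, by omega, h⟩
    · rcases Nat.lt_trichotomy k (Q' + a0) with h | h | h
      · right
        exact ⟨by omega, h, (f3 (by omega) (by omega)).mp hA⟩
      · left; omega
      · left
        refine ⟨by omega, ?_⟩
        by_contra hk
        push Not at hk
        rcases Nat.lt_trichotomy k (Q + (j + 1)) with h1 | h1 | h1
        · omega
        · have := f2 h1 (by omega) (by omega); omega
        · exact n4 ⟨by omega, by omega, h1⟩
  · rintro (⟨g1, g2⟩ | ⟨g1, g2, hB⟩)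
    · rcases Nat.lt_trichotomy i (Q' + b0) with h | h | h
      · exact absurd ⟨h, by omega, by omega⟩ n3
      · exfalso
        rcases Nat.lt_trichotomy k (Q + j) with h' | h' | h'
        · rcases Nat.lt_or_ge (Q' + a0) k with h'' | h''
          · exact n1 ⟨by omega, h'', h'⟩
          · exact f7 h ((f3 (by omega) (by omega)).mpr (f5 (by omega)))
        · have := f1 h' (by omega) (by omega); omega
        · omega
      · rcases Nat.lt_or_ge i (Q' + a0) with h1 | h1
        · rcases Nat.lt_trichotomy k (Q + j) with h' | h' | h'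
          · rcases Nat.lt_or_ge (Q' + a0) k with h'' | h''
            · exact absurd ⟨by omega, h'', h'⟩ n1
            · right
              exact ⟨h, h1, (f3 (by omega) (by omega)).mpr (f5 (by omega))⟩
          · have := f1 h' (by omega) (by omega); omega
          · omega
        · left; omega
    · rcases Nat.lt_trichotomy i (Q' + b0) with h | h | h
      · exact absurd ⟨h, by omega, by omega⟩ n3
      · exact absurd ((f3 (by omega) (by omega)).mpr hB) (f7 h)
      · right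
        exact ⟨h, by omega, (f3 (by omega) (by omega)).mpr hB⟩

structure Cfg (m NB N : ℕ) (mark : ℕ → Prop) (K : Set Edge) : Prop where
  hm : NB + 5 ≤ m
  touch1 : ∀ e ∈ K, e.2.2.1 ≠ 0 → ∃ q p, q < NB ∧ mark q ∧ p < m ∧ e.1 = q * m + p
  touch2 : ∀ e ∈ K, e.2.2.2 ≠ 0 → ∃ q p, q < NB ∧ mark q ∧ p < m ∧ e.2.1 = q * m + p
  block : ∀ φ, Ann K φ → ∀ q, q < NB → mark q → ∀ p p', p < m → p' < m → p % 2 = p' % 2 →
    sg m p * φ (q * m + p) = sg m p' * φ (q * m + p')
  nc : ∀ e ∈ K, ∀ e' ∈ K, ¬ (e.1 < e'.1 ∧ e'.1 < e.2.1 ∧ e.2.1 < e'.2.1)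
  le : ∀ e ∈ K, e.1 ≤ e.2.1 ∧ e.2.2.1 ≤ N ∧ e.2.2.2 ≤ N
  hN : 1 ≤ N

namespace Cfg

variable {m NB N : ℕ} {mark : ℕ → Prop} {K : Set Edge} (C : Cfg m NB N mark K)

include C

theorem pnc {i j i' j' : ℕ} (h : PP K i j) (h' : PP K i' j') : ¬ (i < i' ∧ i' < j ∧ j < j') := by
  obtain ⟨_, s, t, h1, _⟩ := h
  obtain ⟨_, s', t', h1', _⟩ := h'
  exact C.nc _ h1 _ h1'

theorem coef {i j : ℕ} (h : PP K i j ∨ PP K j i) : ∃ s t : ℤ, 1 ≤ s ∧ s ≤ N ∧ 1 ≤ t ∧ t ≤ N ∧
    ∀ φ, Ann K φ → (s : ℚ) * φ i + (t : ℚ) * φ j = 0 := by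
  rcases h with ⟨_, s, t, h1, hs, ht⟩ | ⟨_, s, t, h1, hs, ht⟩
  · have := C.le _ h1
    exact ⟨s, t, by exact_mod_cast Nat.pos_of_ne_zero hs, by exact_mod_cast this.2.1,
      by exact_mod_cast Nat.pos_of_ne_zero ht, by exact_mod_cast this.2.2,
      fun φ hφ => by simpa using hφ _ h1⟩
  · have := C.le _ h1
    exact ⟨t, s, by exact_mod_cast Nat.pos_of_ne_zero ht, by exact_mod_cast this.2.2,
      by exact_mod_cast Nat.pos_of_ne_zero hs, by exact_mod_cast this.2.1,
      fun φ hφ => by have := hφ _ h1; simp only at this; push_cast; linarith⟩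

theorem restrict {Y : Set ℕ} [DecidablePred (· ∈ Y)] (hY : ∀ i j, PP K i j → (i ∈ Y ↔ j ∈ Y))
    {φ : ℕ → ℚ} (hφ : Ann K φ) : Ann K (fun i => if i ∈ Y then φ i else 0) := by
  rintro ⟨i, j, s, t⟩ he
  have h := hφ _ he
  simp only at h ⊢
  by_cases hs : s = 0
  · subst hs
    simp only [Nat.cast_zero, zero_mul, zero_add] at h ⊢
    split_ifs
    · exact h
    · simp
  · by_cases ht : t = 0
    · subst ht
      simp only [Nat.cast_zero, zero_mul, add_zero] at h ⊢
      split_ifs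
      · exact h
      · simp
    · by_cases hij : i = j
      · subst hij
        split_ifs
        · exact h
        · simp
      · have hlt : i < j := lt_of_le_of_ne (C.le _ he).1 hij
        have hiff := hY i j ⟨hlt, s, t, he, hs, ht⟩
        by_cases hi : i ∈ Y
        · rw [if_pos hi, if_pos (hiff.mp hi)]; exact h
        · rw [if_neg hi, if_neg (fun hj => hi (hiff.mpr hj))]; simp

/-- relation for block `q` -/
def Rel (_C : Cfg m NB N mark K) (q : ℕ) : Prop :=
  ∃ x y : ℤ, (x ≠ 0 ∨ y ≠ 0) ∧ |x| ≤ (N : ℤ) ^ 3 ∧ |y| ≤ (N : ℤ) ^ 3 ∧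
    ∀ φ, Ann K φ → (x : ℚ) * φ (q * m + 1) + (y : ℚ) * φ (q * m + 0) = 0

theorem phi_eq {φ : ℕ → ℚ} (hφ : Ann K φ) {q : ℕ} (hq : q < NB) (hmq : mark q) {p p' : ℕ}
    (hp : p < m) (hp' : p' < m) (hpp : p % 2 = p' % 2) :
    φ (q * m + p) = sg m p * sg m p' * φ (q * m + p') := by
  have := C.block φ hφ q hq hmq p p' hp hp' hpp
  have h2 := sg_mul_self m p
  calc φ (q * m + p) = (sg m p * sg m p) * φ (q * m + p) := by rw [h2, one_mul]
    _ = sg m p * (sg m p * φ (q * m + p)) := by ring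
    _ = _ := by rw [this]; ring

theorem rel_of_pair {q : ℕ} (hq : q < NB) (hmq : mark q) {p p' : ℕ} (hp : p < m) (hp' : p' < m)
    (hpp : p % 2 ≠ p' % 2) (u v : ℤ) (huv : u ≠ 0 ∨ v ≠ 0) (hu : |u| ≤ (N : ℤ) ^ 3)
    (hv : |v| ≤ (N : ℤ) ^ 3)
    (h : ∀ φ, Ann K φ → (u : ℚ) * φ (q * m + p) + (v : ℚ) * φ (q * m + p') = 0) : C.Rel q := by
  have hm := C.hm
  have hsg : ∀ p, ∃ z : ℤ, (z = 1 ∨ z = -1) ∧ sg m p = z := by
    intro p
    rcases sg_cases m p with h | h
    · exact ⟨1, Or.inl rfl, by simp [h]⟩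
    · exact ⟨-1, Or.inr rfl, by simp [h]⟩
  have s0 : sg m 0 = 1 := by unfold sg; rw [if_pos (by omega)]
  have s1 : sg m 1 = 1 := by unfold sg; rw [if_pos (by omega)]
  obtain ⟨z, hz, hz'⟩ := hsg p
  obtain ⟨z2, hz2, hz2'⟩ := hsg p'
  rcases Nat.mod_two_eq_zero_or_one p with h0 | h0
  · have h1 : p' % 2 = 1 := by omega
    refine ⟨v * z2, u * z, ?_, ?_, ?_, ?_⟩
    · rcases hz with rfl | rfl <;> rcases hz2 with rfl | rfl <;> simpa [or_comm] using huv
    · rcases hz2 with rfl | rfl <;> simpa using hv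
    · rcases hz with rfl | rfl <;> simpa using hu
    · intro φ hφ
      have e := h φ hφ
      rw [C.phi_eq hφ hq hmq hp (show 0 < m by omega) (by omega),
        C.phi_eq hφ hq hmq hp' (show 1 < m by omega) (by omega), s0, s1, hz', hz2'] at e
      push_cast
      linarith
  · have h1 : p' % 2 = 0 := by omega
    refine ⟨u * z, v * z2, ?_, ?_, ?_, ?_⟩
    · rcases hz with rfl | rfl <;> rcases hz2 with rfl | rfl <;> simpa using huv
    · rcases hz with rfl | rfl <;> simpa using hu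
    · rcases hz2 with rfl | rfl <;> simpa using hv
    · intro φ hφ
      have e := h φ hφ
      rw [C.phi_eq hφ hq hmq hp (show 1 < m by omega) (by omega),
        C.phi_eq hφ hq hmq hp' (show 0 < m by omega) (by omega), s0, s1, hz', hz2'] at e
      push_cast
      linarith

theorem one_le_N3 : (1 : ℤ) ≤ (N : ℤ) ^ 3 := by
  have := C.hN
  exact one_le_pow₀ (by exact_mod_cast this)

theorem rel_of_zero {q : ℕ} (hq : q < NB) (hmq : mark q) {p : ℕ} (hp : p < m)
    (h : ∀ φ, Ann K φ → φ (q * m + p) = 0) : C.Rel q := by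
  have hm := C.hm
  have h1 := C.one_le_N3
  obtain ⟨p', hp', hpp⟩ : ∃ p' < m, p % 2 ≠ p' % 2 := by
    rcases Nat.mod_two_eq_zero_or_one p with h0 | h0
    · exact ⟨1, by omega, by omega⟩
    · exact ⟨0, by omega, by omega⟩
  refine C.rel_of_pair hq hmq hp hp' hpp 1 0 (Or.inl one_ne_zero) (by simpa using h1) (by simp) ?_
  intro φ hφ
  simp [h φ hφ]

section bad

variable {q : ℕ} (hq : q < NB) (hmq : mark q) (hbad : ¬ C.Rel q)

include hq hmq hbad

theorem b0 {p : ℕ} (hp : p < m) : ∃ φ, Ann K φ ∧ φ (q * m + p) ≠ 0 := by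
  by_contra hcon
  push Not at hcon
  exact hbad (C.rel_of_zero hq hmq hp fun φ hφ => hcon φ hφ)

theorem b1 {e : Edge} (he : e ∈ K) {p : ℕ} (hp : p < m) :
    (e.1 = q * m + p → e.2.2.1 ≠ 0 → PP K e.1 e.2.1) ∧
    (e.2.1 = q * m + p → e.2.2.2 ≠ 0 → PP K e.1 e.2.1) := by
  obtain ⟨φ, hφ, hne⟩ := C.b0 hq hmq hbad hp
  obtain ⟨i, j, s, t⟩ := e
  have h := hφ _ he
  have hle := C.le _ he
  simp only at h hle ⊢
  constructor
  · rintro rfl hs
    have hs' : (s : ℚ) ≠ 0 := by exact_mod_cast hs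
    have ht : t ≠ 0 := by
      rintro rfl
      apply hne
      have : (s : ℚ) * φ (q * m + p) = 0 := by simpa using h
      exact (mul_eq_zero.mp this).resolve_left hs'
    have hij : q * m + p ≠ j := by
      rintro rfl
      apply hne
      have h1 : ((s : ℚ) + t) * φ (q * m + p) = 0 := by linarith
      have h2 : (s : ℚ) + t ≠ 0 := by positivity
      exact (mul_eq_zero.mp h1).resolve_left h2
    exact ⟨lt_of_le_of_ne hle.1 hij, s, t, he, hs, ht⟩
  · rintro rfl ht
    have ht' : (t : ℚ) ≠ 0 := by exact_mod_cast ht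
    have hs : s ≠ 0 := by
      rintro rfl
      apply hne
      have : (t : ℚ) * φ (q * m + p) = 0 := by simpa using h
      exact (mul_eq_zero.mp this).resolve_left ht'
    have hij : i ≠ q * m + p := by
      rintro rfl
      apply hne
      have h1 : ((s : ℚ) + t) * φ (q * m + p) = 0 := by linarith
      have h2 : (s : ℚ) + t ≠ 0 := by positivity
      exact (mul_eq_zero.mp h1).resolve_left h2
    exact ⟨lt_of_le_of_ne hle.1 hij, s, t, he, hs, ht⟩

theorem b2 {p : ℕ} (hp : p < m) : ∃ r, PP K (q * m + p) r ∨ PP K r (q * m + p) := by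
  classical
  have hm := C.hm
  by_contra hcon
  push Not at hcon
  have hann : Ann K (fun i => if i = q * m + p then 1 else 0) := by
    rintro ⟨i, j, s, t⟩ he
    have hb := C.b1 hq hmq hbad he hp
    simp only at hb ⊢
    have h1 : (s : ℚ) * (if i = q * m + p then 1 else 0) = 0 := by
      split_ifs with hi
      · have : s = 0 := by
          by_contra hs
          have h2 := hb.1 hi hs
          rw [hi] at h2
          exact (hcon j).1 h2
        simp [this]
      · simp
    have h2 : (t : ℚ) * (if j = q * m + p then 1 else 0) = 0 := by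
      split_ifs with hi
      · have : t = 0 := by
          by_contra hs
          have h2 := hb.2 hi hs
          rw [hi] at h2
          exact (hcon i).2 h2
        simp [this]
      · simp
    rw [h1, h2, add_zero]
  obtain ⟨p', hp', hne, hpp⟩ : ∃ p' < m, p' ≠ p ∧ p % 2 = p' % 2 := by
    by_cases h : p + 2 < m
    · exact ⟨p + 2, h, by omega, by omega⟩
    · exact ⟨p - 2, by omega, by omega, by omega⟩
  have := C.phi_eq hann hq hmq hp hp' hpp
  simp [hne] at this

/-- no mixed internal pairs -/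
theorem b3 {p p' : ℕ} (hp : p < m) (hp' : p' < m) (hpp : p % 2 ≠ p' % 2) :
    ¬ PP K (q * m + p) (q * m + p') := by
  intro h
  obtain ⟨s, t, hs, hs', ht, ht', hrel⟩ := C.coef (Or.inl h)
  have hN : (N : ℤ) ≤ (N : ℤ) ^ 3 := by
    have := C.hN
    exact le_self_pow₀ (by exact_mod_cast this) (by norm_num)
  exact hbad (C.rel_of_pair hq hmq hp hp' hpp s t (Or.inl (by omega))
    (by rw [abs_of_nonneg (by omega)]; omega) (by rw [abs_of_nonneg (by omega)]; omega) hrel)

theorem b4 {p p' : ℕ} (hp : p < m) (hp' : p' < m) (hpp : p % 2 = p' % 2)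
    (hs : sg m p = sg m p') : ¬ PP K (q * m + p) (q * m + p') := by
  intro h
  obtain ⟨s, t, hs1, hs', ht, ht', hrel⟩ := C.coef (Or.inl h)
  obtain ⟨φ, hφ, hne⟩ := C.b0 hq hmq hbad hp'
  have h1 := hrel φ hφ
  rw [C.phi_eq hφ hq hmq hp hp' hpp, hs, sg_mul_self, one_mul, ← add_mul] at h1
  rcases mul_eq_zero.mp h1 with h2 | h2
  · have : (s + t : ℤ) = 0 := by exact_mod_cast h2
    omega
  · exact hne h2

theorem b5 {p p' : ℕ} (hp : p < m) (hp' : p' < m) : ¬ PP K (q * m + p) (q * m + p') := by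
  have hm := C.hm
  have sgl : ∀ x, x < m - 2 → sg m x = 1 := fun x hx => by unfold sg; rw [if_pos hx]
  have sgr : ∀ x, ¬ x < m - 2 → sg m x = -1 := fun x hx => by unfold sg; rw [if_neg hx]
  -- first the case p' = m - 2
  have key : ∀ p, p < m → ¬ PP K (q * m + p) (q * m + (m - 2)) := by
    intro p hp h
    have hlt : p < m - 2 := by have := h.1; omega
    have hpar : p % 2 = (m - 2) % 2 := by
      by_contra hne
      exact C.b3 hq hmq hbad hp (by omega) hne h
    obtain ⟨r, hr⟩ := C.b2 hq hmq hbad (show p + 1 < m by omega)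
    have hin : ∃ x, p ≤ x ∧ x ≤ m - 2 ∧ r = q * m + x := by
      refine ⟨r - q * m, ?_⟩
      rcases hr with hr | hr
      · have n1 := C.pnc h hr
        have := hr.1
        omega
      · have n1 := C.pnc hr h
        have := hr.1
        omega
    obtain ⟨x, hx1, hx2, rfl⟩ := hin
    by_cases hpx : (p + 1) % 2 = x % 2
    · have hs : sg m (p + 1) = sg m x := by rw [sgl _ (by omega), sgl _ (by omega)]
      rcases hr with hr | hr
      · exact C.b4 hq hmq hbad (by omega) (by omega) hpx hs hr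
      · exact C.b4 hq hmq hbad (by omega) (by omega) hpx.symm hs.symm hr
    · rcases hr with hr | hr
      · exact C.b3 hq hmq hbad (by omega) (by omega) hpx hr
      · exact C.b3 hq hmq hbad (by omega) (by omega) (Ne.symm hpx) hr
  intro h
  have hlt : p < p' := by have := h.1; omega
  have hpar : p % 2 = p' % 2 := by
    by_contra hne
    exact C.b3 hq hmq hbad hp hp' hne h
  by_cases h2 : p' < m - 2
  · exact C.b4 hq hmq hbad hp hp' hpar (by rw [sgl _ (by omega), sgl _ h2]) h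
  by_cases h3 : p' = m - 2
  · subst h3; exact key p hp h
  have h4 : p' = m - 1 := by omega
  subst h4
  obtain ⟨r, hr⟩ := C.b2 hq hmq hbad (show m - 2 < m by omega)
  have hin : ∃ x, p ≤ x ∧ x ≤ m - 1 ∧ r = q * m + x := by
    refine ⟨r - q * m, ?_⟩
    rcases hr with hr | hr
    · have n1 := C.pnc h hr
      have := hr.1
      omega
    · have n1 := C.pnc hr h
      have := hr.1
      omega
  obtain ⟨x, hx1, hx2, rfl⟩ := hin
  by_cases hpx : (m - 2) % 2 = x % 2
  · rcases hr with hr | hr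
    · have := hr.1
      omega
    · exact key x (by omega) hr
  · rcases hr with hr | hr
    · exact C.b3 hq hmq hbad (by omega) (by omega) hpx hr
    · exact C.b3 hq hmq hbad (by omega) (by omega) (Ne.symm hpx) hr

theorem b6 {p : ℕ} (hp : p < m) : ∃ q' p', q' < NB ∧ mark q' ∧ p' < m ∧ q' ≠ q ∧
    (PP K (q * m + p) (q' * m + p') ∨ PP K (q' * m + p') (q * m + p)) := by
  obtain ⟨r, hr⟩ := C.b2 hq hmq hbad hp
  have : ∃ q' p', q' < NB ∧ mark q' ∧ p' < m ∧ r = q' * m + p' := by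
    rcases hr with ⟨_, s, t, he, hs, ht⟩ | ⟨_, s, t, he, hs, ht⟩
    · obtain ⟨q', p', h1, h2, h3, h4⟩ := C.touch2 _ he ht
      exact ⟨q', p', h1, h2, h3, h4⟩
    · obtain ⟨q', p', h1, h2, h3, h4⟩ := C.touch1 _ he hs
      exact ⟨q', p', h1, h2, h3, h4⟩
  obtain ⟨q', p', h1, h2, h3, rfl⟩ := this
  refine ⟨q', p', h1, h2, h3, ?_, hr⟩
  rintro rfl
  rcases hr with hr | hr
  · exact C.b5 hq hmq hbad hp h3 hr
  · exact C.b5 hq hmq hbad h3 hp hr

theorem combine {j : ℕ} (hj : j + 1 < m) (σ σ' : ℕ)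
    (h1 : PP K (q * m + j) σ' ∨ PP K σ' (q * m + j))
    (h2 : PP K (q * m + (j + 1)) σ ∨ PP K σ (q * m + (j + 1))) (u v : ℤ) (hu : u ≠ 0) (hv : v ≠ 0)
    (hu' : |u| ≤ N) (hv' : |v| ≤ N)
    (h : ∀ φ, Ann K φ → (u : ℚ) * φ σ' + (v : ℚ) * φ σ = 0) : False := by
  obtain ⟨s, t, hs, hs', ht, ht', hrel⟩ := C.coef h1
  obtain ⟨s2, t2, hs2, hs2', ht2, ht2', hrel2⟩ := C.coef h2
  have bound : ∀ a b c : ℤ, |a| ≤ N → |b| ≤ N → |c| ≤ N → |a * b * c| ≤ (N : ℤ) ^ 3 := by
    intro a b c ha hb hc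
    rw [abs_mul, abs_mul, pow_succ, pow_two]
    exact mul_le_mul (mul_le_mul ha hb (abs_nonneg _) (by positivity)) hc (abs_nonneg _)
      (by positivity)
  apply hbad
  refine C.rel_of_pair hq hmq (show j < m by omega) hj (by omega) (u * t2 * s) (v * t * s2)
    (Or.inl ?_) (bound _ _ _ hu' ?_ ?_) (bound _ _ _ hv' ?_ ?_) ?_
  · exact mul_ne_zero (mul_ne_zero hu (by omega)) (by omega)
  · rw [abs_of_nonneg (by omega)]; omega
  · rw [abs_of_nonneg (by omega)]; omega
  · rw [abs_of_nonneg (by omega)]; omega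
  · rw [abs_of_nonneg (by omega)]; omega
  · intro φ hφ
    have e1 := hrel φ hφ
    have e2 := hrel2 φ hφ
    have e3 := h φ hφ
    push_cast
    linear_combination (u * t2 : ℚ) * e1 + (v * t : ℚ) * e2 - (t * t2 : ℚ) * e3

/-- relation in a block between positions of different parity from a mixed internal pair, or of
equal parity -/
theorem inner_rel {q' : ℕ} (hq' : q' < NB) (hmq' : mark q') {a b : ℕ} (ha : a < m) (hb : b < m)
    (hor : a % 2 = b % 2 ∨ ∃ c d, c < m ∧ d < m ∧ c % 2 ≠ d % 2 ∧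
      PP K (q' * m + c) (q' * m + d)) :
    ∃ u v : ℤ, u ≠ 0 ∧ v ≠ 0 ∧ |u| ≤ N ∧ |v| ≤ N ∧
      ∀ φ, Ann K φ → (u : ℚ) * φ (q' * m + a) + (v : ℚ) * φ (q' * m + b) = 0 := by
  have hN := C.hN
  have hsg : ∀ p, ∃ z : ℤ, (z = 1 ∨ z = -1) ∧ sg m p = z := by
    intro p
    rcases sg_cases m p with h | h
    · exact ⟨1, Or.inl rfl, by simp [h]⟩
    · exact ⟨-1, Or.inr rfl, by simp [h]⟩
  obtain ⟨za, hza, hza'⟩ := hsg a
  obtain ⟨zb, hzb, hzb'⟩ := hsg b
  by_cases hab : a % 2 = b % 2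
  · refine ⟨1, -(za * zb), one_ne_zero, ?_, ?_, ?_, ?_⟩
    · rcases hza with rfl | rfl <;> rcases hzb with rfl | rfl <;> norm_num
    · simpa using hN
    · rcases hza with rfl | rfl <;> rcases hzb with rfl | rfl <;> simpa using hN
    · intro φ hφ
      rw [C.phi_eq hφ hq' hmq' ha hb hab, hza', hzb']
      push_cast; ring
  · obtain ⟨c, d, hc, hd, hcd, hP⟩ := hor.resolve_left hab
    obtain ⟨s, t, hs, hs', ht, ht', hrel⟩ := C.coef (Or.inl hP)
    obtain ⟨zc, hzc, hzc'⟩ := hsg c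
    obtain ⟨zd, hzd, hzd'⟩ := hsg d
    by_cases hac : a % 2 = c % 2
    · have hbd : b % 2 = d % 2 := by omega
      refine ⟨s * (zc * za), t * (zd * zb), ?_, ?_, ?_, ?_, ?_⟩
      · rcases hza with rfl | rfl <;> rcases hzc with rfl | rfl <;> simp <;> omega
      · rcases hzb with rfl | rfl <;> rcases hzd with rfl | rfl <;> simp <;> omega
      · rcases hza with rfl | rfl <;> rcases hzc with rfl | rfl <;> simp <;>
          rw [abs_of_nonneg (by omega)] <;> omega
      · rcases hzb with rfl | rfl <;> rcases hzd with rfl | rfl <;> simp <;>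
          rw [abs_of_nonneg (by omega)] <;> omega
      · intro φ hφ
        have e := hrel φ hφ
        rw [C.phi_eq hφ hq' hmq' hc ha hac.symm, C.phi_eq hφ hq' hmq' hd hb hbd.symm, hza', hzb',
          hzc', hzd'] at e
        push_cast
        linarith
    · have had : a % 2 = d % 2 := by omega
      have hbc : b % 2 = c % 2 := by omega
      refine ⟨t * (zd * za), s * (zc * zb), ?_, ?_, ?_, ?_, ?_⟩
      · rcases hza with rfl | rfl <;> rcases hzd with rfl | rfl <;> simp <;> omega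
      · rcases hzb with rfl | rfl <;> rcases hzc with rfl | rfl <;> simp <;> omega
      · rcases hza with rfl | rfl <;> rcases hzd with rfl | rfl <;> simp <;>
          rw [abs_of_nonneg (by omega)] <;> omega
      · rcases hzb with rfl | rfl <;> rcases hzc with rfl | rfl <;> simp <;>
          rw [abs_of_nonneg (by omega)] <;> omega
      · intro φ hφ
        have e := hrel φ hφ
        rw [C.phi_eq hφ hq' hmq' hc hb hbc.symm, C.phi_eq hφ hq' hmq' hd ha had.symm, hza', hzb',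
          hzc', hzd'] at e
        push_cast
        linarith

omit hq hmq hbad in
theorem exists_min_max {A : ℕ → Prop} {a : ℕ} (ha : A a) (hb : ∀ a, A a → a < m) :
    (∃ x, A x ∧ ∀ y, A y → x ≤ y) ∧ (∃ x, A x ∧ ∀ y, A y → y ≤ x) := by
  classical
  constructor
  · exact ⟨Nat.find ⟨a, ha⟩, Nat.find_spec ⟨a, ha⟩, fun y hy => Nat.find_min' _ hy⟩
  · refine ⟨Nat.findGreatest A m, Nat.findGreatest_spec (hb a ha).le ha, fun y hy => ?_⟩
    exact Nat.le_findGreatest (hb y hy).le hy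

theorem b7R {q' : ℕ} (hq' : q' < NB) (hmq' : mark q') (hqq : q < q') {j a b : ℕ} (hj1 : 1 ≤ j)
    (hj2 : j + 1 < m) (ha : a < m) (hb : b < m) (h1 : PP K (q * m + j) (q' * m + a))
    (h2 : PP K (q * m + (j + 1)) (q' * m + b)) : False := by
  classical
  have hQ : q * m + m ≤ q' * m := by
    have := Nat.mul_le_mul_right m (show q + 1 ≤ q' from hqq)
    rwa [add_mul, one_mul] at this
  obtain ⟨⟨a0, ha0, hmin⟩, _⟩ := C.exists_min_max (A := fun a => a < m ∧
    PP K (q * m + j) (q' * m + a)) (a := a) ⟨ha, h1⟩ (fun a h => h.1)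
  obtain ⟨_, ⟨b0, hb0, hmax⟩⟩ := C.exists_min_max (A := fun b => b < m ∧
    PP K (q * m + (j + 1)) (q' * m + b)) (a := b) ⟨hb, h2⟩ (fun a h => h.1)
  by_cases hor : a0 % 2 = b0 % 2 ∨ ∃ c d, c < m ∧ d < m ∧ c % 2 ≠ d % 2 ∧
      PP K (q' * m + c) (q' * m + d)
  · obtain ⟨u, v, hu, hv, hu', hv', hrel⟩ := C.inner_rel hq hmq hbad hq' hmq' ha0.1 hb0.1 hor
    exact C.combine hq hmq hbad hj2 (q' * m + b0) (q' * m + a0) (Or.inl ha0.2) (Or.inl hb0.2)
      u v hu hv hu' hv' hrel
  · push Not at hor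
    obtain ⟨hpar, hmix⟩ := hor
    obtain ⟨φ, hφ, hne⟩ := C.b0 hq hmq hbad hj2
    have hab : b0 < a0 := by
      have n5 := C.pnc ha0.2 hb0.2
      by_contra hcon
      have : b0 ≠ a0 := fun h => hpar (by rw [h])
      exact n5 ⟨by omega, by omega, by omega⟩
    let Y : Set ℕ := {i | (q * m + (j + 1) ≤ i ∧ i ≤ q' * m + b0) ∨
      (q' * m + b0 < i ∧ i < q' * m + a0 ∧ (i - q' * m) % 2 = b0 % 2)}
    have hY : ∀ i k, PP K i k → (i ∈ Y ↔ k ∈ Y) := by
      intro i k hik
      have n1 := C.pnc hik ha0.2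
      have n2 := C.pnc ha0.2 hik
      have n3 := C.pnc hik hb0.2
      have n4 := C.pnc hb0.2 hik
      have n5 := C.pnc ha0.2 hb0.2
      have l0 := hik.1
      have f1 : i = q * m + j → q' * m ≤ k → k < q' * m + m → a0 ≤ k - q' * m := by
        intro e1 e2 e3
        apply hmin
        refine ⟨by omega, ?_⟩
        rw [← e1, Nat.add_sub_cancel' e2]; exact hik
      have f2 : i = q * m + (j + 1) → q' * m ≤ k → k < q' * m + m → k - q' * m ≤ b0 := by
        intro e1 e2 e3
        apply hmax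
        refine ⟨by omega, ?_⟩
        rw [← e1, Nat.add_sub_cancel' e2]; exact hik
      have f3 : q' * m ≤ i → k < q' * m + m → (i - q' * m) % 2 = (k - q' * m) % 2 := by
        intro e1 e2
        by_contra hne
        refine hmix (i - q' * m) (k - q' * m) (by omega) (by omega) hne ?_
        rw [Nat.add_sub_cancel' e1, Nat.add_sub_cancel' (by omega)]; exact hik
      have f4 : ¬ (i = q * m + j ∧ k = q * m + (j + 1)) := by
        rintro ⟨rfl, rfl⟩
        exact C.b5 hq hmq hbad (by omega) hj2 hik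
      refine aux7 hQ ha0.1 hb0.1 hj2 hab l0 n1 n2 n3 n4 (fun h1 h2 h3 => by
        have := f1 h1 h2 h3; omega) (fun h1 h2 h3 => by have := f2 h1 h2 h3; omega)
        (fun h1 h2 => by rw [f3 h1 h2]) f4 (fun h => by rw [h]; simp)
        (fun h => by rw [h]; simpa using hpar)
    have hφ' := C.restrict hY hφ
    obtain ⟨p, hp, hpp⟩ : ∃ p, p ≤ 1 ∧ (j + 1) % 2 = p % 2 := ⟨(j + 1) % 2, by omega, by omega⟩
    have := C.phi_eq hφ' hq hmq hj2 (show p < m by omega) hpp
    rw [if_pos, if_neg, mul_zero] at this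
    · exact hne this
    · simp only [Y, Set.mem_ofPred_eq]; omega
    · simp only [Y, Set.mem_ofPred_eq]; omega

theorem b7L {q' : ℕ} (hq' : q' < NB) (hmq' : mark q') (hqq : q' < q) {j a b : ℕ}
    (hj2 : j + 2 < m) (ha : a < m) (hb : b < m) (h1 : PP K (q' * m + a) (q * m + j))
    (h2 : PP K (q' * m + b) (q * m + (j + 1))) : False := by
  classical
  have hQ : q' * m + m ≤ q * m := by
    have := Nat.mul_le_mul_right m (show q' + 1 ≤ q from hqq)
    rwa [add_mul, one_mul] at this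
  obtain ⟨⟨a0, ha0, hmin⟩, _⟩ := C.exists_min_max (A := fun a => a < m ∧
    PP K (q' * m + a) (q * m + j)) (a := a) ⟨ha, h1⟩ (fun a h => h.1)
  obtain ⟨_, ⟨b0, hb0, hmax⟩⟩ := C.exists_min_max (A := fun b => b < m ∧
    PP K (q' * m + b) (q * m + (j + 1))) (a := b) ⟨hb, h2⟩ (fun a h => h.1)
  by_cases hor : a0 % 2 = b0 % 2 ∨ ∃ c d, c < m ∧ d < m ∧ c % 2 ≠ d % 2 ∧
      PP K (q' * m + c) (q' * m + d)
  · obtain ⟨u, v, hu, hv, hu', hv', hrel⟩ := C.inner_rel hq hmq hbad hq' hmq' ha0.1 hb0.1 hor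
    exact C.combine hq hmq hbad (by omega) (q' * m + b0) (q' * m + a0) (Or.inr ha0.2)
      (Or.inr hb0.2) u v hu hv hu' hv' hrel
  · push Not at hor
    obtain ⟨hpar, hmix⟩ := hor
    obtain ⟨φ, hφ, hne⟩ := C.b0 hq hmq hbad (show j < m by omega)
    have hab : b0 < a0 := by
      have n5 := C.pnc ha0.2 hb0.2
      by_contra hcon
      have : b0 ≠ a0 := fun h => hpar (by rw [h])
      exact n5 ⟨by omega, by omega, by omega⟩
    let Y : Set ℕ := {i | (q' * m + a0 ≤ i ∧ i ≤ q * m + j) ∨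
      (q' * m + b0 < i ∧ i < q' * m + a0 ∧ (i - q' * m) % 2 = a0 % 2)}
    have hY : ∀ i k, PP K i k → (i ∈ Y ↔ k ∈ Y) := by
      intro i k hik
      have n1 := C.pnc hik ha0.2
      have n2 := C.pnc ha0.2 hik
      have n3 := C.pnc hik hb0.2
      have n4 := C.pnc hb0.2 hik
      have n5 := C.pnc ha0.2 hb0.2
      have l0 := hik.1
      have f1 : k = q * m + j → q' * m ≤ i → i < q' * m + m → a0 ≤ i - q' * m := by
        intro e1 e2 e3
        apply hmin
        refine ⟨by omega, ?_⟩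
        rw [← e1, Nat.add_sub_cancel' e2]; exact hik
      have f2 : k = q * m + (j + 1) → q' * m ≤ i → i < q' * m + m → i - q' * m ≤ b0 := by
        intro e1 e2 e3
        apply hmax
        refine ⟨by omega, ?_⟩
        rw [← e1, Nat.add_sub_cancel' e2]; exact hik
      have f3 : q' * m ≤ i → k < q' * m + m → (i - q' * m) % 2 = (k - q' * m) % 2 := by
        intro e1 e2
        by_contra hne
        refine hmix (i - q' * m) (k - q' * m) (by omega) (by omega) hne ?_
        rw [Nat.add_sub_cancel' e1, Nat.add_sub_cancel' (by omega)]; exact hik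
      have f4 : ¬ (i = q * m + j ∧ k = q * m + (j + 1)) := by
        rintro ⟨rfl, rfl⟩
        exact C.b5 hq hmq hbad (by omega) (by omega) hik
      refine aux8 hQ ha0.1 hb0.1 hj2 hab l0 n1 n2 n3 n4 (fun h1 h2 h3 => by
        have := f1 h1 h2 h3; omega) (fun h1 h2 h3 => by have := f2 h1 h2 h3; omega)
        (fun h1 h2 => by rw [f3 h1 h2]) f4 (fun h => by rw [h]; simp)
        (fun h => by rw [h]; simpa using Ne.symm hpar)
    have hφ' := C.restrict hY hφ
    obtain ⟨p, hp1, hp2, hpp⟩ : ∃ p, j + 1 ≤ p ∧ p < m ∧ j % 2 = p % 2 := by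
      by_cases h : (m - 1) % 2 = j % 2
      · exact ⟨m - 1, by omega, by omega, by omega⟩
      · exact ⟨m - 2, by omega, by omega, by omega⟩
    have := C.phi_eq hφ' hq hmq (show j < m by omega) hp2 hpp
    have l1 := ha0.1
    rw [if_pos, if_neg, mul_zero] at this
    · exact hne this
    · simp only [Y, Set.mem_ofPred_eq]; omega
    · simp only [Y, Set.mem_ofPred_eq]; omega

end bad

theorem rel {q : ℕ} (hq : q < NB) (hmq : mark q) : C.Rel q := by
  by_contra hbad
  have hm := C.hm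
  have h6 : ∀ p, ∃ q' p', p < m → (q' < NB ∧ mark q' ∧ p' < m ∧ q' ≠ q ∧
    (PP K (q * m + p) (q' * m + p') ∨ PP K (q' * m + p') (q * m + p))) := by
    intro p
    by_cases hp : p < m
    · obtain ⟨q', p', h⟩ := C.b6 hq hmq hbad hp
      exact ⟨q', p', fun _ => h⟩
    · exact ⟨0, 0, fun h => absurd h hp⟩
  choose ν x h6 using h6
  have lt_of : ∀ q1 q2, q1 < q2 → q1 * m + m ≤ q2 * m := by
    intro q1 q2 h
    have := Nat.mul_le_mul_right m (show q1 + 1 ≤ q2 from h)
    rwa [add_mul, one_mul] at this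
  -- orientation
  have hor : ∀ p, p < m → (q < ν p ∧ PP K (q * m + p) (ν p * m + x p)) ∨
      (ν p < q ∧ PP K (ν p * m + x p) (q * m + p)) := by
    intro p hp
    obtain ⟨h1, h2, h3, h4, h5⟩ := h6 p hp
    rcases lt_or_gt_of_ne h4 with h | h
    · right
      refine ⟨h, h5.resolve_left ?_⟩
      intro hP
      have := hP.1
      have := lt_of _ _ h
      omega
    · left
      refine ⟨h, h5.resolve_right ?_⟩
      intro hP
      have := hP.1
      have := lt_of _ _ h
      omega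
  let u : ℕ → ℕ := fun p => if ν p < q then ν p + NB else ν p
  have hstep : ∀ j, 1 ≤ j → j + 2 < m → u (j + 1) < u j := by
    intro j hj1 hj2
    have a1 := h6 j (by omega)
    have a2 := h6 (j + 1) (by omega)
    have hne : ν j ≠ ν (j + 1) := by
      intro he
      rcases hor j (by omega) with ⟨g1, g2⟩ | ⟨g1, g2⟩
      · rcases hor (j + 1) (by omega) with ⟨g3, g4⟩ | ⟨g3, g4⟩
        · rw [← he] at g4
          exact C.b7R hq hmq hbad a1.1 a1.2.1 g1 hj1 (by omega) a1.2.2.1 a2.2.2.1 g2 g4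
        · omega
      · rcases hor (j + 1) (by omega) with ⟨g3, g4⟩ | ⟨g3, g4⟩
        · omega
        · rw [← he] at g4
          exact C.b7L hq hmq hbad a1.1 a1.2.1 g1 hj2 a1.2.2.1 a2.2.2.1 g2 g4
    have l1 := a1.2.2.1
    have l2 := a2.2.2.1
    have l3 := a1.1
    have l4 := a2.1
    have ur : ∀ p, q < ν p → u p = ν p := fun p hp => if_neg (by omega)
    have ul : ∀ p, ν p < q → u p = ν p + NB := fun p hp => if_pos hp
    clear h6
    rcases hor j (by omega) with ⟨g1, g2⟩ | ⟨g1, g2⟩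
    · rcases hor (j + 1) (by omega) with ⟨g3, g4⟩ | ⟨g3, g4⟩
      · rw [ur _ g1, ur _ g3]
        have n := C.pnc g2 g4
        by_contra hcon
        have h1 := lt_of (ν j) (ν (j + 1)) (by omega)
        have h2 := lt_of _ _ g1
        apply n
        omega
      · exfalso
        have n := C.pnc g4 g2
        have h1 := lt_of _ _ g1
        have h2 := lt_of _ _ g3
        apply n
        omega
    · rcases hor (j + 1) (by omega) with ⟨g3, g4⟩ | ⟨g3, g4⟩
      · rw [ul _ g1, ur _ g3]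
        omega
      · rw [ul _ g1, ul _ g3]
        have n := C.pnc g2 g4
        by_contra hcon
        have h1 := lt_of (ν j) (ν (j + 1)) (by omega)
        have h2 := lt_of _ _ g3
        apply n
        omega
  have hsum : ∀ k, k + 2 < m → u (1 + k) + k ≤ u 1 := by
    intro k
    induction k with
    | zero => intro _; simp
    | succ k ih =>
      intro hk
      have := ih (by omega)
      have := hstep (1 + k) (by omega) (by omega)
      have e : 1 + (k + 1) = 1 + k + 1 := by ring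
      rw [e]
      omega
  have hfin := hsum (m - 3) (by omega)
  have b1 : u 1 < NB + q := by
    have a1 := h6 1 (by omega)
    simp only [u]
    split_ifs <;> omega
  have b2 : q < u (1 + (m - 3)) := by
    have a1 := h6 (1 + (m - 3)) (by omega)
    simp only [u]
    split_ifs <;> omega
  omega

end Cfg

end Pool.Agent.Helper59.PCF
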