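import Mathlib
import Pool.Agent.Helper59.PCF.Slopes

set_option autoImplicit false

namespace Pool.Agent.Helper59.PCF

open Filter

def TT (t : ℕ) : ℕ := (t * t.factorial) ^ 2

theorem poly_growth (ω : Ultrafilter ℕ) (hω : (ω : Filter ℕ) ≤ atTop) (R : ℕ) (a : ℕ → ℚ) (C : ℚ)
    (h : ∀ᶠ t in (ω : Filter ℕ), |∑ r ∈ Finset.range R, a r * (TT t : ℚ) ^ (1 + r)| ≤
      C * (t * t.factorial : ℕ)) : ∀ r < R, a r = 0 := by
  classical
  set Q : Polynomial ℚ := ∑ r ∈ Finset.range R, Polynomial.C (a r) * Polynomial.X ^ r with hQ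
  have hcoef : ∀ r < R, Q.coeff r = a r := by
    intro r hr
    rw [hQ, Polynomial.finsetSum_coeff]
    simp [Polynomial.coeff_X_pow, hr]
  suffices hQ0 : Q = 0 by
    intro r hr
    rw [← hcoef r hr, hQ0, Polynomial.coeff_zero]
  by_contra hne
  set W : Polynomial ℚ := Polynomial.X * Polynomial.expand ℚ 2 Q with hW
  have hexp : Polynomial.expand ℚ 2 Q ≠ 0 := by
    rwa [Ne, Polynomial.expand_eq_zero (by norm_num)]
  have hdeg : 0 < W.degree := by
    rw [hW, Polynomial.degree_mul, Polynomial.degree_X]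
    have : 0 ≤ (Polynomial.expand ℚ 2 Q).degree := Polynomial.zero_le_degree_iff.mpr hexp
    calc (0 : WithBot ℕ) < 1 := by norm_num
      _ = 1 + 0 := by simp
      _ ≤ _ := by gcongr
  have htend := Polynomial.abs_tendsto_atTop W hdeg
  have hs : Tendsto (fun t : ℕ => ((t * t.factorial : ℕ) : ℚ)) (ω : Filter ℕ) atTop := by
    apply Tendsto.comp (tendsto_natCast_atTop_atTop) 
    apply Tendsto.mono_left _ hω
    apply tendsto_atTop_mono _ tendsto_id
    intro n
    exact Nat.le_mul_of_pos_right _ n.factorial_pos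
  have h2 := htend.comp hs
  have h3 := h2.eventually_gt_atTop C
  have h4 : ∀ᶠ t : ℕ in (ω : Filter ℕ), 1 ≤ t := hω (eventually_ge_atTop 1)
  obtain ⟨t, ht, ht3, ht4⟩ := (h.and (h3.and h4)).exists
  simp only [Function.comp] at ht3
  set s : ℚ := ((t * t.factorial : ℕ) : ℚ) with hsdef
  have hspos : 0 < s := by
    rw [hsdef]; exact_mod_cast Nat.mul_pos (by omega) t.factorial_pos
  have hT : (TT t : ℚ) = s ^ 2 := by rw [TT, hsdef]; push_cast; ring
  have e1 : ∑ r ∈ Finset.range R, a r * (TT t : ℚ) ^ (1 + r) = s * W.eval s := by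
    rw [hW, Polynomial.eval_mul, Polynomial.eval_X, Polynomial.expand_eval, hQ,
      Polynomial.eval_finsetSum, ← mul_assoc, Finset.mul_sum]
    apply Finset.sum_congr rfl
    intro r _
    rw [hT]
    simp
    ring
  rw [e1, abs_mul, abs_of_pos hspos, mul_comm C] at ht
  have := le_of_mul_le_mul_left ht hspos
  linarith

theorem closure_coef (F : Finset Edge) (y : ℕ → ℕ)
    (hy : y ∈ AddSubmonoid.closure (evec '' (F : Set Edge))) :
    ∃ c : Edge → ℕ, y = ∑ e ∈ F, c e • evec e := by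
  classical
  induction hy using AddSubmonoid.closure_induction with
  | mem y hy =>
    obtain ⟨e, he, rfl⟩ := hy
    exact ⟨Pi.single e 1, by
      rw [Finset.sum_eq_single e]
      · simp
      · intro b _ hb; simp [Pi.single_apply, hb]
      · intro h; exact absurd he h⟩
  | zero => exact ⟨0, by simp⟩
  | add a b _ _ ha hb =>
    obtain ⟨c, rfl⟩ := ha
    obtain ⟨c', rfl⟩ := hb
    exact ⟨c + c', by simp [add_smul, Finset.sum_add_distrib]⟩

/-- rational version of the edge vectors -/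
def eQ (e : Edge) : ℕ → ℚ := Pi.single e.1 (e.2.2.1 : ℚ) + Pi.single e.2.1 (e.2.2.2 : ℚ)

theorem evec_cast (e : Edge) (r : ℕ) : ((evec e r : ℕ) : ℚ) = eQ e r := by
  simp only [evec, emb, eQ, AddMonoidHom.coe_mk, ZeroHom.coe_mk, Pi.add_apply, Pi.single_apply]
  push_cast
  rfl

/-- rational span criterion -/
theorem mem_span_of_ann (K : Set Edge) (v : ℕ → ℚ) (F : Finset ℕ) (a : ℕ → ℚ)
    (hv : v = ∑ i ∈ F, Pi.single i (a i))
    (h : ∀ φ : ℕ → ℚ, Ann K φ → ∑ i ∈ F, a i * φ i = 0) : v ∈ Submodule.span ℚ (eQ '' K) := by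
  by_contra hcon
  obtain ⟨f, hf, hker⟩ := Submodule.exists_le_ker_of_notMem hcon
  apply hf
  have hs : ∀ i (x : ℚ), f (Pi.single i x) = x * f (Pi.single i 1) := by
    intro i x
    have : (Pi.single i x : ℕ → ℚ) = x • Pi.single i 1 := by
      rw [← Pi.single_smul]; simp
    rw [this, map_smul, smul_eq_mul]
  have hann : Ann K (fun i => f (Pi.single i 1)) := by
    intro e he
    have h1 : f (eQ e) = 0 := hker (Submodule.subset_span ⟨e, he, rfl⟩)
    rw [eQ, map_add, hs, hs _ (e.2.2.2 : ℚ)] at h1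
    exact h1
  rw [hv, map_sum]
  rw [← h _ hann]
  exact Finset.sum_congr rfl fun i _ => hs i (a i)

/-- integrality -/
theorem int_of_span (F : Finset Edge) (v : ℕ → ℚ)
    (hv : v ∈ Submodule.span ℚ (eQ '' (F : Set Edge))) :
    ∃ (n0 : ℕ) (d : Edge → ℤ), 0 < n0 ∧ ∀ r, (n0 : ℚ) * v r = ∑ e ∈ F, (d e : ℚ) * eQ e r := by
  classical
  induction hv using Submodule.span_induction with
  | mem y hy =>
    obtain ⟨e, he, rfl⟩ := hy
    refine ⟨1, Pi.single e 1, one_pos, fun r => ?_⟩
    rw [Finset.sum_eq_single e]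
    · simp
    · intro b _ hb; simp [Pi.single_apply, hb]
    · intro h; exact absurd he h
  | zero => exact ⟨1, 0, one_pos, fun r => by simp⟩
  | add a b _ _ ha hb =>
    obtain ⟨n, d, hn, h⟩ := ha
    obtain ⟨n', d', hn', h'⟩ := hb
    refine ⟨n * n', fun e => n' * d e + n * d' e, Nat.mul_pos hn hn', fun r => ?_⟩
    have h1 := h r
    have h2 := h' r
    calc ((n * n' : ℕ) : ℚ) * (a + b) r = n' * (n * a r) + n * (n' * b r) := by
          push_cast; simp only [Pi.add_apply]; ring
      _ = _ := by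
          rw [h1, h2, Finset.mul_sum, Finset.mul_sum, ← Finset.sum_add_distrib]
          exact Finset.sum_congr rfl fun e _ => by push_cast; ring
  | smul q a _ ha =>
    obtain ⟨n, d, hn, h⟩ := ha
    refine ⟨q.den * n, fun e => q.num * d e, Nat.mul_pos q.den_pos hn, fun r => ?_⟩
    have h1 := h r
    have hq : (q.den : ℚ) * q = q.num := by rw [mul_comm]; exact Rat.mul_den_eq_num q
    calc ((q.den * n : ℕ) : ℚ) * (q • a) r = (q.den * q) * (n * a r) := by
          push_cast; simp only [Pi.smul_apply, smul_eq_mul]; ring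
      _ = _ := by
          rw [h1, hq, Finset.mul_sum]
          exact Finset.sum_congr rfl fun e _ => by push_cast; ring

end Pool.Agent.Helper59.PCF
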