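import Mathlib
import Pool.Agent.Helper59.PCF.Growth

set_option autoImplicit false

namespace Pool.Agent.Helper59.PCF

open Filter

/-- closed part -/
def clo (m t r : ℕ) : ℕ :=
  if r % m < m - 2 then TT t ^ (1 + r)
  else ∑ p ∈ Finset.range (m - 2), if p % 2 = (r % m) % 2 then TT t ^ (1 + (r / m * m + p)) else 0

theorem sum_blocks (m NB : ℕ) (g : ℕ → ℚ) : ∑ r ∈ Finset.range (NB * m), g r =
    ∑ q ∈ Finset.range NB, ∑ p ∈ Finset.range m, g (q * m + p) := by
  induction NB with
  | zero => simp
  | succ k ih => rw [add_mul, one_mul, Finset.sum_range_add, ih, Finset.sum_range_succ]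

/-- the representative of a parity class among the last two positions -/
def star (m p : ℕ) : ℕ := if (m - 2) % 2 = p % 2 then m - 2 else m - 1

theorem blockdiv {m q p : ℕ} (hp : p < m) : (q * m + p) / m = q := by
  rw [Nat.div_eq_iff (by omega)]
  constructor <;> omega

theorem blockmod {m q p : ℕ} (hp : p < m) : (q * m + p) % m = p := by
  rw [Nat.mul_add_mod_self_right, Nat.mod_eq_of_lt hp]

/-- the coefficient of the growth polynomial -/
noncomputable def cf (m : ℕ) (mark : ℕ → Prop) (φ : ℕ → ℚ) (r : ℕ) : ℚ :=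
  open Classical in
  if mark (r / m) ∧ r % m < m - 2 then φ r + φ (r / m * m + star m (r % m)) else 0

open Classical in
theorem sum_clo (m NB : ℕ) (hm : 5 ≤ m) (mark : ℕ → Prop) (φ : ℕ → ℚ) (t : ℕ) :
    ∑ r ∈ Finset.range (NB * m), φ r * (if mark (r / m) then (clo m t r : ℚ) else 0) =
      ∑ r ∈ Finset.range (NB * m), cf m mark φ r * (TT t : ℚ) ^ (1 + r) := by
  rw [sum_blocks, sum_blocks]
  apply Finset.sum_congr rfl
  intro q _
  obtain ⟨m', rfl⟩ : ∃ m', m = m' + 2 := ⟨m - 2, by omega⟩
  rw [Finset.sum_range_succ, Finset.sum_range_succ, Finset.sum_range_succ _ (m' + 1),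
    Finset.sum_range_succ _ m']
  by_cases hq : mark q
  · have e1 : ∀ p, p < m' → φ (q * (m' + 2) + p) * (if mark ((q * (m' + 2) + p) / (m' + 2)) then
        (clo (m' + 2) t (q * (m' + 2) + p) : ℚ) else 0) =
        φ (q * (m' + 2) + p) * (TT t : ℚ) ^ (1 + (q * (m' + 2) + p)) := by
      intro p hp
      rw [blockdiv (by omega), if_pos hq, clo, blockmod (by omega), if_pos (by omega)]
      push_cast; rfl
    have e2 : ∀ p, p < m' → cf (m' + 2) mark φ (q * (m' + 2) + p) *
        (TT t : ℚ) ^ (1 + (q * (m' + 2) + p)) = (φ (q * (m' + 2) + p) +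
          φ (q * (m' + 2) + star (m' + 2) p)) * (TT t : ℚ) ^ (1 + (q * (m' + 2) + p)) := by
      intro p hp
      rw [cf, blockdiv (by omega), blockmod (by omega), if_pos ⟨hq, by omega⟩]
    have e3 : ∀ p, m' ≤ p → p < m' + 2 → φ (q * (m' + 2) + p) *
        (if mark ((q * (m' + 2) + p) / (m' + 2)) then
        (clo (m' + 2) t (q * (m' + 2) + p) : ℚ) else 0) =
        ∑ x ∈ Finset.range m', φ (q * (m' + 2) + p) *
          (if x % 2 = p % 2 then (TT t : ℚ) ^ (1 + (q * (m' + 2) + x)) else 0) := by
      intro p hp hp'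
      rw [blockdiv (by omega), if_pos hq, clo, blockmod (by omega), if_neg (by omega),
        blockdiv (by omega), ← Finset.mul_sum]
      push_cast
      simp
    have e4 : ∀ p, m' ≤ p → p < m' + 2 → cf (m' + 2) mark φ (q * (m' + 2) + p) *
        (TT t : ℚ) ^ (1 + (q * (m' + 2) + p)) = 0 := by
      intro p hp hp'
      rw [cf, blockdiv (by omega), blockmod (by omega), if_neg (by omega), zero_mul]
    rw [Finset.sum_congr rfl (fun p hp => e1 p (Finset.mem_range.mp hp)),
      Finset.sum_congr rfl (fun p hp => e2 p (Finset.mem_range.mp hp)),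
      e3 m' le_rfl (by omega), e3 (m' + 1) (by omega) (by omega), e4 m' le_rfl (by omega),
      e4 (m' + 1) (by omega) (by omega), add_zero, add_zero, ← Finset.sum_add_distrib,
      ← Finset.sum_add_distrib]
    apply Finset.sum_congr rfl
    intro p hp
    have hp' := Finset.mem_range.mp hp
    unfold star
    rw [show m' + 2 - 2 = m' by omega, show m' + 2 - 1 = m' + 1 by omega]
    by_cases h : m' % 2 = p % 2
    · rw [if_pos h, if_pos (by omega), if_neg (by omega)]; ring
    · rw [if_neg h, if_neg (by omega), if_pos (by omega)]; ring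
  · have e1 : ∀ p, p < m' + 2 → φ (q * (m' + 2) + p) * (if mark ((q * (m' + 2) + p) / (m' + 2)) then
        (clo (m' + 2) t (q * (m' + 2) + p) : ℚ) else 0) = 0 := by
      intro p hp
      rw [blockdiv (by omega), if_neg hq, mul_zero]
    have e2 : ∀ p, p < m' + 2 → cf (m' + 2) mark φ (q * (m' + 2) + p) *
        (TT t : ℚ) ^ (1 + (q * (m' + 2) + p)) = 0 := by
      intro p hp
      rw [cf, blockdiv (by omega), if_neg (by tauto), zero_mul]
    rw [Finset.sum_congr rfl (fun p hp => e1 p (by have := Finset.mem_range.mp hp; omega)),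
      Finset.sum_congr rfl (fun p hp => e2 p (by have := Finset.mem_range.mp hp; omega)),
      e1 m' (by omega), e1 (m' + 1) (by omega), e2 m' (by omega), e2 (m' + 1) (by omega)]

theorem sum_single_eq (R : ℕ) (φ : ℕ → ℚ) (e : Edge) (h1 : e.1 < R) (h2 : e.2.1 < R) :
    ∑ r ∈ Finset.range R, φ r * eQ e r = (e.2.2.1 : ℚ) * φ e.1 + (e.2.2.2 : ℚ) * φ e.2.1 := by
  simp only [eQ, Pi.add_apply, mul_add, Finset.sum_add_distrib]
  congr 1
  · rw [Finset.sum_eq_single e.1]
    · simp; ring
    · intro b _ hb; simp [hb]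
    · intro h; exact absurd (Finset.mem_range.mpr h1) h
  · rw [Finset.sum_eq_single e.2.1]
    · simp; ring
    · intro b _ hb; simp [hb]
    · intro h; exact absurd (Finset.mem_range.mpr h2) h

open Classical in
/-- The limiting configuration of a sequence of words. -/
theorem limit_cfg {α : Type} (S : Sys α) (D : PData S) (ℓ : ℕ → α) (X : S.Q)
    (N : ℕ) (hN1 : 1 ≤ N) (hN : ∀ p ∈ D.PP, p.1 ≤ N ∧ p.2 ≤ N)
    (ω : Ultrafilter ℕ) (hω : (ω : Filter ℕ) ≤ atTop)
    (NB m : ℕ) (hNB : 0 < NB) (hm : NB + 5 ≤ m) (mark : ℕ → Prop) (n : ℕ → ℕ → ℕ) (cst : ℕ → ℕ)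
    (u : ℕ → ℤ)
    (hn : ∀ᶠ t in (ω : Filter ℕ), ∀ r < NB * m, (n t r : ℤ) =
      (if mark (r / m) then (clo m t r : ℤ) + t.factorial * u r else cst r))
    (hn0 : ∀ t r, NB * m ≤ r → n t r = 0)
    (hY : ∀ᶠ t in (ω : Filter ℕ), Yld S X (WW ℓ (NB * m) (n t))) :
    ∃ K : Set Edge, Cfg m NB N mark K ∧ ∀ z : ℕ → ℤ,
      (fun r => (z r : ℚ)) ∈ Submodule.span ℚ (eQ '' K) →
      ∀ᶠ t in (ω : Filter ℕ), ∀ n' : ℕ → ℕ, (∀ r, (n' r : ℤ) = n t r + t.factorial * z r) →
        Yld S X (WW ℓ (NB * m) n') := by
  have hR : 0 < NB * m := Nat.mul_pos hNB (by omega)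
  obtain ⟨T, hT1, hT2, hT3⟩ := gs S ℓ (NB * m) D (NB * m - 1) 0 (NB * m - 1) (by omega) (by omega)
    (by omega) X
  have h1 : ∀ᶠ t in (ω : Filter ℕ), ∃ P ∈ T, InP P.1 P.2 (n t) := by
    filter_upwards [hY] with t ht
    exact hT3 (n t) (fun p hp => hn0 t p (by omega)) ht
  rw [Ultrafilter.eventually_exists_mem_iff hT1] at h1
  obtain ⟨P, hP, h1⟩ := h1
  have hG := hT2 P hP
  set F : Finset Edge := hG.fin.toFinset with hF
  have hFK : (F : Set Edge) = P.2 := hG.fin.coe_toFinset
  have h2 : ∀ t, ∃ c : Edge → ℕ, InP P.1 P.2 (n t) → n t = P.1 + ∑ e ∈ F, c e • evec e := by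
    intro t
    by_cases h : InP P.1 P.2 (n t)
    · obtain ⟨y, hy, hy'⟩ := h
      rw [← hFK] at hy
      obtain ⟨c, hc⟩ := closure_coef F y hy
      exact ⟨c, fun _ => by rw [← hc]; exact hy'⟩
    · exact ⟨0, fun h' => absurd h' h⟩
  choose c hc using h2
  have h3 : ∀ᶠ t in (ω : Filter ℕ), n t = P.1 + ∑ e ∈ F, c t e • evec e := by
    filter_upwards [h1] with t ht using hc t ht
  have h3' : ∀ᶠ t in (ω : Filter ℕ), ∀ r, n t r = P.1 r + ∑ e ∈ F, c t e * evec e r := by
    filter_upwards [h3] with t ht r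
    conv_lhs => rw [ht]
    simp [Finset.sum_apply]
  let big : Edge → Prop := fun e => ∀ᶠ t in (ω : Filter ℕ), t * t.factorial ≤ c t e
  have hedge : ∀ e ∈ F, e.1 ≤ e.2.1 ∧ e.2.1 < NB * m ∧ e.2.2 ∈ D.PP := by
    intro e he
    have := hG.edge e (by rw [← hFK]; exact he)
    exact ⟨this.2.1, by omega, this.2.2.2⟩
  refine ⟨{e | e ∈ F ∧ big e}, ⟨hm, ?_, ?_, ?_, ?_, ?_, hN1⟩, ?_⟩
  · -- touch1
    rintro e ⟨he, hb⟩ hs
    have hR' := hedge e he
    have hlt : e.1 < NB * m := by omega
    refine ⟨e.1 / m, e.1 % m, Nat.div_lt_of_lt_mul (by rw [mul_comm]; exact hlt), ?_,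
      Nat.mod_lt _ (by omega), (Nat.div_add_mod' _ _).symm⟩
    by_contra hnm
    obtain ⟨t, ht1, ht2, ht3, ht4⟩ := (hn.and (h3'.and (hb.and
      (hω (eventually_ge_atTop (cst e.1 + 1)))))).exists
    have g1 := ht1 e.1 hlt
    rw [if_neg hnm] at g1
    have g1' : n t e.1 = cst e.1 := by exact_mod_cast g1
    have g2 := ht2 e.1
    have g3 : c t e * evec e e.1 ≤ ∑ e' ∈ F, c t e' * evec e' e.1 :=
      Finset.single_le_sum (f := fun e' => c t e' * evec e' e.1) (fun _ _ => Nat.zero_le _) he
    have g4 : 1 ≤ evec e e.1 := by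
      simp only [evec, emb, AddMonoidHom.coe_mk, ZeroHom.coe_mk, Pi.add_apply, Pi.single_apply]
      simp; omega
    have g5 : c t e * 1 ≤ c t e * evec e e.1 := Nat.mul_le_mul_left _ g4
    have g6 : t ≤ t * t.factorial := Nat.le_mul_of_pos_right _ t.factorial_pos
    omega
  · -- touch2
    rintro e ⟨he, hb⟩ hs
    have hR' := hedge e he
    have hlt : e.2.1 < NB * m := by omega
    refine ⟨e.2.1 / m, e.2.1 % m, Nat.div_lt_of_lt_mul (by rw [mul_comm]; exact hlt), ?_,
      Nat.mod_lt _ (by omega), (Nat.div_add_mod' _ _).symm⟩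
    by_contra hnm
    obtain ⟨t, ht1, ht2, ht3, ht4⟩ := (hn.and (h3'.and (hb.and
      (hω (eventually_ge_atTop (cst e.2.1 + 1)))))).exists
    have g1 := ht1 e.2.1 hlt
    rw [if_neg hnm] at g1
    have g1' : n t e.2.1 = cst e.2.1 := by exact_mod_cast g1
    have g2 := ht2 e.2.1
    have g3 : c t e * evec e e.2.1 ≤ ∑ e' ∈ F, c t e' * evec e' e.2.1 :=
      Finset.single_le_sum (f := fun e' => c t e' * evec e' e.2.1) (fun _ _ => Nat.zero_le _) he
    have g4 : 1 ≤ evec e e.2.1 := by
      simp only [evec, emb, AddMonoidHom.coe_mk, ZeroHom.coe_mk, Pi.add_apply, Pi.single_apply]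
      simp; omega
    have g5 : c t e * 1 ≤ c t e * evec e e.2.1 := Nat.mul_le_mul_left _ g4
    have g6 : t ≤ t * t.factorial := Nat.le_mul_of_pos_right _ t.factorial_pos
    omega
  · -- block principle
    intro φ hφ
    -- the small coefficients
    have hsmall : ∀ᶠ t in (ω : Filter ℕ), ∀ e ∈ F, ¬ big e → c t e < t * t.factorial := by
      rw [Finset.eventually_all]
      intro e _
      by_cases hb : big e
      · exact Eventually.of_forall fun t h => absurd hb h
      · have : ∀ᶠ t in (ω : Filter ℕ), ¬ (t * t.factorial ≤ c t e) :=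
          Ultrafilter.eventually_not.mpr hb
        filter_upwards [this] with t ht _
        omega
    set w : Edge → ℚ := fun e => (e.2.2.1 : ℚ) * φ e.1 + (e.2.2.2 : ℚ) * φ e.2.1 with hw
    have hpg : ∀ r < NB * m, cf m mark φ r = 0 := by
      apply poly_growth ω hω (NB * m) (cf m mark φ)
        ((∑ r ∈ Finset.range (NB * m), |φ r * (P.1 r : ℚ)|) + (∑ e ∈ F, |w e|) +
          (∑ r ∈ Finset.range (NB * m), |φ r * (u r : ℚ)|) +
          (∑ r ∈ Finset.range (NB * m), |φ r * (cst r : ℚ)|))
      filter_upwards [hn, h3', hsmall, hω (eventually_ge_atTop 1)] with t ht1 ht2 ht3 ht4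
      set s : ℚ := ((t * t.factorial : ℕ) : ℚ) with hs
      have hfpos : (0 : ℚ) < t.factorial := by exact_mod_cast t.factorial_pos
      have hf1 : (1 : ℚ) ≤ t.factorial := by exact_mod_cast t.factorial_pos
      have ht1' : (1 : ℚ) ≤ t := by exact_mod_cast ht4
      have hfs : (t.factorial : ℚ) ≤ s := by
        rw [hs]; push_cast
        nlinarith
      have hs1 : (1 : ℚ) ≤ s := le_trans hf1 hfs
      -- compute the pairing in two ways
      have c1 : ∑ r ∈ Finset.range (NB * m), φ r * (n t r : ℚ) =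
          (∑ r ∈ Finset.range (NB * m), cf m mark φ r * (TT t : ℚ) ^ (1 + r)) +
          (∑ r ∈ Finset.range (NB * m), φ r * (if mark (r / m) then (t.factorial : ℚ) * u r
            else cst r)) := by
        rw [← sum_clo m NB (by omega), ← Finset.sum_add_distrib]
        apply Finset.sum_congr rfl
        intro r hr
        have := ht1 r (Finset.mem_range.mp hr)
        have h' : (n t r : ℚ) = if mark (r / m) then (clo m t r : ℚ) + t.factorial * u r
            else cst r := by
          have e : (n t r : ℚ) = ((n t r : ℤ) : ℚ) := by simp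
          rw [e, this]
          split_ifs <;> simp
        rw [h']
        split_ifs <;> ring
      have c2 : ∑ r ∈ Finset.range (NB * m), φ r * (n t r : ℚ) =
          (∑ r ∈ Finset.range (NB * m), φ r * (P.1 r : ℚ)) + ∑ e ∈ F, (c t e : ℚ) * w e := by
        have e1 : ∀ e ∈ F, (c t e : ℚ) * w e =
            ∑ r ∈ Finset.range (NB * m), φ r * ((c t e : ℚ) * (evec e r : ℚ)) := by
          intro e he
          have := hedge e he
          rw [hw]
          simp only
          rw [← sum_single_eq (NB * m) φ e (by omega) (by omega), Finset.mul_sum]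
          apply Finset.sum_congr rfl
          intro r _
          rw [evec_cast]; ring
        rw [Finset.sum_congr rfl e1, Finset.sum_comm, ← Finset.sum_add_distrib]
        apply Finset.sum_congr rfl
        intro r _
        rw [ht2 r, ← Finset.mul_sum]
        push_cast
        ring
      have c3 : ∑ r ∈ Finset.range (NB * m), cf m mark φ r * (TT t : ℚ) ^ (1 + r) =
          (∑ r ∈ Finset.range (NB * m), φ r * (P.1 r : ℚ)) + (∑ e ∈ F, (c t e : ℚ) * w e) -
          (∑ r ∈ Finset.range (NB * m), φ r * (if mark (r / m) then (t.factorial : ℚ) * u r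
            else cst r)) := by linarith
      rw [c3]
      have d1 : |∑ r ∈ Finset.range (NB * m), φ r * (P.1 r : ℚ)| ≤
          (∑ r ∈ Finset.range (NB * m), |φ r * (P.1 r : ℚ)|) * s := by
        refine (Finset.abs_sum_le_sum_abs _ _).trans ?_
        exact le_mul_of_one_le_right (Finset.sum_nonneg fun _ _ => abs_nonneg _) hs1
      have d2 : |∑ e ∈ F, (c t e : ℚ) * w e| ≤ (∑ e ∈ F, |w e|) * s := by
        refine (Finset.abs_sum_le_sum_abs _ _).trans ?_
        rw [Finset.sum_mul]
        apply Finset.sum_le_sum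
        intro e he
        by_cases hb : big e
        · have : w e = 0 := hφ e ⟨he, hb⟩
          rw [this]; simp
        · have h1 := ht3 e he hb
          have h2 : (c t e : ℚ) ≤ s := by rw [hs]; exact_mod_cast h1.le
          rw [abs_mul, abs_of_nonneg (by positivity : (0:ℚ) ≤ c t e), mul_comm]
          exact mul_le_mul_of_nonneg_left h2 (abs_nonneg _)
      have d3 : |∑ r ∈ Finset.range (NB * m), φ r * (if mark (r / m) then (t.factorial : ℚ) * u r
            else cst r)| ≤ (∑ r ∈ Finset.range (NB * m), |φ r * (u r : ℚ)|) * s +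
            (∑ r ∈ Finset.range (NB * m), |φ r * (cst r : ℚ)|) * s := by
        refine (Finset.abs_sum_le_sum_abs _ _).trans ?_
        rw [← add_mul, ← Finset.sum_add_distrib, Finset.sum_mul]
        apply Finset.sum_le_sum
        intro r _
        split_ifs with hmk
        · have : |φ r * ((t.factorial : ℚ) * u r)| = |φ r * (u r : ℚ)| * t.factorial := by
            rw [abs_mul, abs_mul, abs_mul, abs_of_pos hfpos]; ring
          rw [this]
          have g1 : |φ r * (u r : ℚ)| * t.factorial ≤ |φ r * (u r : ℚ)| * s :=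
            mul_le_mul_of_nonneg_left hfs (abs_nonneg _)
          have g2 : 0 ≤ |φ r * (cst r : ℚ)| * s := by positivity
          linarith
        · have g1 : |φ r * (cst r : ℚ)| * 1 ≤ |φ r * (cst r : ℚ)| * s :=
            mul_le_mul_of_nonneg_left hs1 (abs_nonneg _)
          have g2 : 0 ≤ |φ r * (u r : ℚ)| * s := by positivity
          linarith
      have d4 := abs_sub ((∑ r ∈ Finset.range (NB * m), φ r * (P.1 r : ℚ)) +
        (∑ e ∈ F, (c t e : ℚ) * w e)) (∑ r ∈ Finset.range (NB * m), φ r *
          (if mark (r / m) then (t.factorial : ℚ) * u r else cst r))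
      have d5 := abs_add_le (∑ r ∈ Finset.range (NB * m), φ r * (P.1 r : ℚ))
        (∑ e ∈ F, (c t e : ℚ) * w e)
      linarith
    -- conclusion
    intro q hq hmq
    have key : ∀ p, p < m → sg m p * φ (q * m + p) = - φ (q * m + star m p) := by
      intro p hp
      by_cases hp2 : p < m - 2
      · have hr : q * m + p < NB * m := by
          calc q * m + p < q * m + m := by omega
            _ = (q + 1) * m := by ring
            _ ≤ NB * m := Nat.mul_le_mul_right m hq
        have := hpg (q * m + p) hr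
        rw [cf, blockdiv hp, blockmod hp, if_pos ⟨hmq, hp2⟩] at this
        unfold sg
        rw [if_pos hp2]
        linarith
      · have hst : star m p = p := by
          unfold star
          split_ifs <;> omega
        unfold sg
        rw [if_neg hp2, hst]
        ring
    intro p p' hp hp' hpp
    rw [key p hp, key p' hp']
    have : star m p = star m p' := by unfold star; rw [hpp]
    rw [this]
  · rintro e ⟨he, _⟩ e' ⟨he', _⟩
    exact hG.nc e (by rw [← hFK]; exact he) e' (by rw [← hFK]; exact he')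
  · rintro e ⟨he, _⟩
    have := hedge e he
    have := hN _ this.2.2
    exact ⟨(hedge e he).1, this.1, this.2⟩
  · -- cone property
    intro z hz
    set F' : Finset Edge := F.filter big with hF'
    have hF'K : ({e | e ∈ F ∧ big e} : Set Edge) = (F' : Set Edge) := by
      ext e; simp [hF']
    rw [hF'K] at hz
    obtain ⟨n0, d, hn0', hd⟩ := int_of_span F' _ hz
    have hbig : ∀ᶠ t in (ω : Filter ℕ), ∀ e ∈ F', t * t.factorial ≤ c t e := by
      rw [Finset.eventually_all]
      intro e he
      exact (Finset.mem_filter.mp he).2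
    filter_upwards [h3', hbig, hω (eventually_ge_atTop n0),
      hω (eventually_ge_atTop (∑ e ∈ F', (d e).natAbs))] with t ht1 ht2 ht3 ht4 n' hn'
    obtain ⟨g, hg⟩ : n0 ∣ t.factorial := Nat.dvd_factorial hn0' ht3
    have hgle : g ≤ t.factorial := by
      rw [hg]; exact Nat.le_mul_of_pos_left _ hn0'
    -- new coefficients
    have hc' : ∀ e ∈ F', 0 ≤ (c t e : ℤ) + g * d e := by
      intro e he
      have h1 := ht2 e he
      have h2 : (d e).natAbs ≤ ∑ e ∈ F', (d e).natAbs :=
        Finset.single_le_sum (f := fun e => (d e).natAbs) (fun _ _ => Nat.zero_le _) he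
      have h3 : (d e).natAbs ≤ t := h2.trans ht4
      have h4 : g * (d e).natAbs ≤ t.factorial * t := Nat.mul_le_mul hgle h3
      have h5 : g * (d e).natAbs ≤ c t e := by
        calc _ ≤ _ := h4
          _ = t * t.factorial := Nat.mul_comm _ _
          _ ≤ _ := h1
      have h6 : -((g : ℤ) * d e) ≤ g * (d e).natAbs := by
        have : -(d e) ≤ ((d e).natAbs : ℤ) := by omega
        have := mul_le_mul_of_nonneg_left this (show (0:ℤ) ≤ g by positivity)
        linarith
      have h7 : ((g * (d e).natAbs : ℕ) : ℤ) ≤ c t e := by exact_mod_cast h5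
      push_cast at h7
      push_cast at h6
      linarith
    let c' : Edge → ℕ := fun e => if e ∈ F' then ((c t e : ℤ) + g * d e).toNat else c t e
    have hfin : n' = P.1 + ∑ e ∈ F, c' e • evec e := by
      funext r
      have e0 : (n' r : ℚ) = (n t r : ℚ) + t.factorial * z r := by
        have := hn' r
        exact_mod_cast this
      have e1 : (t.factorial : ℚ) * z r = ∑ e ∈ F', ((g : ℚ) * d e) * eQ e r := by
        have := hd r
        rw [hg]
        push_cast
        calc (n0 : ℚ) * g * z r = g * (n0 * z r) := by ring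
          _ = _ := by
              rw [this, Finset.mul_sum]
              exact Finset.sum_congr rfl fun e _ => by ring
      have e2 : ∑ e ∈ F', ((g : ℚ) * d e) * eQ e r =
          ∑ e ∈ F, (if e ∈ F' then ((g : ℚ) * d e) * eQ e r else 0) := by
        rw [← Finset.sum_filter]
        congr 1
        ext e
        simp [hF']
      have e3 : (n' r : ℚ) = ((P.1 + ∑ e ∈ F, c' e • evec e : ℕ → ℕ) r : ℕ) := by
        rw [e0, ht1 r, e1, e2]
        simp only [Pi.add_apply, Finset.sum_apply, Pi.smul_apply, smul_eq_mul]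
        push_cast
        rw [add_assoc, ← Finset.sum_add_distrib]
        congr 1
        apply Finset.sum_congr rfl
        intro e _
        simp only [c']
        rw [evec_cast]
        split_ifs with h
        · have : (((((c t e : ℤ) + g * d e).toNat : ℕ) : ℤ) : ℚ) = (((c t e : ℤ) + g * d e : ℤ) : ℚ) := by
            rw [Int.toNat_of_nonneg (hc' e h)]
          push_cast at this
          have h8 : ((((c t e : ℤ) + g * d e).toNat : ℕ) : ℚ) = (c t e : ℚ) + g * d e := by
            rw [← this]
          rw [h8]; ring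
        · simp
      exact_mod_cast e3
    rw [hfin]
    apply hG.yld
    rw [← hFK]
    exact sum_mem fun e he => nsmul_mem (AddSubmonoid.subset_closure
      (Set.mem_image_of_mem evec (Finset.mem_coe.mpr he))) _

end Pool.Agent.Helper59.PCF
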