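import Mathlib
import Pool.Agent.Helper59.PCF.Limit

set_option autoImplicit false

namespace Pool.Agent.Helper59.PCF

open Filter

abbrev Om := Bool ⊕ (ℤ × ℤ)

abbrev GG := Monoid.Coprod (Multiplicative (ℤ × ℤ)) (Multiplicative ℤ)

noncomputable def gens : Fin 6 → GG :=
  ![Monoid.Coprod.inl (Multiplicative.ofAdd ((1, 0) : ℤ × ℤ)),
    (Monoid.Coprod.inl (Multiplicative.ofAdd ((1, 0) : ℤ × ℤ)))⁻¹,
    Monoid.Coprod.inl (Multiplicative.ofAdd ((0, 1) : ℤ × ℤ)),
    (Monoid.Coprod.inl (Multiplicative.ofAdd ((0, 1) : ℤ × ℤ)))⁻¹,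
    Monoid.Coprod.inr (Multiplicative.ofAdd (1 : ℤ)),
    (Monoid.Coprod.inr (Multiplicative.ofAdd (1 : ℤ)))⁻¹]

noncomputable def pv : Om → GG
  | Sum.inl s => Monoid.Coprod.inr (Multiplicative.ofAdd (if s then (1 : ℤ) else -1))
  | Sum.inr v => Monoid.Coprod.inl (Multiplicative.ofAdd v)

noncomputable def phiN (N : ℕ) : GG →* GG :=
  Monoid.Coprod.map (powMonoidHom N) (MonoidHom.id _)

def canv (v : ℤ × ℤ) (p : ℕ) : ℤ := if p = 1 then v.1 else if p = 0 then v.2 else 0

def isM (y : List Om) (q : ℕ) : Prop := ∃ v, y[q]? = some (Sum.inr v)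

/-- the displacement part -/
def dis (m : ℕ) (y : List Om) (r : ℕ) : ℤ :=
  match y[r / m]? with
  | none => 0
  | some (Sum.inl _) => 0
  | some (Sum.inr v) => canv v (r % m)

/-- the constant part -/
def cs (m : ℕ) (r : ℕ) : ℕ := if r % m = 0 then 1 else 0

def nZ (m : ℕ) (y : List Om) (t r : ℕ) : ℤ :=
  match y[r / m]? with
  | none => 0
  | some (Sum.inl _) => cs m r
  | some (Sum.inr v) => clo m t r + t.factorial * canv v (r % m)

def nn (m : ℕ) (y : List Om) (t r : ℕ) : ℕ := (nZ m y t r).toNat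

def lett (m : ℕ) (y : List Om) (r : ℕ) : Fin 6 :=
  match y[r / m]? with
  | none => 0
  | some (Sum.inl s) => if s then 4 else 5
  | some (Sum.inr _) => if r % m < m - 2 then (if r % m % 2 = 1 then 0 else 2)
      else (if r % m % 2 = 1 then 1 else 3)

theorem TT_le_clo {m t r : ℕ} (hr : r % m < m - 2) : TT t ≤ clo m t r := by
  rw [clo, if_pos hr]
  apply Nat.le_self_pow (by omega)

theorem fac_mul_le_TT {t : ℕ} (ht : 1 ≤ t) : t.factorial * t ≤ TT t := by
  unfold TT
  have h1 : 1 ≤ t * t.factorial := Nat.mul_pos ht t.factorial_pos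
  nlinarith

def osz : Om → ℕ
  | Sum.inl _ => 0
  | Sum.inr v => v.1.natAbs + v.2.natAbs

/-- eventually, all exponents are nonnegative -/
theorem nZ_nonneg (m : ℕ) (hm : 5 ≤ m) (y : List Om) :
    ∀ᶠ t in atTop, ∀ r, 0 ≤ nZ m y t r := by
  -- bound on the vectors
  obtain ⟨B, hB⟩ : ∃ B : ℕ, ∀ v, (Sum.inr v : Om) ∈ y → |v.1| ≤ B ∧ |v.2| ≤ B := by
    refine ⟨(y.map osz).sum, fun v hv => ?_⟩
    have : v.1.natAbs + v.2.natAbs ≤ (y.map osz).sum :=
      List.single_le_sum (fun _ _ => Nat.zero_le _) _ (List.mem_map.mpr ⟨Sum.inr v, hv, rfl⟩)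
    rw [Int.abs_eq_natAbs, Int.abs_eq_natAbs]
    constructor <;> omega
  filter_upwards [eventually_ge_atTop (B + 1)] with t ht r
  unfold nZ
  split
  · exact le_rfl
  · positivity
  · rename_i v hv
    have hmem : (Sum.inr v : Om) ∈ y := List.mem_of_getElem? hv
    have h1 := hB v hmem
    have hc : |canv v (r % m)| ≤ B := by
      unfold canv
      split_ifs
      · exact h1.1
      · exact h1.2
      · simp
    by_cases hr : r % m < m - 2
    · have h2 := TT_le_clo (m := m) (t := t) (r := r) hr
      have h3 := fac_mul_le_TT (t := t) (by omega)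
      have h4 : (t.factorial : ℤ) * t ≤ clo m t r := by exact_mod_cast h3.trans h2
      have h5 : -(B : ℤ) ≤ canv v (r % m) := (abs_le.mp hc).1
      have h6 : (B : ℤ) ≤ t := by exact_mod_cast (by omega : B ≤ t)
      have h7 : (t.factorial : ℤ) * (-(t : ℤ)) ≤ t.factorial * canv v (r % m) :=
        mul_le_mul_of_nonneg_left (by linarith) (by positivity)
      linarith
    · have : canv v (r % m) = 0 := by
        unfold canv
        rw [if_neg (by omega), if_neg (by omega)]
      rw [this]; positivity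

theorem prod_inl (k : ℕ) (w : ℕ → ℤ × ℤ) :
    ((List.range k).map (fun p => (Monoid.Coprod.inl (Multiplicative.ofAdd (w p)) : GG))).prod =
      Monoid.Coprod.inl (Multiplicative.ofAdd (∑ p ∈ Finset.range k, w p)) := by
  induction k with
  | zero => simp
  | succ k ih =>
    rw [List.range_succ, List.map_append, List.prod_append, ih, Finset.sum_range_succ]
    simp

def sw (v : ℤ × ℤ) (p : ℕ) : ℤ × ℤ := if p = 1 then (v.1, 0) else if p = 0 then (0, v.2) else 0

theorem g5 : gens 5 = (Monoid.Coprod.inr (Multiplicative.ofAdd (1 : ℤ)))⁻¹ := rfl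
theorem g4 : gens 4 = (Monoid.Coprod.inr (Multiplicative.ofAdd (1 : ℤ))) := rfl

theorem gens_pow (i : Fin 6) (k : ℕ) : gens i ^ k =
    (![Monoid.Coprod.inl (Multiplicative.ofAdd ((k : ℤ), (0:ℤ))),
      Monoid.Coprod.inl (Multiplicative.ofAdd (-(k : ℤ), (0:ℤ))),
      Monoid.Coprod.inl (Multiplicative.ofAdd ((0:ℤ), (k : ℤ))),
      Monoid.Coprod.inl (Multiplicative.ofAdd ((0:ℤ), -(k : ℤ))),
      Monoid.Coprod.inr (Multiplicative.ofAdd (k : ℤ)),
      Monoid.Coprod.inr (Multiplicative.ofAdd (-(k : ℤ)))] : Fin 6 → GG) i := by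
  fin_cases i <;> simp [gens, ← map_pow, ← map_inv, ← ofAdd_nsmul, ← ofAdd_neg]

theorem block_sum (m' q t : ℕ) (v : ℤ × ℤ) (hm' : 3 ≤ m') (n : ℕ → ℤ)
    (hn : ∀ p, p < m' + 2 → n p = (clo (m' + 2) t (q * (m' + 2) + p) : ℤ) +
      t.factorial * canv v p) :
    ∑ p ∈ Finset.range (m' + 2), (if p < m' then (if p % 2 = 1 then ((n p, 0) : ℤ × ℤ)
      else (0, n p)) else (if p % 2 = 1 then (-n p, 0) else (0, -n p))) =
      (t.factorial : ℤ) • v := by
  have c1 : ¬ (m' < m') := by omega
  have c2 : ¬ (m' + 1 < m') := by omega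
  rw [Finset.sum_range_succ, Finset.sum_range_succ, if_neg c1, if_neg c2]
  have e1 : ∀ p ∈ Finset.range m', (if p < m' then (if p % 2 = 1 then ((n p, 0) : ℤ × ℤ)
      else (0, n p)) else (if p % 2 = 1 then (-n p, 0) else (0, -n p))) =
      ((if p % 2 = 1 then (TT t : ℤ) ^ (1 + (q * (m' + 2) + p)) else 0),
       (if p % 2 = 0 then (TT t : ℤ) ^ (1 + (q * (m' + 2) + p)) else 0)) +
      (t.factorial : ℤ) • sw v p := by
    intro p hp
    have hp' := Finset.mem_range.mp hp
    have hclo : (clo (m' + 2) t (q * (m' + 2) + p) : ℤ) =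
        (TT t : ℤ) ^ (1 + (q * (m' + 2) + p)) := by
      rw [clo, blockmod (show p < m' + 2 by omega), if_pos (show p < m' + 2 - 2 by omega)]
      push_cast; rfl
    rw [if_pos hp', hn p (by omega), hclo]
    unfold canv sw
    by_cases h1 : p = 1
    · subst h1; simp
    · by_cases h0 : p = 0
      · subst h0; simp
      · rw [if_neg h1, if_neg h0, if_neg h1, if_neg h0]
        rcases Nat.mod_two_eq_zero_or_one p with h | h <;> simp [h]
  have e2 : ∀ p, m' ≤ p → p < m' + 2 → n p = ∑ x ∈ Finset.range m', if x % 2 = p % 2 then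
      (TT t : ℤ) ^ (1 + (q * (m' + 2) + x)) else 0 := by
    intro p hp hp'
    rw [hn p (by omega), clo, blockmod (show p < m' + 2 by omega),
      if_neg (show ¬ p < m' + 2 - 2 by omega), blockdiv (show p < m' + 2 by omega)]
    have : canv v p = 0 := by
      unfold canv; rw [if_neg (show ¬ p = 1 by omega), if_neg (show ¬ p = 0 by omega)]
    rw [this]
    push_cast
    simp
  have e3 : ∑ p ∈ Finset.range m', sw v p = v := by
    obtain ⟨k, rfl⟩ : ∃ k, m' = 2 + k := ⟨m' - 2, by omega⟩
    rw [Finset.sum_range_add]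
    have : ∑ x ∈ Finset.range k, sw v (2 + x) = 0 := by
      apply Finset.sum_eq_zero
      intro x _
      unfold sw; rw [if_neg (by omega), if_neg (by omega)]
    rw [this, add_zero, Finset.sum_range_succ, Finset.sum_range_one]
    simp [sw]
  have e4 : ∑ p ∈ Finset.range m', (((if p % 2 = 1 then (TT t : ℤ) ^ (1 + (q * (m' + 2) + p))
      else 0), (if p % 2 = 0 then (TT t : ℤ) ^ (1 + (q * (m' + 2) + p)) else 0)) : ℤ × ℤ) =
      ((∑ p ∈ Finset.range m', if p % 2 = 1 then (TT t : ℤ) ^ (1 + (q * (m' + 2) + p)) else 0),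
       (∑ p ∈ Finset.range m', if p % 2 = 0 then (TT t : ℤ) ^ (1 + (q * (m' + 2) + p)) else 0)) := by
    rw [Prod.ext_iff]
    simp [Prod.fst_sum, Prod.snd_sum]
  rw [Finset.sum_congr rfl e1, Finset.sum_add_distrib, ← Finset.smul_sum, e3, e4,
    e2 m' le_rfl (by omega), e2 (m' + 1) (by omega) (by omega)]
  rcases Nat.mod_two_eq_zero_or_one m' with h | h
  · have h' : (m' + 1) % 2 = 1 := by omega
    rw [Prod.ext_iff]
    simp only [h, h']
    simp
  · have h' : (m' + 1) % 2 = 0 := by omega
    rw [Prod.ext_iff]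
    simp only [h, h']
    simp

theorem block_val (m : ℕ) (hm : 5 ≤ m) (y : List Om) (t : ℕ) (hpos : ∀ r, 0 ≤ nZ m y t r) (q : ℕ)
    (o : Om) (ho : y[q]? = some o) :
    ((List.range m).map (fun p => gens (lett m y (q * m + p)) ^ nn m y t (q * m + p))).prod =
      phiN t.factorial (pv o) := by
  obtain ⟨m', rfl⟩ : ∃ m', m = m' + 2 := ⟨m - 2, by omega⟩
  rcases o with s | v
  · -- plain letter
    have h0 : ∀ p ∈ List.range (m' + 2), gens (lett (m' + 2) y (q * (m' + 2) + p)) ^
        nn (m' + 2) y t (q * (m' + 2) + p) =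
        if p = 0 then (Monoid.Coprod.inr (Multiplicative.ofAdd (if s then (1 : ℤ) else -1)) : GG)
          else 1 := by
      intro p hp
      have hp' := List.mem_range.mp hp
      rw [nn, nZ, lett, blockdiv hp', ho]
      simp only [cs, blockmod hp']
      by_cases h2 : p = 0
      · rw [if_pos h2, if_pos h2]
        rcases s with _ | _
        · simp [g5]
        · simp [g4]
      · rw [if_neg h2, if_neg h2]
        simp
    rw [List.map_congr_left h0]
    have : ∀ k, ((List.range (k + 1)).map (fun p => if p = 0 then (Monoid.Coprod.inr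
        (Multiplicative.ofAdd (if s then (1 : ℤ) else -1)) : GG) else 1)).prod =
        Monoid.Coprod.inr (Multiplicative.ofAdd (if s then (1 : ℤ) else -1)) := by
      intro k
      induction k with
      | zero => simp
      | succ k ih =>
        rw [List.range_succ, List.map_append, List.prod_append, ih]
        simp
    rw [this (m' + 1)]
    simp [phiN, pv]
  · have h0 : ∀ p ∈ List.range (m' + 2), gens (lett (m' + 2) y (q * (m' + 2) + p)) ^
        nn (m' + 2) y t (q * (m' + 2) + p) =
        (Monoid.Coprod.inl (Multiplicative.ofAdd (if p < m' then (if p % 2 = 1 then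
          ((nZ (m' + 2) y t (q * (m' + 2) + p), 0) : ℤ × ℤ)
      else (0, nZ (m' + 2) y t (q * (m' + 2) + p))) else (if p % 2 = 1 then
        (-nZ (m' + 2) y t (q * (m' + 2) + p), 0)
        else (0, -nZ (m' + 2) y t (q * (m' + 2) + p))))) : GG) := by
      intro p hp
      have hp' := List.mem_range.mp hp
      have hnn : ((nn (m' + 2) y t (q * (m' + 2) + p) : ℕ) : ℤ) =
        nZ (m' + 2) y t (q * (m' + 2) + p) := Int.toNat_of_nonneg (hpos _)
      rw [gens_pow, hnn, lett, blockdiv hp', ho]
      simp only [blockmod hp', show m' + 2 - 2 = m' by omega]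
      split_ifs <;> simp
    rw [List.map_congr_left h0, prod_inl]
    rw [block_sum m' q t v (by omega) (fun p => nZ (m' + 2) y t (q * (m' + 2) + p))]
    · simp [phiN, pv, ← ofAdd_nsmul]
    · intro p hp
      simp only [nZ, blockdiv hp, ho, blockmod hp]

theorem map_WW (m R : ℕ) (y : List Om) (n : ℕ → ℕ) :
    ((WW (lett m y) R n).map gens).prod =
      ((List.range R).map (fun r => gens (lett m y r) ^ n r)).prod := by
  induction R with
  | zero => simp [WW_zero]
  | succ R ih =>
    rw [WW_succ, List.map_append, List.prod_append, ih, List.range_succ, List.map_append,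
      List.prod_append]
    simp

theorem word_val (m : ℕ) (hm : 5 ≤ m) (y : List Om) (t : ℕ) (hpos : ∀ r, 0 ≤ nZ m y t r) :
    ((WW (lett m y) (y.length * m) (nn m y t)).map gens).prod =
      phiN t.factorial (y.map pv).prod := by
  rw [map_WW]
  have key : ∀ k, k ≤ y.length → ((List.range (k * m)).map (fun r =>
      gens (lett m y r) ^ nn m y t r)).prod = phiN t.factorial ((y.take k).map pv).prod := by
    intro k
    induction k with
    | zero => intro _; simp
    | succ k ih =>
      intro hk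
      have hk' : k < y.length := by omega
      rw [add_mul, one_mul, List.range_add, List.map_append, List.prod_append, ih (by omega),
        List.take_add_one, List.getElem?_eq_getElem hk', List.map_map]
      have := block_val m hm y t hpos k (y[k]) (List.getElem?_eq_getElem hk')
      have e : ((fun r => gens (lett m y r) ^ nn m y t r) ∘ fun x => k * m + x) =
        (fun p => gens (lett m y (k * m + p)) ^ nn m y t (k * m + p)) := rfl
      rw [e, this, List.map_append, List.prod_append, map_mul]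
      simp only [Option.toList_some, List.map_cons, List.map_nil, List.prod_cons, List.prod_nil,
        mul_one]
  have := key y.length le_rfl
  rwa [List.take_length] at this

end Pool.Agent.Helper59.PCF
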