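import Mathlib
import Pool.Agent.Helper59.PCF.Words
import Pool.Agent.Helper59.PCF.Grammar

set_option autoImplicit false

namespace Pool.Agent.Helper59.PCF

open Filter

def Disp (lam : ℕ → ℤ × ℤ) (y y' : List Om) : Prop :=
  y'.length = y.length ∧ ∀ q, (∀ s, y[q]? = some (Sum.inl s) → y'[q]? = some (Sum.inl s)) ∧
    (∀ v, y[q]? = some (Sum.inr v) → ∃ k : ℤ, y'[q]? = some (Sum.inr (v + k • lam q)))

/-- the word attached to `y` at time `t` -/
def wd (y : List Om) (t : ℕ) : List (Fin 6) :=
  WW (lett (y.length + 5) y) (y.length * (y.length + 5)) (nn (y.length + 5) y t)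

theorem canv_add_smul (v θ : ℤ × ℤ) (k : ℤ) (p : ℕ) :
    canv (v + k • θ) p = canv v p + k * canv θ p := by
  unfold canv
  split_ifs <;> simp

theorem mem_span_can (K : Set Edge) (m q : ℕ) (θ : ℤ × ℤ)
    (h : ∀ φ : ℕ → ℚ, Ann K φ → (θ.1 : ℚ) * φ (q * m + 1) + (θ.2 : ℚ) * φ (q * m + 0) = 0) :
    ((Pi.single (q * m + 1) (θ.1 : ℚ) + Pi.single (q * m) (θ.2 : ℚ) : ℕ → ℚ)) ∈
      Submodule.span ℚ (eQ '' K) := by
  classical
  apply mem_span_of_ann K _ {q * m + 1, q * m} (fun i => if i = q * m + 1 then θ.1 else θ.2)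
  · rw [Finset.sum_pair (by omega)]
    simp
  · intro φ hφ
    rw [Finset.sum_pair (by omega)]
    have := h φ hφ
    simpa using this

theorem lang_limit (L : Language (Fin 6)) (hL : L.IsContextFree) (ω : Ultrafilter ℕ)
    (hω : (ω : Filter ℕ) ≤ atTop) :
    ∃ (Θ : Finset (ℤ × ℤ)) (lam : List Om → ℕ → ℤ × ℤ), (0, 0) ∉ Θ ∧ (∀ y q, lam y q ∈ Θ) ∧
      ∀ y y', Disp (lam y) y y' → (∀ᶠ t in (ω : Filter ℕ), wd y t ∈ L) →
        ∀ᶠ t in (ω : Filter ℕ), wd y' t ∈ L := by
  classical
  obtain ⟨S, X, hS⟩ := exists_sys L hL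
  obtain ⟨D⟩ := exists_pdata S
  obtain ⟨N, hN1, hN⟩ : ∃ N : ℕ, 1 ≤ N ∧ ∀ p ∈ D.PP, p.1 ≤ N ∧ p.2 ≤ N := by
    obtain ⟨B1, hB1⟩ := (D.PP_finite.image Prod.fst).bddAbove
    obtain ⟨B2, hB2⟩ := (D.PP_finite.image Prod.snd).bddAbove
    refine ⟨B1 + B2 + 1, by omega, fun p hp => ⟨?_, ?_⟩⟩
    · have := hB1 ⟨p, hp, rfl⟩; omega
    · have := hB2 ⟨p, hp, rfl⟩; omega
  set B : ℤ := (N : ℤ) ^ 3 with hB
  have hB1 : 1 ≤ B := one_le_pow₀ (by exact_mod_cast hN1)
  let Θ : Finset (ℤ × ℤ) := (Finset.Icc (-B) B ×ˢ Finset.Icc (-B) B).erase (0, 0)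
  have hΘ : ∀ θ : ℤ × ℤ, θ ∈ Θ ↔ (θ.1 ≠ 0 ∨ θ.2 ≠ 0) ∧ |θ.1| ≤ B ∧ |θ.2| ≤ B := by
    intro θ
    simp only [Θ, Finset.mem_erase, Finset.mem_product, Finset.mem_Icc, abs_le]
    rw [Ne, Prod.ext_iff]
    simp only
    tauto
  have h10 : ((1, 0) : ℤ × ℤ) ∈ Θ := by
    rw [hΘ]
    refine ⟨Or.inl one_ne_zero, ?_, ?_⟩
    · simpa using hB1
    · simp; linarith
  -- the configuration of a word
  have hcfg : ∀ y : List Om, ∃ lam : ℕ → ℤ × ℤ, (∀ q, lam q ∈ Θ) ∧
      ((∀ᶠ t in (ω : Filter ℕ), wd y t ∈ L) → ∃ K : Set Edge,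
        (∀ q, q < y.length → isM y q → ∀ φ : ℕ → ℚ, Ann K φ →
          ((lam q).1 : ℚ) * φ (q * (y.length + 5) + 1) +
            ((lam q).2 : ℚ) * φ (q * (y.length + 5) + 0) = 0) ∧
        ∀ z : ℕ → ℤ, (fun r => (z r : ℚ)) ∈ Submodule.span ℚ (eQ '' K) →
          ∀ᶠ t in (ω : Filter ℕ), ∀ n' : ℕ → ℕ,
            (∀ r, (n' r : ℤ) = nn (y.length + 5) y t r + t.factorial * z r) →
            WW (lett (y.length + 5) y) (y.length * (y.length + 5)) n' ∈ L) := by
    intro y
    by_cases hy : ∀ᶠ t in (ω : Filter ℕ), wd y t ∈ L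
    swap
    · exact ⟨fun _ => (1, 0), fun _ => h10, fun h => absurd h hy⟩
    by_cases hy0 : y.length = 0
    · refine ⟨fun _ => (1, 0), fun _ => h10, fun _ => ⟨∅, ?_, ?_⟩⟩
      · intro q hq; omega
      · intro z _
        filter_upwards [hy] with t ht n' _
        have e : WW (lett (y.length + 5) y) (y.length * (y.length + 5)) n' = wd y t := by
          unfold wd
          rw [hy0, zero_mul]; rfl
        rw [e]; exact ht
    obtain ⟨K, hK, hcone⟩ := limit_cfg S D (lett (y.length + 5) y) X N hN1 hN ω hω y.length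
      (y.length + 5) (by omega) le_rfl (isM y) (fun t r => nn (y.length + 5) y t r)
      (fun r => match y[r / (y.length + 5)]? with
        | none => 0
        | some (Sum.inl _) => cs (y.length + 5) r
        | some (Sum.inr _) => 0) (dis (y.length + 5) y) (by
          filter_upwards [hω (nZ_nonneg (y.length + 5) (by omega) y)] with t ht r hr
          rw [nn, Int.toNat_of_nonneg (ht r)]
          have hr' : r / (y.length + 5) < y.length := by
            rw [Nat.div_lt_iff_lt_mul (by omega)]; exact hr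
          unfold nZ dis
          cases h : y[r / (y.length + 5)]? with
          | none =>
            rw [List.getElem?_eq_none_iff] at h; omega
          | some o =>
            rcases o with s | v
            · have : ¬ isM y (r / (y.length + 5)) := by
                rintro ⟨v, hv⟩; rw [h] at hv; simp at hv
              simp [this]
            · have : isM y (r / (y.length + 5)) := ⟨v, h⟩
              simp [this])
        (by
          intro t r hr
          have hr' : y.length ≤ r / (y.length + 5) := by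
            rw [Nat.le_div_iff_mul_le (by omega)]; exact hr
          simp [nn, nZ, List.getElem?_eq_none_iff.mpr hr'])
        (by
          filter_upwards [hy] with t ht
          exact (hS _).mp ht)
    have hrel : ∀ q, ∃ θ : ℤ × ℤ, θ ∈ Θ ∧ (q < y.length → isM y q → ∀ φ : ℕ → ℚ, Ann K φ →
          (θ.1 : ℚ) * φ (q * (y.length + 5) + 1) +
            (θ.2 : ℚ) * φ (q * (y.length + 5) + 0) = 0) := by
      intro q
      by_cases hq : q < y.length ∧ isM y q
      · obtain ⟨a, b, h1, h2, h3, h4⟩ := hK.rel hq.1 hq.2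
        exact ⟨(a, b), (hΘ _).mpr ⟨h1, h2, h3⟩, fun _ _ => h4⟩
      · exact ⟨(1, 0), h10, fun h h' => absurd ⟨h, h'⟩ hq⟩
    choose lam hlam1 hlam2 using hrel
    refine ⟨lam, hlam1, fun _ => ⟨K, hlam2, fun z hz => ?_⟩⟩
    filter_upwards [hcone z hz] with t ht n' hn'
    exact (hS _).mpr (ht n' hn')
  choose lam hlam1 hlam2 using hcfg
  refine ⟨Θ, lam, ?_, hlam1, ?_⟩
  · rw [hΘ]; simp
  intro y y' hD hy
  obtain ⟨K, hK1, hK2⟩ := hlam2 y hy
  set m := y.length + 5 with hm
  obtain ⟨hlen, hD⟩ := hD
  -- multiples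
  have hk : ∀ q, ∃ k : ℤ, (∀ v, y[q]? = some (Sum.inr v) →
      y'[q]? = some (Sum.inr (v + k • lam y q))) ∧ (¬ isM y q → k = 0) := by
    intro q
    by_cases hq : isM y q
    · obtain ⟨v, hv⟩ := hq
      obtain ⟨k, hk⟩ := (hD q).2 v hv
      refine ⟨k, fun v' hv' => ?_, fun h => absurd ⟨v, hv⟩ h⟩
      rw [hv] at hv'
      have : v = v' := by simpa using hv'
      rw [← this]; exact hk
    · refine ⟨0, fun v hv => absurd ⟨v, hv⟩ hq, fun _ => rfl⟩
  choose k hk1 hk2 using hk
  let z : ℕ → ℤ := fun r => k (r / m) * canv (lam y (r / m)) (r % m)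
  have hz : (fun r => (z r : ℚ)) ∈ Submodule.span ℚ (eQ '' K) := by
    have e : (fun r => (z r : ℚ)) = ∑ q ∈ Finset.range y.length, (k q : ℚ) •
        ((Pi.single (q * m + 1) ((lam y q).1 : ℚ) + Pi.single (q * m) ((lam y q).2 : ℚ) :
          ℕ → ℚ)) := by
      funext r
      simp only [z, Finset.sum_apply, Pi.smul_apply, Pi.add_apply, Pi.single_apply, smul_eq_mul]
      have hr := Nat.div_add_mod' r m
      have hrm : r % m < m := Nat.mod_lt _ (by omega)
      by_cases hq : r / m < y.length
      · rw [Finset.sum_eq_single (r / m)]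
        · unfold canv
          by_cases h1 : r % m = 1
          · rw [if_pos h1, if_pos (by omega), if_neg (by omega)]; push_cast; ring
          · by_cases h0 : r % m = 0
            · rw [if_neg h1, if_pos h0, if_neg (by omega), if_pos (by omega)]; push_cast; ring
            · rw [if_neg h1, if_neg h0, if_neg (by omega), if_neg (by omega)]; push_cast; ring
        · intro q _ hqr
          have h1 : r ≠ q * m + 1 := by
            intro h
            apply hqr
            rw [h, blockdiv (by omega)]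
          have h2 : r ≠ q * m := by
            intro h
            apply hqr
            rw [h, Nat.mul_div_cancel _ (by omega)]
          rw [if_neg h1, if_neg h2]; ring
        · intro h; exact absurd (Finset.mem_range.mpr hq) h
      · have : k (r / m) = 0 := by
          apply hk2
          rintro ⟨v, hv⟩
          rw [List.getElem?_eq_none_iff.mpr (by omega)] at hv
          simp at hv
        rw [this]
        symm
        rw [zero_mul]
        push_cast
        apply Finset.sum_eq_zero
        intro q hq'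
        have hq'' := Finset.mem_range.mp hq'
        have hle : q * m + m ≤ r / m * m := by
          have := Nat.mul_le_mul_right m (show q + 1 ≤ r / m by omega)
          rwa [add_mul, one_mul] at this
        rw [if_neg (by omega), if_neg (by omega)]; ring
    rw [e]
    apply Submodule.sum_mem
    intro q hq
    by_cases hq2 : isM y q
    · apply Submodule.smul_mem
      apply mem_span_can
      exact hK1 q (Finset.mem_range.mp hq) hq2
    · rw [hk2 q hq2]; simp
  have hlett : lett m y' = lett m y := by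
    funext r
    unfold lett
    cases h : y[r / m]? with
    | none =>
      have : y'[r / m]? = none := by
        rw [List.getElem?_eq_none_iff] at h ⊢; omega
      rw [this]
    | some o =>
      rcases o with s | v
      · rw [(hD _).1 s h]
      · rw [hk1 _ v h]
  have hnZ : ∀ t r, nZ m y' t r = nZ m y t r + t.factorial * z r := by
    intro t r
    unfold nZ
    simp only [z]
    cases h : y[r / m]? with
    | none =>
      have : y'[r / m]? = none := by
        rw [List.getElem?_eq_none_iff] at h ⊢; omega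
      rw [this]
      have : k (r / m) = 0 := by
        apply hk2
        rintro ⟨v, hv⟩
        rw [h] at hv
        simp at hv
      rw [this]; simp
    | some o =>
      rcases o with s | v
      · rw [(hD _).1 s h]
        have : k (r / m) = 0 := by
          apply hk2
          rintro ⟨v, hv⟩
          rw [h] at hv
          simp at hv
        rw [this]; simp
      · rw [hk1 _ v h]
        simp only
        rw [canv_add_smul]
        ring
  filter_upwards [hK2 z hz, hω (nZ_nonneg m (by omega) y), hω (nZ_nonneg m (by omega) y')]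
    with t ht1 ht2 ht3
  unfold wd
  rw [hlen, ← hm, hlett]
  apply ht1
  intro r
  rw [nn, nn, Int.toNat_of_nonneg (ht3 r), Int.toNat_of_nonneg (ht2 r)]
  exact hnZ t r

end Pool.Agent.Helper59.PCF
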