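import Mathlib

set_option autoImplicit false

namespace Pool.Agent.Helper59.PCF

theorem exists_min_left_ideal {M : Type} [Semigroup M] [TopologicalSpace M] [CompactSpace M]
    [T2Space M] (hc : ∀ r : M, Continuous (· * r)) (T : Set M) (hT : IsClosed T)
    (hne : T.Nonempty) (hmul : ∀ x ∈ T, ∀ y ∈ T, x * y ∈ T) :
    ∃ (L : Set M) (e : M), L ⊆ T ∧ IsClosed L ∧ e ∈ L ∧ e * e = e ∧
      (∀ x ∈ T, ∀ y ∈ L, x * y ∈ L) ∧ (∀ x ∈ L, ∀ y ∈ L, ∃ q ∈ T, q * x = y) := by
  let S : Set (Set M) := {N | N ⊆ T ∧ IsClosed N ∧ N.Nonempty ∧ ∀ x ∈ T, ∀ y ∈ N, x * y ∈ N}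
  obtain ⟨L, hLT, hL⟩ : ∃ L, L ⊆ T ∧ Minimal (· ∈ S) L := by
    apply zorn_superset_nonempty S _ T ⟨subset_rfl, hT, hne, hmul⟩
    intro c hcs hch hcne
    refine ⟨⋂₀ c, ⟨?_, isClosed_sInter fun t ht => (hcs ht).2.1, ?_, ?_⟩, fun s hs =>
      Set.sInter_subset_of_mem hs⟩
    · obtain ⟨t, ht⟩ := hcne
      exact (Set.sInter_subset_of_mem ht).trans (hcs ht).1
    · rw [Set.sInter_eq_iInter]
      have := hcne.coe_sort
      apply IsCompact.nonempty_iInter_of_directed_nonempty_isCompact_isClosed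
        (fun i : c => (i : Set M))
      · exact DirectedOn.directed_val (IsChain.directedOn hch.symm)
      · exact fun i => (hcs i.prop).2.2.1
      · exact fun i => (hcs i.prop).2.1.isCompact
      · exact fun i => (hcs i.prop).2.1
    · intro x hx y hy
      rw [Set.mem_sInter] at hy ⊢
      exact fun t ht => (hcs ht).2.2.2 x hx y (hy t ht)
  obtain ⟨h1, h2, h3, h4⟩ := hL.prop
  have key : ∀ x ∈ L, (· * x) '' T = L := by
    intro x hx
    apply hL.eq_of_subset
    · refine ⟨?_, (hc x).isClosedMap _ hT, hne.image _, ?_⟩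
      · rintro _ ⟨y, hy, rfl⟩
        exact hmul y hy x (h1 hx)
      · rintro z hz _ ⟨y, hy, rfl⟩
        exact ⟨z * y, hmul z hz y hy, mul_assoc _ _ _⟩
    · rintro _ ⟨y, hy, rfl⟩
      exact h4 y hy x hx
  obtain ⟨e, he, hee⟩ := exists_idempotent_in_compact_subsemigroup hc L h3 h2.isCompact
    (fun x hx y hy => h4 x (h1 hx) y hy)
  refine ⟨L, e, h1, h2, he, hee, h4, fun x hx y hy => ?_⟩
  rw [← key x hx] at hy
  obtain ⟨q, hq, rfl⟩ := hy
  exact ⟨q, hq, rfl⟩

/-- list semigroup -/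
@[instance_reducible]
def listSg (α : Type) : Semigroup (List α) where
  mul := fun a b => a ++ b
  mul_assoc := fun a b c => List.append_assoc a b c

end Pool.Agent.Helper59.PCF
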