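import Mathlib
import Pool.Agent.Helper59.PCF.MinId
import Pool.Agent.Helper59.PCF.Lam

set_option autoImplicit false

namespace Pool.Agent.Helper59.PCF

open Filter

attribute [local instance] listSg Ultrafilter.semigroup

/-- value of a word -/
def vl {α G : Type} [Group G] (pv : α → G) (w : List α) : G := (w.map pv).prod

theorem vl_append {α G : Type} [Group G] (pv : α → G) (a b : List α) :
    vl pv (a ++ b) = vl pv a * vl pv b := by simp [vl]

/-- the value of the words is constant along `p` -/
def HasV {α G : Type} [Group G] (pv : α → G) (p : Ultrafilter (List α)) (g : G) : Prop :=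
  ∀ᶠ w in (p : Filter (List α)), vl pv w = g

theorem HasV.mul {α G : Type} [Group G] {pv : α → G} {p q : Ultrafilter (List α)} {g h : G}
    (hp : HasV pv p g) (hq : HasV pv q h) : HasV pv (p * q) (g * h) := by
  apply (Ultrafilter.eventually_mul p q _).mpr
  filter_upwards [hp] with a ha
  filter_upwards [hq] with b hb
  have : vl pv (a ++ b) = g * h := by rw [vl_append, ha, hb]
  exact this

theorem HasV.unique {α G : Type} [Group G] {pv : α → G} {p : Ultrafilter (List α)} {g h : G}
    (hp : HasV pv p g) (hq : HasV pv p h) : g = h := by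
  obtain ⟨w, h1, h2⟩ := (Filter.Eventually.and hp hq).exists
  rw [← h1, h2]

theorem HasV.pure {α G : Type} [Group G] {pv : α → G} (w : List α) :
    HasV pv (pure w : Ultrafilter (List α)) (vl pv w) := by
  unfold HasV
  exact Filter.eventually_pure.mpr rfl

/-- a minimal idempotent over the trivial words -/
structure MinE {α G : Type} [Group G] (pv : α → G) (e : Ultrafilter (List α)) : Prop where
  idem : e * e = e
  val : HasV pv e 1
  inv : ∀ p : Ultrafilter (List α), HasV pv p 1 → p * e = p → ∃ q, HasV pv q 1 ∧ q * p = e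

theorem exists_minE {α G : Type} [Group G] (pv : α → G) :
    ∃ e : Ultrafilter (List α), MinE pv e := by
  obtain ⟨L, e, hLT, hLc, heL, hee, hLid, hLmin⟩ := exists_min_left_ideal
    (M := Ultrafilter (List α)) Ultrafilter.continuous_mul_left {p | HasV pv p 1}
    (ultrafilter_isClosed_basic {w | vl pv w = 1}) ⟨pure [], HasV.pure []⟩
    (fun x hx y hy => by
      have := HasV.mul hx hy
      rwa [one_mul] at this)
  refine ⟨e, hee, hLT heL, fun p hp hpe => ?_⟩
  have h1 : p ∈ L := by
    have := hLid p hp e heL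
    rwa [hpe] at this
  obtain ⟨q, hq, h⟩ := hLmin p h1 e heL
  exact ⟨q, hq, h⟩

section gamma

variable {α G : Type} [Group G] {pv : α → G} {e : Ultrafilter (List α)} (E : MinE pv e)
  (hinv : ∀ w : List α, ∃ w' : List α, vl pv w' = (vl pv w)⁻¹)

/-- the group attached to a minimal idempotent -/
def Gam (pv : α → G) (e : Ultrafilter (List α)) : Type :=
  {p : Ultrafilter (List α) // e * p = p ∧ p * e = p ∧ ∃ g, HasV pv p g}

include E in
theorem sandwich (p : Ultrafilter (List α)) (g : G) (hp : HasV pv p g) :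
    e * (e * p * e) = e * p * e ∧ (e * p * e) * e = e * p * e ∧ ∃ g, HasV pv (e * p * e) g := by
  refine ⟨?_, ?_, 1 * g * 1, (E.val.mul hp).mul E.val⟩
  · rw [← mul_assoc, ← mul_assoc, E.idem]
  · rw [mul_assoc, E.idem]

include E hinv in
theorem exists_linv (p : Gam pv e) : ∃ q : Gam pv e, q.1 * p.1 = e := by
  obtain ⟨p, h1, h2, g, hg⟩ := p
  obtain ⟨w, hw⟩ := hg.exists
  obtain ⟨w', hw'⟩ := hinv w
  have hv : HasV pv ((pure w' : Ultrafilter (List α)) * p) 1 := by
    have := (HasV.pure (pv := pv) w').mul hg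
    rwa [hw', hw, inv_mul_cancel] at this
  obtain ⟨q, hq1, hq2⟩ := E.inv _ hv (by rw [mul_assoc, h2])
  have hs := sandwich E (q * pure w') _ (hq1.mul (HasV.pure (pv := pv) w'))
  refine ⟨⟨e * (q * pure w') * e, hs⟩, ?_⟩
  simp only
  rw [mul_assoc, h1, mul_assoc, mul_assoc, hq2, E.idem]

open Classical in
@[instance_reducible]
noncomputable def gamGroup : Group (Gam pv e) :=
  letI : Mul (Gam pv e) := ⟨fun p q => ⟨p.1 * q.1, by
    obtain ⟨p, h1, h2, g, hg⟩ := p
    obtain ⟨q, h1', h2', g', hg'⟩ := q
    exact ⟨by simp only; rw [← mul_assoc, h1], by simp only; rw [mul_assoc, h2'],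
      g * g', hg.mul hg'⟩⟩⟩
  letI : One (Gam pv e) := ⟨⟨e, E.idem, E.idem, 1, E.val⟩⟩
  letI : Inv (Gam pv e) := ⟨fun p => (exists_linv E hinv p).choose⟩
  Group.ofLeftAxioms (fun a b c => Subtype.ext (mul_assoc _ _ _))
    (fun a => Subtype.ext a.2.1)
    (fun a => Subtype.ext (exists_linv E hinv a).choose_spec)

end gamma

end Pool.Agent.Helper59.PCF
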