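import Mathlib
import Pool.Agent.Helper59.PCF.Gamma

set_option autoImplicit false

namespace Pool.Agent.Helper59.PCF

open Filter

attribute [local instance] listSg Ultrafilter.semigroup

/-- parallel letters -/
abbrev PO (n : ℕ) := Bool ⊕ (Option (Fin n) → ℤ × ℤ)

def ev {n : ℕ} (o : Option (Fin n)) : PO n → Om := Sum.map id (fun V => V o)

def dg {n : ℕ} : Om → PO n := Sum.map id (fun v _ => v)

theorem umap_mul {α β : Type} (f : α → β) (P Q : Ultrafilter (List α)) :
    (P * Q).map (List.map f) = P.map (List.map f) * Q.map (List.map f) := by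
  apply Ultrafilter.coe_inj.mp
  apply Filter.ext'
  intro p
  rw [Ultrafilter.coe_map, Filter.eventually_map]
  rw [show (∀ᶠ x in ((P * Q : Ultrafilter (List α)) : Filter (List α)), p (List.map f x)) ↔
      ∀ᶠ a in (P : Filter (List α)), ∀ᶠ b in (Q : Filter (List α)), p (List.map f (a ++ b)) from
      Ultrafilter.eventually_mul P Q _,
    show (∀ᶠ x in ((P.map (List.map f) * Q.map (List.map f) : Ultrafilter (List β)) :
      Filter (List β)), p x) ↔ ∀ᶠ a in ((P.map (List.map f) : Ultrafilter (List β)) :
        Filter (List β)), ∀ᶠ b in ((Q.map (List.map f) : Ultrafilter (List β)) :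
        Filter (List β)), p (a ++ b) from Ultrafilter.eventually_mul _ _ p]
  simp only [Ultrafilter.coe_map, Filter.eventually_map, List.map_append]

theorem umap_pure {α β : Type} (f : α → β) (w : List α) :
    (pure w : Ultrafilter (List α)).map (List.map f) = pure (w.map f) := by
  apply Ultrafilter.coe_inj.mp
  rw [Ultrafilter.coe_map, Ultrafilter.coe_pure, Ultrafilter.coe_pure, Filter.map_pure]

variable {n : ℕ}

def pr (o : Option (Fin n)) (P : Ultrafilter (List (PO n))) : Ultrafilter (List Om) :=
  P.map (List.map (ev o))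

def dgu (p : Ultrafilter (List Om)) : Ultrafilter (List (PO n)) := p.map (List.map dg)

theorem pr_mul (o : Option (Fin n)) (P Q : Ultrafilter (List (PO n))) :
    pr o (P * Q) = pr o P * pr o Q := umap_mul _ _ _

theorem pr_dgu (o : Option (Fin n)) (p : Ultrafilter (List Om)) : pr o (dgu p) = p := by
  unfold pr dgu
  rw [Ultrafilter.map_map]
  have : (List.map (ev o) ∘ List.map dg : List Om → List Om) = id := by
    funext w
    simp only [Function.comp, List.map_map, id]
    conv_rhs => rw [← List.map_id w]
    apply List.map_congr_left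
    intro x _
    rcases x with s | v <;> rfl
  rw [this, Ultrafilter.map_id]

theorem pr_pure (o : Option (Fin n)) (V : Option (Fin n) → ℤ × ℤ) :
    pr o (pure [Sum.inr V] : Ultrafilter (List (PO n))) = pure [Sum.inr (V o)] := umap_pure _ _

/-- the displacement condition -/
def cond (lam : Fin n → List Om → ℕ → ℤ × ℤ) (i : Fin n) (a : List Om) (p : List (PO n))
    (b : List Om) : Prop :=
  ∀ (q : ℕ) (V : Option (Fin n) → ℤ × ℤ), p[q]? = some (Sum.inr V) →
    ∃ k : ℤ, V none = V (some i) + k • lam i (a ++ p.map (ev (some i)) ++ b) (a.length + q)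

def valid (lam : Fin n → List Om → ℕ → ℤ × ℤ) (i : Fin n) (A : Ultrafilter (List Om))
    (P : Ultrafilter (List (PO n))) (B : Ultrafilter (List Om)) : Prop :=
  ∀ᶠ a in (A : Filter (List Om)), ∀ᶠ p in (P : Filter (List (PO n))),
    ∀ᶠ b in (B : Filter (List Om)), cond lam i a p b

def Triv (i : Fin n) (P : Ultrafilter (List (PO n))) : Prop :=
  ∀ᶠ p in (P : Filter (List (PO n))), ∀ V : Option (Fin n) → ℤ × ℤ,
    (Sum.inr V : PO n) ∈ p → V none = V (some i)

theorem ev_mul {α : Type} (P Q : Ultrafilter (List α)) (p : List α → Prop) :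
    (∀ᶠ x in ((P * Q : Ultrafilter (List α)) : Filter (List α)), p x) ↔
      ∀ᶠ a in (P : Filter (List α)), ∀ᶠ b in (Q : Filter (List α)), p (a ++ b) :=
  Ultrafilter.eventually_mul P Q p

theorem ev_map {α β : Type} (f : List α → List β) (P : Ultrafilter (List α))
    (p : List β → Prop) : (∀ᶠ x in ((P.map f : Ultrafilter (List β)) : Filter (List β)), p x) ↔
      ∀ᶠ a in (P : Filter (List α)), p (f a) := by
  rw [Ultrafilter.coe_map, Filter.eventually_map]

theorem Triv.mul {i : Fin n} {P Q : Ultrafilter (List (PO n))} (hP : Triv i P) (hQ : Triv i Q) :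
    Triv i (P * Q) := by
  unfold Triv
  rw [ev_mul]
  filter_upwards [hP] with a ha
  filter_upwards [hQ] with b hb V hV
  rcases List.mem_append.mp hV with h | h
  · exact ha V h
  · exact hb V h

theorem Triv.dgu (i : Fin n) (p : Ultrafilter (List Om)) : Triv i (dgu p) := by
  unfold Triv PCF.dgu
  rw [ev_map]
  refine Eventually.of_forall fun a V hV => ?_
  obtain ⟨o, _, ho⟩ := List.mem_map.mp hV
  rcases o with s | v
  · simp [dg] at ho
  · have : (fun _ => v) = V := by simpa [dg] using ho
    rw [← this]

theorem Triv.valid {i : Fin n} {P : Ultrafilter (List (PO n))} (hP : Triv i P)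
    (lam : Fin n → List Om → ℕ → ℤ × ℤ) (A B : Ultrafilter (List Om)) : valid lam i A P B := by
  refine Eventually.of_forall fun a => ?_
  filter_upwards [hP] with p hp
  refine Eventually.of_forall fun b q V hV => ⟨0, ?_⟩
  rw [zero_smul, add_zero]
  exact hp V (List.mem_of_getElem? hV)

theorem valid.mul {lam : Fin n → List Om → ℕ → ℤ × ℤ} {i : Fin n} {A B : Ultrafilter (List Om)}
    {P Q : Ultrafilter (List (PO n))} (h1 : valid lam i A P (pr (some i) Q * B))
    (h2 : valid lam i (A * pr (some i) P) Q B) : valid lam i A (P * Q) B := by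
  unfold valid at h1 h2 ⊢
  rw [ev_mul] at h2
  filter_upwards [h1, h2] with a h1 h2
  rw [ev_mul]
  unfold pr at h2 h1
  rw [ev_map] at h2
  filter_upwards [h1, h2] with p h1 h2
  rw [ev_mul, ev_map] at h1
  filter_upwards [h1, h2] with q h1 h2
  filter_upwards [h1, h2] with b h1 h2
  intro r V hV
  by_cases hr : r < p.length
  · rw [List.getElem?_append_left hr] at hV
    obtain ⟨k, hk⟩ := h1 r V hV
    refine ⟨k, ?_⟩
    rw [hk]
    simp only [List.map_append, List.append_assoc]
  · push Not at hr
    rw [List.getElem?_append_right hr] at hV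
    obtain ⟨k, hk⟩ := h2 (r - p.length) V hV
    refine ⟨k, ?_⟩
    rw [hk]
    have e : (a ++ List.map (ev (some i)) p).length + (r - p.length) = a.length + r := by
      rw [List.length_append, List.length_map]; omega
    rw [e]
    simp only [List.map_append, List.append_assoc]

end Pool.Agent.Helper59.PCF
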