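import Mathlib
import Pool.Agent.Helper59.PCF.Par

set_option autoImplicit false

namespace Pool.Agent.Helper59.PCF

open Filter

attribute [local instance] listSg Ultrafilter.semigroup

theorem disp_of_cond {n : ℕ} (lam : Fin n → List Om → ℕ → ℤ × ℤ) (i : Fin n) (a : List Om)
    (p : List (PO n)) (b : List Om) (h : cond lam i a p b) :
    Disp (lam i (a ++ p.map (ev (some i)) ++ b)) (a ++ p.map (ev (some i)) ++ b)
      (a ++ p.map (ev none) ++ b) := by
  refine ⟨by simp, fun q => ?_⟩
  by_cases h1 : q < a.length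
  · have e1 : ∀ o, (a ++ p.map (ev o) ++ b)[q]? = a[q]? := by
      intro o
      rw [List.append_assoc, List.getElem?_append_left h1]
    rw [e1, e1]
    exact ⟨fun s hs => hs, fun v hv => ⟨0, by simpa using hv⟩⟩
  · push Not at h1
    by_cases h2 : q - a.length < p.length
    · have e1 : ∀ o, (a ++ p.map (ev o) ++ b)[q]? = (p[q - a.length]?).map (ev o) := by
        intro o
        rw [List.append_assoc, List.getElem?_append_right h1,
          List.getElem?_append_left (by simpa using h2), List.getElem?_map]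
      rw [e1, e1]
      have e2 : p[q - a.length]? = some (p[q - a.length]'h2) := List.getElem?_eq_getElem h2
      rcases h3 : p[q - a.length]'h2 with s | V
      · rw [h3] at e2
        rw [e2]
        simp [ev]
      · rw [h3] at e2
        obtain ⟨k, hk⟩ := h _ V e2
        rw [e2]
        rw [show a.length + (q - a.length) = q by omega] at hk
        refine ⟨fun s hs => by simp [ev] at hs, fun v hv => ⟨k, ?_⟩⟩
        have hv' : V (some i) = v := by simpa [ev] using hv
        rw [← hv', ← hk]
        simp [ev]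
    · push Not at h2
      have e1 : ∀ o, (a ++ p.map (ev o) ++ b)[q]? = b[q - a.length - p.length]? := by
        intro o
        rw [List.append_assoc, List.getElem?_append_right h1,
          List.getElem?_append_right (by simpa using h2), List.length_map]
      rw [e1, e1]
      exact ⟨fun s hs => hs, fun v hv => ⟨0, by simpa using hv⟩⟩

theorem gamma_theorem {G : Type} [Group G] (pv : Om → G)
    (hinv : ∀ w : List Om, ∃ w' : List Om, vl pv w' = (vl pv w)⁻¹)
    (n : ℕ) (Θ : Finset (ℤ × ℤ)) (lam : Fin n → List Om → ℕ → ℤ × ℤ)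
    (hlam : ∀ i y q, lam i y q ∈ Θ)
    (hstar : ∀ y' : List Om, (∀ i, ∃ y : List Om, vl pv y = 1 ∧ Disp (lam i y) y y') →
      vl pv y' = 1) :
    ∃ (Γ : Type) (_ : Group Γ) (π : Γ →* G) (ξ : Om → Γ) (f : Fin n → Γ → ℤ × ℤ → ℤ × ℤ),
      (∀ o, π (ξ o) = pv o) ∧ (∀ i A v, f i A v ∈ Θ) ∧
      ∀ Y : Γ, (∀ i, Y ∈ Submonoid.closure {g | ∃ (A : Γ) (v : ℤ × ℤ) (m : ℤ),
        g = A * ξ (Sum.inr (v + m • f i A v)) * (ξ (Sum.inr v))⁻¹ * A⁻¹}) → π Y = 1 := by
  classical
  obtain ⟨e, E⟩ := exists_minE pv
  let inst : Group (Gam pv e) := gamGroup E hinv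
  have hmul : ∀ a b : Gam pv e, (a * b).1 = a.1 * b.1 := fun _ _ => rfl
  have hone : (1 : Gam pv e).1 = e := rfl
  have hL : ∀ a : Gam pv e, e * a.1 = a.1 := fun a => a.2.1
  have hR : ∀ a : Gam pv e, a.1 * e = a.1 := fun a => a.2.2.1
  have hee := E.idem
  have hspec : ∀ a : Gam pv e, HasV pv a.1 a.2.2.2.choose := fun a => a.2.2.2.choose_spec
  let π : Gam pv e →* G := MonoidHom.mk' (fun a => a.2.2.2.choose)
    (fun a b => HasV.unique (hspec (a * b)) ((hspec a).mul (hspec b)))
  have hπ : ∀ a : Gam pv e, HasV pv a.1 (π a) := hspec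
  let ξ : Om → Gam pv e := fun o => ⟨e * pure [o] * e, sandwich E _ _ (HasV.pure [o])⟩
  have hξ : ∀ o, (ξ o).1 = e * pure [o] * e := fun _ => rfl
  have hf : ∀ (i : Fin n) (A : Gam pv e) (v : ℤ × ℤ), ∃ θ ∈ Θ,
      ∀ᶠ a in (A.1 : Filter (List Om)), ∀ᶠ b in ((A * ξ (Sum.inr v))⁻¹.1 : Filter (List Om)),
        lam i (a ++ [Sum.inr v] ++ b) a.length = θ := by
    intro i A v
    have h1 : ∀ a : List Om, ∃ θ ∈ (Θ : Set (ℤ × ℤ)),
        ∀ᶠ b in ((A * ξ (Sum.inr v))⁻¹.1 : Filter (List Om)),
          lam i (a ++ [Sum.inr v] ++ b) a.length = θ := fun a =>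
      (Ultrafilter.eventually_exists_mem_iff Θ.finite_toSet).mp
        (Eventually.of_forall fun b => ⟨_, hlam _ _ _, rfl⟩)
    exact (Ultrafilter.eventually_exists_mem_iff Θ.finite_toSet).mp
      (Eventually.of_forall fun a => h1 a)
  choose f hf1 hf2 using hf
  refine ⟨Gam pv e, inst, π, ξ, f, ?_, hf1, ?_⟩
  · intro o
    apply HasV.unique (hπ (ξ o))
    have := (E.val.mul (HasV.pure (pv := pv) [o])).mul E.val
    rw [one_mul, mul_one] at this
    have e1 : vl pv [o] = pv o := by simp [vl]
    rw [e1] at this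
    exact this
  -- the key identity
  have hkey : ∀ (A : Gam pv e) (v v' : ℤ × ℤ),
      A.1 * ((pure [Sum.inr v'] : Ultrafilter (List Om)) * ((A * ξ (Sum.inr v))⁻¹).1) =
        (A * ξ (Sum.inr v') * (ξ (Sum.inr v))⁻¹ * A⁻¹).1 := by
    intro A v v'
    have e1 : A * ξ (Sum.inr v') * (ξ (Sum.inr v))⁻¹ * A⁻¹ =
        A * (ξ (Sum.inr v') * (A * ξ (Sum.inr v))⁻¹) := by group
    rw [e1, hmul, hmul, hξ]
    set B := (A * ξ (Sum.inr v))⁻¹
    rw [mul_assoc (e * pure [Sum.inr v']), hL, mul_assoc e, ← mul_assoc A.1 e, hR]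
  -- generators
  have hgen : ∀ (i : Fin n) (Y : Gam pv e), Y ∈ Submonoid.closure {g | ∃ (A : Gam pv e)
      (v : ℤ × ℤ) (m : ℤ), g = A * ξ (Sum.inr (v + m • f i A v)) * (ξ (Sum.inr v))⁻¹ * A⁻¹} →
      ∃ Q : Ultrafilter (List (PO n)), pr none Q = Y.1 ∧ (∀ j, j ≠ i → pr (some j) Q = Y.1) ∧
        pr (some i) Q = e ∧ valid lam i e Q e ∧ ∀ j, j ≠ i → Triv j Q := by
    intro i Y hY
    induction hY using Submonoid.closure_induction with
    | mem Y hY =>
      obtain ⟨A, v, m, rfl⟩ := hY
      set θ := f i A v with hθ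
      set B := (A * ξ (Sum.inr v))⁻¹ with hB
      let V : Option (Fin n) → ℤ × ℤ := fun o => if o = some i then v else v + m • θ
      have hVn : V none = v + m • θ := by simp [V]
      have hVi : V (some i) = v := by simp [V]
      have hVj : ∀ j, j ≠ i → V (some j) = v + m • θ := fun j hj => by simp [V, hj]
      refine ⟨dgu A.1 * (pure [Sum.inr V] * dgu B.1), ?_, ?_, ?_, ?_, ?_⟩
      · rw [pr_mul, pr_mul, pr_dgu, pr_dgu, pr_pure, hVn, hkey]
      · intro j hj
        rw [pr_mul, pr_mul, pr_dgu, pr_dgu, pr_pure, hVj j hj, hkey]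
      · rw [pr_mul, pr_mul, pr_dgu, pr_dgu, pr_pure, hVi, hkey, mul_inv_cancel_right,
          mul_inv_cancel, hone]
      · apply valid.mul
        · exact (Triv.dgu i _).valid _ _ _
        · apply valid.mul
          · rw [pr_dgu, pr_dgu, hR, hL]
            unfold valid
            filter_upwards [hf2 i A v] with a ha
            rw [Ultrafilter.coe_pure, Filter.eventually_pure]
            filter_upwards [ha] with b hb
            intro q V' hV'
            have hq : q = 0 := by
              by_contra hne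
              obtain ⟨q', rfl⟩ := Nat.exists_eq_succ_of_ne_zero hne
              simp at hV'
            subst hq
            have hVV : V = V' := by simpa using hV'
            subst hVV
            refine ⟨m, ?_⟩
            have e2 : lam i (a ++ List.map (ev (some i)) [Sum.inr V] ++ b) (a.length + 0) = θ := by
              have : List.map (ev (some i)) [(Sum.inr V : PO n)] = [Sum.inr v] := by
                simp only [List.map_cons, List.map_nil, ev, Sum.map_inr, hVi]
              rw [this]
              exact hb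
            rw [e2, hVn, hVi]
          · exact (Triv.dgu i _).valid _ _ _
      · intro j hj
        refine (Triv.dgu j _).mul (Triv.mul ?_ (Triv.dgu j _))
        unfold Triv
        rw [Ultrafilter.coe_pure, Filter.eventually_pure]
        intro V' hV'
        have hVV : V' = V := by simpa using hV'
        rw [hVV, hVn, hVj j hj]
    | one =>
      refine ⟨dgu e, ?_, ?_, ?_, ?_, ?_⟩
      · rw [pr_dgu, hone]
      · intro j _; rw [pr_dgu, hone]
      · rw [pr_dgu]
      · exact (Triv.dgu i _).valid _ _ _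
      · intro j _; exact Triv.dgu j _
    | mul Y Z _ _ hY hZ =>
      obtain ⟨P, p1, p2, p3, p4, p5⟩ := hY
      obtain ⟨Q, q1, q2, q3, q4, q5⟩ := hZ
      refine ⟨P * Q, ?_, ?_, ?_, ?_, ?_⟩
      · rw [pr_mul, p1, q1, hmul]
      · intro j hj; rw [pr_mul, p2 j hj, q2 j hj, hmul]
      · rw [pr_mul, p3, q3, hee]
      · apply valid.mul
        · rw [q3, hee]; exact p4
        · rw [p3, hee]; exact q4
      · intro j hj; exact (p5 j hj).mul (q5 j hj)
  intro Y hY
  -- combine all languages
  have hall : ∀ s : Finset (Fin n), ∃ P : Ultrafilter (List (PO n)), pr none P = Y.1 ∧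
      (∀ i ∈ s, pr (some i) P = e ∧ valid lam i e P e) ∧
      (∀ i, i ∉ s → pr (some i) P = Y.1 ∧ Triv i P) := by
    intro s
    induction s using Finset.induction_on with
    | empty =>
      exact ⟨dgu Y.1, pr_dgu _ _, by simp, fun i _ => ⟨pr_dgu _ _, Triv.dgu i _⟩⟩
    | insert i s his ih =>
      obtain ⟨P, p1, p2, p3⟩ := ih
      obtain ⟨Q, q1, q2, q3, q4, q5⟩ := hgen i Y (hY i)
      have hYY : Y.1 * (Y⁻¹).1 = e := by rw [← hmul, mul_inv_cancel, hone]
      have hYY' : (Y⁻¹).1 * Y.1 = e := by rw [← hmul, inv_mul_cancel, hone]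
      refine ⟨P * (dgu (Y⁻¹).1 * Q), ?_, ?_, ?_⟩
      · rw [pr_mul, pr_mul, pr_dgu, p1, q1, hYY', hR]
      · intro j hj
        rcases Finset.mem_insert.mp hj with rfl | hjs
        · have h3 := p3 j his
          constructor
          · rw [pr_mul, pr_mul, pr_dgu, h3.1, q3, hR, hYY]
          · apply valid.mul
            · exact h3.2.valid _ _ _
            · apply valid.mul
              · exact (Triv.dgu j _).valid _ _ _
              · rw [pr_dgu, h3.1, hL, hYY]; exact q4
        · have hji : j ≠ i := fun h => his (h ▸ hjs)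
          have h2 := p2 j hjs
          constructor
          · rw [pr_mul, pr_mul, pr_dgu, h2.1, q2 j hji, hYY', hee]
          · apply valid.mul
            · rw [pr_mul, pr_dgu, q2 j hji, hYY', hee]; exact h2.2
            · exact ((Triv.dgu j _).mul (q5 j hji)).valid _ _ _
      · intro j hj
        have hji : j ≠ i := fun h => hj (h ▸ Finset.mem_insert_self _ _)
        have hjs : j ∉ s := fun h => hj (Finset.mem_insert_of_mem h)
        have h3 := p3 j hjs
        constructor
        · rw [pr_mul, pr_mul, pr_dgu, h3.1, q2 j hji, hYY', hR]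
        · exact h3.2.mul ((Triv.dgu j _).mul (q5 j hji))
  obtain ⟨P, p1, p2, -⟩ := hall Finset.univ
  -- choose actual words
  have hval : ∀ᶠ p in (P : Filter (List (PO n))), vl pv (p.map (ev none)) = π Y := by
    have := hπ Y
    unfold HasV at this
    rw [← p1] at this
    unfold pr at this
    rwa [ev_map] at this
  have hvali : ∀ᶠ p in (P : Filter (List (PO n))), ∀ i, vl pv (p.map (ev (some i))) = 1 := by
    rw [eventually_all]
    intro i
    have := E.val
    unfold HasV at this
    rw [← (p2 i (Finset.mem_univ i)).1] at this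
    unfold pr at this
    rwa [ev_map] at this
  have hcond : ∀ᶠ a in (e : Filter (List Om)), ∀ᶠ p in (P : Filter (List (PO n))),
      ∀ᶠ b in (e : Filter (List Om)), ∀ i, cond lam i a p b := by
    have h1 : ∀ᶠ a in (e : Filter (List Om)), ∀ i, ∀ᶠ p in (P : Filter (List (PO n))),
        ∀ᶠ b in (e : Filter (List Om)), cond lam i a p b := by
      rw [eventually_all]
      exact fun i => (p2 i (Finset.mem_univ i)).2
    filter_upwards [h1] with a ha
    have h2 : ∀ᶠ p in (P : Filter (List (PO n))), ∀ i, ∀ᶠ b in (e : Filter (List Om)),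
        cond lam i a p b := by
      rw [eventually_all]; exact ha
    filter_upwards [h2] with p hp
    rw [eventually_all]; exact hp
  have hE : ∀ᶠ a in (e : Filter (List Om)), vl pv a = 1 := E.val
  obtain ⟨a, ha1, ha2⟩ := (hE.and hcond).exists
  obtain ⟨p, hp1, hp2, hp3⟩ := (hval.and (hvali.and ha2)).exists
  obtain ⟨b, hb1, hb2⟩ := (hE.and hp3).exists
  have hfin := hstar (a ++ p.map (ev none) ++ b) (fun i => ⟨a ++ p.map (ev (some i)) ++ b, by
    rw [vl_append, vl_append, ha1, hb1, hp2 i, one_mul, one_mul], disp_of_cond lam i a p b (hb2 i)⟩)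
  rw [vl_append, vl_append, ha1, hb1, hp1, one_mul, mul_one] at hfin
  exact hfin

end Pool.Agent.Helper59.PCF
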