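import Mathlib
import Pool.Agent.Helper59.PCF.Words

set_option autoImplicit false

namespace Pool.Agent.Helper59.PCF

open Monoid

namespace FreeP

section general

variable {ι : Type} {M : ι → Type} [∀ i, Group (M i)] [DecidableEq ι] [∀ i, DecidableEq (M i)]

theorem ne_prod_ne_one {i j : ι} (w : CoprodI.NeWord M i j) : w.prod ≠ 1 := by
  intro h
  have h1 : w.toWord.prod = (CoprodI.Word.empty : CoprodI.Word M).prod := by
    rw [CoprodI.Word.prod_empty]; exact h
  have h2 := CoprodI.Word.equiv.symm.injective (a₁ := w.toWord) (a₂ := CoprodI.Word.empty) h1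
  have h3 := congrArg CoprodI.Word.toList h2
  exact w.toList_ne_nil h3

theorem exists_ne {g : CoprodI M} (hg : g ≠ 1) : ∃ (i j : ι) (w : CoprodI.NeWord M i j),
    w.prod = g := by
  have h : CoprodI.Word.equiv g ≠ CoprodI.Word.empty := by
    intro h
    apply hg
    have h2 := congrArg CoprodI.Word.equiv.symm h
    rw [Equiv.symm_apply_apply] at h2
    rw [h2]
    exact CoprodI.Word.prod_empty
  obtain ⟨i, j, w, hw⟩ := CoprodI.NeWord.of_word _ h
  refine ⟨i, j, w, ?_⟩
  have : CoprodI.Word.equiv.symm w.toWord = g := by rw [hw, Equiv.symm_apply_apply]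
  exact this

theorem map_injective (f : ∀ i, M i →* M i) (hf : ∀ i, Function.Injective (f i)) :
    Function.Injective (CoprodI.lift (fun i => (CoprodI.of : M i →* CoprodI M).comp (f i))) := by
  rw [injective_iff_map_eq_one]
  intro g hg
  by_contra hne
  obtain ⟨i, j, w, rfl⟩ := exists_ne hne
  have key : ∀ {i j : ι} (w : CoprodI.NeWord M i j), ∃ w' : CoprodI.NeWord M i j,
      w'.prod = CoprodI.lift (fun i => (CoprodI.of : M i →* CoprodI M).comp (f i)) w.prod := by
    intro i j w
    induction w with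
    | @singleton i x hx =>
      refine ⟨CoprodI.NeWord.singleton (f i x) ?_, ?_⟩
      · intro h; exact hx ((injective_iff_map_eq_one (f i)).mp (hf i) x h)
      · simp
    | append w₁ hne w₂ ih1 ih2 =>
      obtain ⟨u1, h1⟩ := ih1
      obtain ⟨u2, h2⟩ := ih2
      exact ⟨CoprodI.NeWord.append u1 hne u2, by simp [h1, h2]⟩
  obtain ⟨w', hw'⟩ := key w
  rw [hg] at hw'
  exact ne_prod_ne_one w' hw'

theorem uncons {i j : ι} (w : CoprodI.NeWord M i j) :
    (i = j ∧ ∃ x : M i, w.prod = CoprodI.of x) ∨ ∃ (k : ι) (_ : i ≠ k) (x : M i)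
      (w' : CoprodI.NeWord M k j), w.prod = CoprodI.of x * w'.prod := by
  induction w with
  | @singleton i x hx => exact Or.inl ⟨rfl, x, by simp⟩
  | @append i j k l w₁ hne w₂ ih1 ih2 =>
    rcases ih1 with ⟨rfl, x, hx⟩ | ⟨k', hk', x, w', hw'⟩
    · exact Or.inr ⟨k, hne, x, w₂, by simp [hx]⟩
    · exact Or.inr ⟨k', hk', x, CoprodI.NeWord.append w' hne w₂, by simp [hw', mul_assoc]⟩

theorem unsnoc {i j : ι} (w : CoprodI.NeWord M i j) :
    (i = j ∧ ∃ x : M j, w.prod = CoprodI.of x) ∨ ∃ (k : ι) (_ : k ≠ j) (x : M j)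
      (w' : CoprodI.NeWord M i k), w.prod = w'.prod * CoprodI.of x := by
  rcases uncons w.inv with ⟨h, x, hx⟩ | ⟨k, hk, x, w', hw'⟩
  · refine Or.inl ⟨h.symm, x⁻¹, ?_⟩
    rw [CoprodI.NeWord.inv_prod] at hx
    rw [map_inv, ← hx, inv_inv]
  · refine Or.inr ⟨k, hk.symm, x⁻¹, w'.inv, ?_⟩
    rw [CoprodI.NeWord.inv_prod] at hw'
    rw [CoprodI.NeWord.inv_prod, map_inv, ← mul_inv_rev, ← hw', inv_inv]

theorem pow_ne {i j : ι} (hij : j ≠ i) (w : CoprodI.NeWord M i j) (m : ℕ) (hm : 1 ≤ m) :
    w.prod ^ m ≠ 1 := by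
  have : ∀ m, 1 ≤ m → ∃ w' : CoprodI.NeWord M i j, w'.prod = w.prod ^ m := by
    intro m hm
    induction m, hm using Nat.le_induction with
    | base => exact ⟨w, by simp⟩
    | succ m _ ih =>
      obtain ⟨w', hw'⟩ := ih
      exact ⟨CoprodI.NeWord.append w' hij w, by rw [CoprodI.NeWord.append_prod, hw', pow_succ]⟩
  obtain ⟨w', hw'⟩ := this m hm
  rw [← hw']
  exact ne_prod_ne_one w'

end general

section two

variable {M : Bool → Type} [∀ i, Group (M i)] [∀ i, DecidableEq (M i)]

theorem decomp (g : CoprodI M) : (∃ a : M true, g = CoprodI.of a) ∨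
    ∃ (a a' : M true) (w : CoprodI.NeWord M false false),
      g = CoprodI.of a * w.prod * CoprodI.of a' := by
  by_cases hg : g = 1
  · exact Or.inl ⟨1, by simp [hg]⟩
  obtain ⟨i, j, w, rfl⟩ := exists_ne hg
  -- strip the last letter
  have right : ∀ j, ∀ w : CoprodI.NeWord M false j, ∃ (a' : M true)
      (w' : CoprodI.NeWord M false false), w.prod = w'.prod * CoprodI.of a' := by
    intro j w
    rcases j with _ | _
    · exact ⟨1, w, by simp⟩
    · rcases unsnoc w with ⟨h, _⟩ | ⟨k, hk, x, w', hw'⟩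
      · simp at h
      · obtain rfl : k = false := by simpa using hk
        exact ⟨x, w', hw'⟩
  rcases i with _ | _
  · obtain ⟨a', w', h⟩ := right j w
    exact Or.inr ⟨1, a', w', by simp [h]⟩
  · rcases uncons w with ⟨_, x, hx⟩ | ⟨k, hk, x, w', hw'⟩
    · exact Or.inl ⟨x, hx⟩
    · obtain rfl : k = false := by simpa using hk.symm
      obtain ⟨a', w'', h⟩ := right j w'
      exact Or.inr ⟨x, a', w'', by rw [hw', h, mul_assoc]⟩

/-- commutators with elements outside `A` have infinite order -/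
theorem comm_pow_ne (hcomm : ∀ a b : M true, a * b = b * a) (x : M true) (hx : x ≠ 1)
    (g : CoprodI M) (hg : ∀ a : M true, g ≠ CoprodI.of a) (m : ℕ) (hm : 1 ≤ m) :
    (CoprodI.of x * g * (CoprodI.of x)⁻¹ * g⁻¹) ^ m ≠ 1 := by
  rcases decomp g with ⟨a, ha⟩ | ⟨a, a', w, hw⟩
  · exact absurd ha (hg a)
  have hx' : x⁻¹ ≠ 1 := inv_ne_one.mpr hx
  let u : CoprodI.NeWord M true false := CoprodI.NeWord.append
    (CoprodI.NeWord.append (CoprodI.NeWord.append (CoprodI.NeWord.singleton x hx) (by simp) w)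
      (by simp) (CoprodI.NeWord.singleton x⁻¹ hx')) (by simp) w.inv
  have e : CoprodI.of x * g * (CoprodI.of x)⁻¹ * g⁻¹ = CoprodI.of a * u.prod * (CoprodI.of a)⁻¹ := by
    have h1 : (CoprodI.of x : CoprodI M) * CoprodI.of a = CoprodI.of a * CoprodI.of x := by
      rw [← map_mul, hcomm, map_mul]
    have h2 : (CoprodI.of a' : CoprodI M) * (CoprodI.of x)⁻¹ = (CoprodI.of x)⁻¹ * CoprodI.of a' := by
      rw [← map_inv, ← map_mul, hcomm, map_mul]
    simp only [u, CoprodI.NeWord.append_prod, CoprodI.NeWord.prod_singleton,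
      CoprodI.NeWord.inv_prod, map_inv]
    rw [hw]
    calc (CoprodI.of x : CoprodI M) * (CoprodI.of a * w.prod * CoprodI.of a') *
          (CoprodI.of x)⁻¹ * (CoprodI.of a * w.prod * CoprodI.of a')⁻¹
        = (CoprodI.of x * CoprodI.of a) * w.prod * (CoprodI.of a' * (CoprodI.of x)⁻¹) *
          (CoprodI.of a * w.prod * CoprodI.of a')⁻¹ := by group
      _ = _ := by rw [h1, h2]; group
  rw [e]
  intro h
  have : (CoprodI.of a * u.prod * (CoprodI.of a)⁻¹) ^ m =
      CoprodI.of a * u.prod ^ m * (CoprodI.of a)⁻¹ := conj_pow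
  rw [this, mul_inv_eq_one, mul_eq_left] at h
  exact pow_ne (by simp) u m hm h

theorem conj_notMem (c : M false) (hc : c ≠ 1) (x : M true) (hx : x ≠ 1) (a : M true) :
    (CoprodI.of c : CoprodI M) * CoprodI.of x * (CoprodI.of c)⁻¹ ≠ CoprodI.of a := by
  intro h
  have hc' : c⁻¹ ≠ 1 := inv_ne_one.mpr hc
  let u : CoprodI.NeWord M false false := CoprodI.NeWord.append
    (CoprodI.NeWord.append (CoprodI.NeWord.singleton c hc) (by simp)
      (CoprodI.NeWord.singleton x hx)) (by simp) (CoprodI.NeWord.singleton c⁻¹ hc')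
  have hu : u.prod = CoprodI.of c * CoprodI.of x * (CoprodI.of c)⁻¹ := by
    simp [u]
  rw [← hu] at h
  by_cases ha : a = 1
  · rw [ha, map_one] at h
    exact ne_prod_ne_one u h
  · let v : CoprodI.NeWord M false true := CoprodI.NeWord.append u (by simp)
      (CoprodI.NeWord.singleton a⁻¹ (inv_ne_one.mpr ha))
    have : v.prod = 1 := by
      simp [v, h]
    exact ne_prod_ne_one v this

end two

end FreeP

/-- the two factors -/
def KK : Bool → Type
  | true => Multiplicative (ℤ × ℤ)
  | false => Multiplicative ℤ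

instance : ∀ b, Group (KK b)
  | true => inferInstanceAs (Group (Multiplicative (ℤ × ℤ)))
  | false => inferInstanceAs (Group (Multiplicative ℤ))

noncomputable instance : ∀ b, DecidableEq (KK b) := fun _ => Classical.decEq _

abbrev HH' := CoprodI KK

def ofA : Multiplicative (ℤ × ℤ) →* HH' := CoprodI.of (M := KK) (i := true)
def ofC : Multiplicative ℤ →* HH' := CoprodI.of (M := KK) (i := false)

noncomputable def toH : GG →* HH' := Coprod.lift ofA ofC

noncomputable def toG : HH' →* GG := CoprodI.lift (fun b => match b with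
  | true => (Coprod.inl : Multiplicative (ℤ × ℤ) →* GG)
  | false => (Coprod.inr : Multiplicative ℤ →* GG))

theorem toG_ofA (x) : toG (ofA x) = Coprod.inl x := by
  unfold toG ofA
  exact CoprodI.lift_of (M := KK) _ (i := true) x

theorem toG_ofC (x) : toG (ofC x) = Coprod.inr x := by
  unfold toG ofC
  exact CoprodI.lift_of (M := KK) _ (i := false) x

theorem toH_inl (x) : toH (Coprod.inl x) = ofA x := by simp [toH]
theorem toH_inr (x) : toH (Coprod.inr x) = ofC x := by simp [toH]

theorem toG_toH (g : GG) : toG (toH g) = g := by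
  have : toG.comp toH = MonoidHom.id GG := by
    apply Coprod.hom_ext
    · apply MonoidHom.ext
      intro x
      simp [toH_inl, toG_ofA]
    · apply MonoidHom.ext
      intro x
      simp [toH_inr, toG_ofC]
  exact DFunLike.congr_fun this g

theorem toH_injective : Function.Injective toH := fun a b h => by
  rw [← toG_toH a, h, toG_toH]

theorem nsmul_inj (m : ℕ) (hm : 1 ≤ m) (v w : ℤ × ℤ) (h : m • v = m • w) : v = w := by
  obtain ⟨v1, v2⟩ := v
  obtain ⟨w1, w2⟩ := w
  have hm' : (m : ℤ) ≠ 0 := by omega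
  rw [Prod.smul_mk, Prod.smul_mk, Prod.mk.injEq, nsmul_eq_mul, nsmul_eq_mul, nsmul_eq_mul,
    nsmul_eq_mul] at h
  rw [Prod.mk.injEq]
  exact ⟨mul_left_cancel₀ hm' h.1, mul_left_cancel₀ hm' h.2⟩

theorem pow_inj' (m : ℕ) (hm : 1 ≤ m) (x y : Multiplicative (ℤ × ℤ)) (h : x ^ m = y ^ m) :
    x = y := nsmul_inj m hm _ _ h

theorem phiN_injective (N : ℕ) (hN : 1 ≤ N) : Function.Injective (phiN N) := by
  let f : ∀ b, KK b →* KK b := fun b => match b with
    | true => (powMonoidHom N : Multiplicative (ℤ × ℤ) →* Multiplicative (ℤ × ℤ))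
    | false => MonoidHom.id (Multiplicative ℤ)
  have hf : ∀ b, Function.Injective (f b) := by
    rintro (_ | _)
    · exact fun a b h => h
    · intro a b h
      exact pow_inj' N hN a b h
  have hinj := FreeP.map_injective f hf
  have e : ∀ g : GG, toH (phiN N g) =
      CoprodI.lift (fun i => (CoprodI.of : KK i →* CoprodI KK).comp (f i)) (toH g) := by
    intro g
    have : toH.comp (phiN N) = (CoprodI.lift (fun i =>
        (CoprodI.of : KK i →* CoprodI KK).comp (f i))).comp toH := by
      apply Coprod.hom_ext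
      · apply MonoidHom.ext
        intro x
        simp only [MonoidHom.comp_apply, toH_inl, phiN, Coprod.map_apply_inl]
        exact (CoprodI.lift_of (fun i => (CoprodI.of : KK i →* CoprodI KK).comp (f i))
          (i := true) x).symm
      · apply MonoidHom.ext
        intro x
        simp only [MonoidHom.comp_apply, toH_inr, phiN, Coprod.map_apply_inr]
        exact (CoprodI.lift_of (fun i => (CoprodI.of : KK i →* CoprodI KK).comp (f i))
          (i := false) x).symm
    exact DFunLike.congr_fun this g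
  intro a b h
  apply toH_injective
  apply hinj
  rw [← e, ← e, h]

/-- the facts about the group used later -/
structure Facts (G : Type) [Group G] (A : Subgroup G) (c : G) : Prop where
  comm : ∀ x ∈ A, ∀ y ∈ A, x * y = y * x
  conj : ∀ j : ℤ, j ≠ 0 → ∀ x ∈ A, c ^ j * x * (c ^ j)⁻¹ ∈ A → x = 1
  cpow : ∀ x ∈ A, x ≠ 1 → ∀ g, g ∉ A → ∀ m : ℕ, 1 ≤ m → (x * g * x⁻¹ * g⁻¹) ^ m ≠ 1
  tf : ∀ x ∈ A, x ≠ 1 → ∀ m : ℕ, 1 ≤ m → x ^ m ≠ 1

noncomputable def AA : Subgroup GG := (Coprod.inl : Multiplicative (ℤ × ℤ) →* GG).range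

noncomputable def cG : GG := Coprod.inr (Multiplicative.ofAdd (1 : ℤ))

theorem facts : Facts GG AA cG where
  comm := by
    rintro _ ⟨x, rfl⟩ _ ⟨y, rfl⟩
    rw [← map_mul, mul_comm, map_mul]
  conj := by
    rintro j hj _ ⟨x, rfl⟩ ⟨a, ha⟩
    by_contra hne
    have hx : x ≠ 1 := fun h => hne (by rw [h, map_one])
    have hc : (Multiplicative.ofAdd (1 : ℤ)) ^ j ≠ 1 := by
      rw [← ofAdd_zsmul]
      intro h
      apply hj
      have := congrArg Multiplicative.toAdd h
      simpa using this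
    have := FreeP.conj_notMem (M := KK) ((Multiplicative.ofAdd (1 : ℤ)) ^ j) hc x hx a
    apply this
    have h2 := congrArg toH ha
    rw [map_mul, map_mul, map_inv, toH_inl, toH_inl, cG, ← map_zpow, toH_inr] at h2
    exact h2.symm
  cpow := by
    rintro _ ⟨x, rfl⟩ hne g hg m hm h
    have hx : x ≠ 1 := fun h => hne (by rw [h, map_one])
    have := FreeP.comm_pow_ne (M := KK) (fun a b => mul_comm (G := Multiplicative (ℤ × ℤ)) a b)
      x hx (toH g) (by
        intro a ha
        apply hg
        refine ⟨a, ?_⟩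
        apply toH_injective
        exact (toH_inl a).trans ha.symm) m hm
    apply this
    have h2 := congrArg toH h
    rw [map_pow, map_mul, map_mul, map_mul, map_inv, map_inv, toH_inl, map_one] at h2
    exact h2
  tf := by
    rintro _ ⟨x, rfl⟩ hne m hm h
    have hx : x ≠ 1 := fun h => hne (by rw [h, map_one])
    rw [← map_pow] at h
    have h2 := congrArg toH h
    rw [toH_inl, map_one] at h2
    have h3 : x ^ m = 1 := by
      have h4 : (CoprodI.of (M := KK) (i := true) (x ^ m : Multiplicative (ℤ × ℤ))) =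
        CoprodI.of (M := KK) (i := true) (1 : Multiplicative (ℤ × ℤ)) := h2.trans (map_one ofA).symm
      exact CoprodI.of_injective (M := KK) true h4
    exact hx (pow_inj' m hm x 1 (by rw [h3, one_pow]))

end Pool.Agent.Helper59.PCF
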