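import Mathlib
import Pool.Agent.Helper59.PCF.MinId

set_option autoImplicit false

namespace Pool.Agent.Helper59.PCF

open Filter

attribute [local instance] listSg Ultrafilter.semigroup

/-- all blanks sit at places where `θ` takes the value `l` -/
def ok {Λ : Type} (θ : ℕ → Λ) (l : Λ) : ℕ → List (Option Λ) → Prop
  | _, [] => True
  | k, none :: w => θ k = l ∧ ok θ l k w
  | k, some _ :: w => ok θ l (k + 1) w

def bs {Λ : Type} (w : List (Option Λ)) : List Λ := w.reduceOption

def ins {Λ : Type} (l : Λ) (w : List (Option Λ)) : List Λ := w.map (fun o => o.getD l)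

section

variable {Λ : Type}

theorem bs_append (a b : List (Option Λ)) : bs (a ++ b) = bs a ++ bs b :=
  List.reduceOption_append a b

theorem bs_some (a : List Λ) : bs (a.map some) = a := by
  unfold bs
  induction a with
  | nil => rfl
  | cons x a ih => simpa using ih

theorem bs_none_cons (a : List (Option Λ)) : bs (none :: a) = bs a := by simp [bs]

theorem bs_some_cons (x : Λ) (a : List (Option Λ)) : bs (some x :: a) = x :: bs a := by simp [bs]

theorem ins_append (l : Λ) (a b : List (Option Λ)) : ins l (a ++ b) = ins l a ++ ins l b := by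
  simp [ins]

theorem ins_some (l : Λ) (a : List Λ) : ins l (a.map some) = a := by
  induction a with
  | nil => rfl
  | cons x a ih => simp_all [ins]

theorem ok_append (θ : ℕ → Λ) (l : Λ) (k : ℕ) (a b : List (Option Λ)) :
    ok θ l k (a ++ b) ↔ ok θ l k a ∧ ok θ l (k + (bs a).length) b := by
  induction a generalizing k with
  | nil => simp [ok, bs]
  | cons o a ih =>
    cases o with
    | none =>
      simp only [List.cons_append, ok, bs_none_cons, ih, and_assoc]
    | some x =>
      simp only [List.cons_append, ok, bs_some_cons, ih, List.length_cons]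
      rw [show k + 1 + (bs a).length = k + ((bs a).length + 1) by ring]

theorem ok_some (θ : ℕ → Λ) (l : Λ) (k : ℕ) (a : List Λ) : ok θ l k (a.map some) := by
  induction a generalizing k with
  | nil => trivial
  | cons x a ih => exact ih (k + 1)

theorem mul_def (a b : List Λ) : a * b = a ++ b := rfl

theorem rw_lemma {κ : Type} [Finite Λ] [Finite κ] (C : List Λ → κ) :
    ∃ Q : List Λ, ∀ θ : ℕ → Λ, ∃ (l : Λ) (w : List (Option Λ)), none ∈ w ∧ bs w = Q ∧
      ok θ l 0 w ∧ C (ins l w) = C Q := by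
  by_contra hcon
  push Not at hcon
  choose θ hθ using hcon
  obtain ⟨L, e, -, hLc, heL, hee, hLid, hLmin⟩ := exists_min_left_ideal
    (M := Ultrafilter (List Λ)) Ultrafilter.continuous_mul_left Set.univ isClosed_univ
    ⟨pure [], trivial⟩ (fun _ _ _ _ => trivial)
  have he2 : ∀ P : List Λ → Prop, (∀ᶠ u in (e : Filter (List Λ)), P u) ↔
      ∀ᶠ v in (e : Filter (List Λ)), ∀ᶠ w in (e : Filter (List Λ)), P (v ++ w) := by
    intro P
    conv_lhs => rw [← hee]
    exact Ultrafilter.eventually_mul e e P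
  obtain ⟨φ, hφ⟩ : ∃ φ, ∀ᶠ Q in (e : Filter (List Λ)), C Q = φ :=
    Ultrafilter.eventually_exists_iff.mp (Eventually.of_forall fun Q => ⟨C Q, rfl⟩)
  have hl1 : ∀ v : List Λ, ∃ l, ∀ᶠ w in (e : Filter (List Λ)), θ (v ++ w) v.length = l :=
    fun v => Ultrafilter.eventually_exists_iff.mp (Eventually.of_forall fun Q => ⟨_, rfl⟩)
  choose lv hlv using hl1
  obtain ⟨l, hl⟩ : ∃ l, ∀ᶠ v in (e : Filter (List Λ)), lv v = l :=
    Ultrafilter.eventually_exists_iff.mp (Eventually.of_forall fun Q => ⟨_, rfl⟩)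
  let P : List (Option Λ) → List Λ → List Λ → Prop := fun Z v w =>
    C (bs Z ++ v ++ w) = φ ∧ θ (bs Z ++ v ++ w) (bs Z ++ v).length = l ∧
      ok (θ (bs Z ++ v ++ w)) l 0 Z
  let State : List (Option Λ) → Prop := fun Z =>
    ∀ᶠ v in (e : Filter (List Λ)), ∀ᶠ w in (e : Filter (List Λ)), P Z v w
  -- initial states
  have hinit : ∀ᶠ u in (e : Filter (List Λ)), State (u.map some) := by
    have h1 : ∀ᶠ u in (e : Filter (List Λ)), ∀ᶠ v in (e : Filter (List Λ)),
        ∀ᶠ w in (e : Filter (List Λ)), C (u ++ v ++ w) = φ := by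
      have := (he2 _).mp ((he2 _).mp hφ)
      exact this
    have h2 : ∀ᶠ u in (e : Filter (List Λ)), ∀ᶠ v in (e : Filter (List Λ)),
        ∀ᶠ w in (e : Filter (List Λ)), θ (u ++ v ++ w) (u ++ v).length = l := by
      have h3 : ∀ᶠ v in (e : Filter (List Λ)), ∀ᶠ w in (e : Filter (List Λ)),
          θ (v ++ w) v.length = l := by
        filter_upwards [hl] with v hv
        filter_upwards [hlv v] with w hw
        rw [hw, hv]
      exact (he2 _).mp h3
    filter_upwards [h1, h2] with u h1 h2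
    filter_upwards [h1, h2] with v h1 h2
    filter_upwards [h1, h2] with w h1 h2
    simp only [P, bs_some]
    exact ⟨h1, h2, ok_some _ _ _ _⟩
  let Ext : Set (List Λ) → List (Option Λ) → Prop := fun A Z =>
    ∃ ω : List (Option Λ), none ∈ ω ∧ ins l ω ∈ A ∧ State (Z ++ ω)
  let MM : Set (Ultrafilter (List Λ)) := {p | p ∈ L ∧ ∀ A ∈ p, ∀ Z, State Z → Ext A Z}
  have hMclosed : IsClosed MM := by
    have : MM = L ∩ ⋂ (A : Set (List Λ)), ⋂ (Z : List (Option Λ)), ⋂ (_ : State Z),
        ⋂ (_ : ¬ Ext A Z), {p : Ultrafilter (List Λ) | Aᶜ ∈ p} := by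
      ext p
      simp only [MM, Set.mem_inter_iff, Set.mem_iInter, Set.mem_ofPred_eq,
        Ultrafilter.compl_mem_iff_notMem]
      constructor
      · rintro ⟨h1, h2⟩
        exact ⟨h1, fun A Z hZ hE hA => hE (h2 A hA Z hZ)⟩
      · rintro ⟨h1, h2⟩
        exact ⟨h1, fun A hA Z hZ => by_contra fun hE => h2 A Z hZ hE hA⟩
    rw [this]
    refine hLc.inter ?_
    exact isClosed_iInter fun A => isClosed_iInter fun Z => isClosed_iInter fun _ =>
      isClosed_iInter fun _ => ultrafilter_isClosed_basic _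
  have hMmul : ∀ p ∈ MM, ∀ q ∈ MM, p * q ∈ MM := by
    rintro p ⟨hp1, hp2⟩ q ⟨hq1, hq2⟩
    refine ⟨hLid p trivial q hq1, fun A hA Z hZ => ?_⟩
    have hA' : {u | {w | u ++ w ∈ A} ∈ q} ∈ p := (Ultrafilter.eventually_mul p q (· ∈ A)).mp hA
    obtain ⟨ω, h1, h2, h3⟩ := hp2 _ hA' Z hZ
    obtain ⟨ω', h1', h2', h3'⟩ := hq2 _ h2 (Z ++ ω) h3
    refine ⟨ω ++ ω', List.mem_append_left _ h1, ?_, by rwa [← List.append_assoc]⟩
    rw [ins_append]
    exact h2'
  have hMne : e * (pure [l] : Ultrafilter (List Λ)) * e ∈ MM := by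
    refine ⟨hLid _ trivial e heL, fun A hA Z hZ => ?_⟩
    have hA' : ∀ᶠ v in (e : Filter (List Λ)), ∀ᶠ w in (e : Filter (List Λ)),
        v ++ [l] ++ w ∈ A := by
      have h1 := (Ultrafilter.eventually_mul (e * pure [l]) e (· ∈ A)).mp hA
      have h2 := (Ultrafilter.eventually_mul e (pure [l]) _).mp h1
      filter_upwards [h2] with v hv
      exact hv
    have H1 : ∀ᶠ v in (e : Filter (List Λ)), ∀ᶠ w in (e : Filter (List Λ)),
        ∀ᶠ v' in (e : Filter (List Λ)), ∀ᶠ w' in (e : Filter (List Λ)),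
          P Z v (w ++ (v' ++ w')) := by
      filter_upwards [hZ] with v hv
      have h1 := (he2 _).mp hv
      filter_upwards [h1] with w hw
      exact (he2 _).mp hw
    have H2 : ∀ᶠ v in (e : Filter (List Λ)), ∀ᶠ w in (e : Filter (List Λ)),
        ∀ᶠ v' in (e : Filter (List Λ)), ∀ᶠ w' in (e : Filter (List Λ)),
          P Z (v ++ (w ++ v')) w' := by
      have h1 := (he2 _).mp hZ
      filter_upwards [h1] with v hv
      exact (he2 _).mp hv
    obtain ⟨v, h1, h2, h3⟩ := (hA'.and (H1.and H2)).exists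
    obtain ⟨w, h1, h2, h3⟩ := (h1.and (h2.and h3)).exists
    refine ⟨v.map some ++ none :: w.map some, by simp, ?_, ?_⟩
    · have : ins l (v.map some ++ none :: w.map some) = v ++ [l] ++ w := by
        rw [ins_append, ins_some, List.append_assoc]
        congr 1
        have : ins l (none :: w.map some) = l :: ins l (w.map some) := rfl
        rw [this, ins_some]; rfl
      rw [this]
      exact h1
    · have hbs : bs (Z ++ (v.map some ++ none :: w.map some)) = bs Z ++ v ++ w := by
        rw [bs_append, bs_append, bs_none_cons, bs_some, bs_some, List.append_assoc]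
      filter_upwards [h2, h3] with v' h2 h3
      filter_upwards [h2, h3] with w' h2 h3
      simp only [P] at h2 h3 ⊢
      rw [hbs]
      have e1 : bs Z ++ v ++ w ++ v' ++ w' = bs Z ++ v ++ (w ++ (v' ++ w')) := by
        simp [List.append_assoc]
      have e2 : bs Z ++ (v ++ (w ++ v')) ++ w' = bs Z ++ v ++ (w ++ (v' ++ w')) := by
        simp [List.append_assoc]
      have e3 : bs Z ++ v ++ w ++ v' = bs Z ++ (v ++ (w ++ v')) := by
        simp [List.append_assoc]
      rw [e1]
      rw [e2] at h3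
      refine ⟨h2.1, ?_, ?_⟩
      · rw [e3]; exact h3.2.1
      · rw [ok_append, ok_append]
        refine ⟨h2.2.2, ok_some _ _ _ _, ?_, ok_some _ _ _ _⟩
        rw [bs_some]
        have := h2.2.1
        rw [List.length_append] at this
        rw [← this]
        congr 1
        ring
  obtain ⟨e', ⟨he'L, he'⟩, hee'⟩ := exists_idempotent_in_compact_subsemigroup
    (M := Ultrafilter (List Λ)) Ultrafilter.continuous_mul_left MM ⟨_, hMne⟩ hMclosed.isCompact
    hMmul
  have hR : e * e' = e := by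
    obtain ⟨q, -, hq⟩ := hLmin e' he'L e heL
    rw [← hq, mul_assoc, hee']
  -- final contradiction
  have hA : ∀ᶠ u in (e : Filter (List Λ)), ∀ᶠ w0 in (e' : Filter (List Λ)),
      ∀ᶠ v in (e : Filter (List Λ)), ∀ᶠ w in (e : Filter (List Λ)),
        C (u ++ w0 ++ (v ++ w)) = φ := by
    have h1 : ∀ᶠ u in (e : Filter (List Λ)), ∀ᶠ v in (e : Filter (List Λ)),
        ∀ᶠ w in (e : Filter (List Λ)), C (u ++ (v ++ w)) = φ := by
      filter_upwards [(he2 _).mp hφ] with u hu
      exact (he2 _).mp hu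
    have h2 : ∀ᶠ u in ((e * e' : Ultrafilter (List Λ)) : Filter (List Λ)),
        ∀ᶠ v in (e : Filter (List Λ)), ∀ᶠ w in (e : Filter (List Λ)), C (u ++ (v ++ w)) = φ := by
      rw [hR]; exact h1
    exact (Ultrafilter.eventually_mul e e' _).mp h2
  obtain ⟨u, hu1, hu2⟩ := (hinit.and hA).exists
  obtain ⟨ω, h1, h2, h3⟩ := he' _ hu2 (u.map some) hu1
  obtain ⟨v, h4, h5⟩ := (Filter.Eventually.and h2 h3).exists
  obtain ⟨w, h4, h5⟩ := (h4.and h5).exists
  simp only [P] at h5
  have hbs : bs (u.map some ++ ω) ++ v ++ w = bs (u.map some ++ ω ++ (v ++ w).map some) := by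
    rw [bs_append (u.map some ++ ω), bs_some, List.append_assoc]
  rw [hbs] at h5
  refine hθ (bs (u.map some ++ ω ++ (v ++ w).map some)) l
    (u.map some ++ ω ++ (v ++ w).map some) ?_ rfl ?_ ?_
  · simp [h1]
  · rw [ok_append]
    exact ⟨h5.2.2, ok_some _ _ _ _⟩
  · rw [h5.1, ins_append, ins_append, ins_some, ins_some]
    exact h4

end

end Pool.Agent.Helper59.PCF
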