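import Mathlib
import Pool.Agent.Helper59.PCF.RW
import Pool.Agent.Helper59.PCF.Free

set_option autoImplicit false

namespace Pool.Agent.Helper59.PCF

section

variable {Γ Z : Type} [Group Γ] (z : Z → Γ)

/-- the subgroup attached to a choice of letters -/
def NF (F : Γ → Z) : Subgroup Γ := Subgroup.closure {g | ∃ A, g = A * z (F A) * A⁻¹}

def zp (Q : List Z) : Γ := (Q.map z).prod

theorem zp_append (a b : List Z) : zp z (a ++ b) = zp z a * zp z b := by simp [zp]

theorem zp_cons (a : Z) (b : List Z) : zp z (a :: b) = z a * zp z b := by simp [zp]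

theorem NF_conj (F : Γ → Z) (g φ : Γ) (h : φ ∈ NF z (fun A => F (g * A))) :
    g * φ * g⁻¹ ∈ NF z F := by
  unfold NF at h
  induction h using Subgroup.closure_induction with
  | mem x hx =>
    obtain ⟨A, rfl⟩ := hx
    exact Subgroup.subset_closure ⟨g * A, by group⟩
  | one => rw [mul_one, mul_inv_cancel]; exact one_mem _
  | mul x y _ _ hx hy =>
    have : g * (x * y) * g⁻¹ = (g * x * g⁻¹) * (g * y * g⁻¹) := by group
    rw [this]; exact mul_mem hx hy
  | inv x _ hx =>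
    have : g * x⁻¹ * g⁻¹ = (g * x * g⁻¹)⁻¹ := by group
    rw [this]; exact inv_mem hx

theorem NF_eventually [TopologicalSpace Z] [DiscreteTopology Z] (f : Γ → Z) (φ : Γ)
    (h : φ ∈ NF z f) : ∀ᶠ f' in nhds f, φ ∈ NF z f' := by
  unfold NF at h
  induction h using Subgroup.closure_induction with
  | mem x hx =>
    obtain ⟨A, rfl⟩ := hx
    have h1 : ∀ᶠ f' in nhds f, f' A = f A := by
      have h2 : ContinuousAt (fun f' : Γ → Z => f' A) f := (continuous_apply A).continuousAt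
      have h3 : ({f A} : Set Z) ∈ nhds (f A) := (isOpen_discrete _).mem_nhds rfl
      exact h2 h3
    filter_upwards [h1] with f' hf'
    exact Subgroup.subset_closure ⟨A, by rw [hf']⟩
  | one => exact Filter.Eventually.of_forall fun f' => one_mem _
  | mul x y _ _ hx hy =>
    filter_upwards [hx, hy] with f' h1 h2
    exact mul_mem h1 h2
  | inv x _ hx =>
    filter_upwards [hx] with f' h1
    exact inv_mem h1

theorem exists_finset [Finite Z] (k : ℕ) (E : Γ → Prop)
    (h : ∀ F : Fin k → Γ → Z, ∃ Y : Γ, (∀ i, Y ∈ NF z (F i)) ∧ E Y) :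
    ∃ Φ : Finset Γ, ∀ F : Fin k → Γ → Z, ∃ Y ∈ Φ, (∀ i, Y ∈ NF z (F i)) ∧ E Y := by
  let _ : TopologicalSpace Z := ⊥
  have : DiscreteTopology Z := ⟨rfl⟩
  let U : Γ → Set (Fin k → Γ → Z) := fun Y => {F | (∀ i, Y ∈ NF z (F i)) ∧ E Y}
  have hU : ∀ Y, IsOpen (U Y) := by
    intro Y
    rw [isOpen_iff_mem_nhds]
    rintro F ⟨h1, h2⟩
    have : ∀ i, ∀ᶠ F' in nhds F, Y ∈ NF z (F' i) := by
      intro i
      have h3 := NF_eventually z (F i) Y (h1 i)
      exact (continuous_apply i).continuousAt.eventually h3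
    have h4 : ∀ᶠ F' in nhds F, ∀ i, Y ∈ NF z (F' i) := Filter.eventually_all.mpr this
    filter_upwards [h4] with F' hF'
    exact ⟨hF', h2⟩
  obtain ⟨t, ht⟩ := isCompact_univ.elim_finite_subcover U hU (by
    intro F _
    obtain ⟨Y, hY⟩ := h F
    exact Set.mem_iUnion.mpr ⟨Y, hY⟩)
  refine ⟨t, fun F => ?_⟩
  have := ht (Set.mem_univ F)
  simp only [Set.mem_iUnion] at this
  obtain ⟨Y, hY, hF⟩ := this
  exact ⟨Y, hY, hF⟩

theorem ins_mem (F : Γ → Z) (h : Γ) (l : Z) (Q : List Z) (θ : ℕ → Z)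
    (hθ : ∀ j, θ j = F (h * zp z (Q.take j))) (w : List (Option Z)) : ∀ P : List Z,
    Q = P ++ bs w → ok θ l P.length w →
    (h * zp z P) * (zp z (ins l w) * (zp z (bs w))⁻¹) * (h * zp z P)⁻¹ ∈ NF z F := by
  induction w with
  | nil =>
    intro P _ _
    have : (h * zp z P) * (zp z (ins l []) * (zp z (bs []))⁻¹) * (h * zp z P)⁻¹ = 1 := by
      simp [ins, bs, zp]
    rw [this]; exact one_mem _
  | cons o w ih =>
    intro P hP hok
    cases o with
    | none =>
      obtain ⟨h1, h2⟩ := hok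
      rw [bs_none_cons] at hP ⊢
      have e1 : ins l (none :: w) = l :: ins l w := rfl
      have e2 : F (h * zp z P) = l := by
        rw [← h1, hθ, hP, List.take_left']
        rfl
      rw [e1, zp_cons]
      have e3 : (h * zp z P) * (z l * zp z (ins l w) * (zp z (bs w))⁻¹) * (h * zp z P)⁻¹ =
          ((h * zp z P) * z l * (h * zp z P)⁻¹) *
            ((h * zp z P) * (zp z (ins l w) * (zp z (bs w))⁻¹) * (h * zp z P)⁻¹) := by group
      rw [e3]
      refine mul_mem (Subgroup.subset_closure ⟨h * zp z P, by rw [e2]⟩) (ih P hP h2)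
    | some a =>
      have h2 : ok θ l (P.length + 1) w := hok
      rw [bs_some_cons] at hP ⊢
      have e1 : ins l (some a :: w) = a :: ins l w := rfl
      have h3 := ih (P ++ [a]) (by rw [hP]; simp) (by simpa using h2)
      rw [zp_append, zp_cons] at h3
      rw [e1, zp_cons, zp_cons]
      have e4 : zp z ([] : List Z) = 1 := by simp [zp]
      rw [e4] at h3
      have e3 : (h * zp z P) * (z a * zp z (ins l w) * (z a * zp z (bs w))⁻¹) *
          (h * zp z P)⁻¹ = (h * (zp z P * (z a * 1))) * (zp z (ins l w) * (zp z (bs w))⁻¹) *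
          (h * (zp z P * (z a * 1)))⁻¹ := by group
      rw [e3]
      exact h3

end

section main

variable {G : Type} [Group G] {A : Subgroup G} {c : G}

theorem ins_val (hF : Facts G A c) {Γ Z : Type} [Group Γ] (z : Z → Γ) (π : Γ →* G)
    (hz : ∀ l, π (z l) ∈ A) (l : Z) (w : List (Option Z)) :
    (∀ Q : List Z, π (zp z Q) ∈ A) ∧
    ∃ r : ℕ, (none ∈ w → 1 ≤ r) ∧ π (zp z (ins l w)) = π (z l) ^ r * π (zp z (bs w)) := by
  have hA : ∀ Q : List Z, π (zp z Q) ∈ A := by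
    intro Q
    induction Q with
    | nil => simp [zp]
    | cons a Q ih => rw [zp_cons, map_mul]; exact mul_mem (hz a) ih
  refine ⟨hA, ?_⟩
  induction w with
  | nil => exact ⟨0, by simp, by simp [ins, bs, zp]⟩
  | cons o w ih =>
    obtain ⟨r, h1, h2⟩ := ih
    cases o with
    | none =>
      refine ⟨r + 1, fun _ => by omega, ?_⟩
      have e1 : ins l (none :: w) = l :: ins l w := rfl
      rw [e1, zp_cons, map_mul, h2, bs_none_cons, pow_succ', mul_assoc]
    | some a =>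
      refine ⟨r, fun h => h1 (by simpa using h), ?_⟩
      have e1 : ins l (some a :: w) = a :: ins l w := rfl
      rw [e1, zp_cons, map_mul, h2, bs_some_cons, zp_cons, map_mul, ← mul_assoc, ← mul_assoc,
        hF.comm _ (hz a) _ (pow_mem (hz l) r)]

theorem exists_shift (hF : Facts G A c) (Φ : Finset G) (hΦ : ∀ φ ∈ Φ, ∀ m : ℕ, 1 ≤ m → φ ^ m ≠ 1) :
    ∃ j : ℕ, ∀ φ ∈ Φ, ∀ N : ℕ, 1 ≤ N → c ^ j * φ ^ N * (c ^ j)⁻¹ ∉ A := by
  classical
  let Bad : G → Set ℕ := fun φ => {j | ∃ N : ℕ, 1 ≤ N ∧ c ^ j * φ ^ N * (c ^ j)⁻¹ ∈ A}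
  have hsub : ∀ φ ∈ Φ, (Bad φ).Subsingleton := by
    rintro φ hφ j ⟨N, hN, h1⟩ j' ⟨N', hN', h2⟩
    by_contra hne
    have e1 : (c ^ j * φ ^ N * (c ^ j)⁻¹) ^ N' = c ^ j * φ ^ (N * N') * (c ^ j)⁻¹ := by
      rw [conj_pow, pow_mul]
    have e2 : (c ^ j' * φ ^ N' * (c ^ j')⁻¹) ^ N = c ^ j' * φ ^ (N * N') * (c ^ j')⁻¹ := by
      rw [conj_pow, mul_comm N N', pow_mul]
    have m1 : c ^ j * φ ^ (N * N') * (c ^ j)⁻¹ ∈ A := by rw [← e1]; exact pow_mem h1 N'
    have m2 : c ^ j' * φ ^ (N * N') * (c ^ j')⁻¹ ∈ A := by rw [← e2]; exact pow_mem h2 N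
    have h3 : c ^ ((j' : ℤ) - j) * (c ^ j * φ ^ (N * N') * (c ^ j)⁻¹) * (c ^ ((j' : ℤ) - j))⁻¹ =
        c ^ j' * φ ^ (N * N') * (c ^ j')⁻¹ := by
      rw [zpow_sub, zpow_natCast, zpow_natCast]
      group
    have h4 := hF.conj ((j' : ℤ) - j) (by omega) _ m1 (by rw [h3]; exact m2)
    have h5 : φ ^ (N * N') = 1 := by
      rw [mul_inv_eq_one, mul_eq_left] at h4
      exact h4
    exact hΦ φ hφ (N * N') (Nat.mul_pos hN hN') h5
  have hfin : (⋃ φ ∈ Φ, Bad φ).Finite := by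
    refine Set.Finite.biUnion (Finset.finite_toSet Φ) fun φ hφ => ?_
    exact (hsub φ hφ).finite
  obtain ⟨j, hj⟩ := hfin.exists_notMem
  refine ⟨j, fun φ hφ N hN hmem => hj ?_⟩
  simp only [Set.mem_iUnion]
  exact ⟨φ, hφ, N, hN, hmem⟩

theorem group_lemma (hF : Facts G A c) {Γ Z : Type} [Group Γ] [Finite Z] (l0 : Z) (z : Z → Γ)
    (π : Γ →* G) (cΓ : Γ) (hc : π cΓ = c) (hz : ∀ l, π (z l) ∈ A) (hz1 : ∀ l, π (z l) ≠ 1) :
    ∀ (k : ℕ) (F : Fin k → Γ → Z), ∃ Y : Γ, (∀ i, Y ∈ NF z (F i)) ∧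
      ∀ m : ℕ, 1 ≤ m → (π Y) ^ m ≠ 1 := by
  classical
  intro k
  induction k with
  | zero => exact fun F => ⟨z l0, fun i => i.elim0, hF.tf _ (hz l0) (hz1 l0)⟩
  | succ k ih =>
    intro F
    obtain ⟨Φ, hΦ⟩ := exists_finset z k (fun Y => ∀ m : ℕ, 1 ≤ m → (π Y) ^ m ≠ 1) ih
    -- choice of `φ` for every `g`
    have hC : ∀ g : Γ, ∃ φ : {φ // φ ∈ Φ}, (∀ i : Fin k, g * φ.1 * g⁻¹ ∈ NF z (F i.succ)) ∧
        ∀ m : ℕ, 1 ≤ m → (π φ.1) ^ m ≠ 1 := by
      intro g
      obtain ⟨φ, h1, h2, h3⟩ := hΦ (fun i A => F i.succ (g * A))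
      exact ⟨⟨φ, h1⟩, fun i => NF_conj z _ g φ (h2 i), h3⟩
    choose C0 hC1 hC2 using hC
    obtain ⟨j, hj⟩ := exists_shift hF ((Φ.image π).filter (fun φ => ∀ m : ℕ, 1 ≤ m → φ ^ m ≠ 1))
      (fun φ hφ => (Finset.mem_filter.mp hφ).2)
    set R : Γ := cΓ ^ j with hR
    obtain ⟨Q, hQ⟩ := rw_lemma (fun Q : List Z => C0 (zp z Q * R))
    set q : Γ := zp z Q with hq
    set φ : Γ := (C0 (q * R)).1 with hφ
    have hφE : ∀ m : ℕ, 1 ≤ m → (π φ) ^ m ≠ 1 := hC2 (q * R)
    have hφj : ∀ N : ℕ, 1 ≤ N → c ^ j * (π φ) ^ N * (c ^ j)⁻¹ ∉ A := by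
      apply hj
      rw [Finset.mem_filter]
      exact ⟨Finset.mem_image_of_mem _ (C0 (q * R)).2, hφE⟩
    let h : ℕ → Γ := fun n => (q * R) * φ ^ n * (q * R)⁻¹
    let θ : ℕ → ℕ → Z := fun n j => F 0 (h n * zp z (Q.take j))
    obtain ⟨n, n', hne, hnn⟩ := Finite.exists_ne_map_eq_of_infinite
      (fun n : ℕ => (fun j : Fin (Q.length + 1) => θ n j))
    have key : ∀ n n' : ℕ, n < n' → (fun j : Fin (Q.length + 1) => θ n j) =
        (fun j : Fin (Q.length + 1) => θ n' j) → ∃ Y : Γ, (∀ i, Y ∈ NF z (F i)) ∧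
        ∀ m : ℕ, 1 ≤ m → (π Y) ^ m ≠ 1 := by
      clear hne hnn n n'
      intro n n' hlt hnn
      have hθ : θ n = θ n' := by
        funext j
        by_cases hj : j < Q.length + 1
        · exact congrFun hnn ⟨j, hj⟩
        · have e1 : ∀ n, θ n j = θ n Q.length := by
            intro n
            simp only [θ]
            rw [List.take_of_length_le (by omega), List.take_length]
          rw [e1, e1]
          exact congrFun hnn ⟨Q.length, by omega⟩
      obtain ⟨l, w, hw1, hw2, hw3, hw4⟩ := hQ (θ n)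
      set q' : Γ := zp z (ins l w) with hq'
      set x : Γ := q' * q⁻¹ with hx
      have hx1 : ∀ m, θ m = θ n → h m * x * (h m)⁻¹ ∈ NF z (F 0) := by
        intro m hm
        have := ins_mem z (F 0) (h m) l Q (θ n) (fun j => by rw [← hm]) w []
          (by rw [hw2]; rfl) (by simpa using hw3)
        have e4 : zp z ([] : List Z) = 1 := by simp [zp]
        rw [e4, mul_one, hw2] at this
        exact this
      have hxn := hx1 n rfl
      have hxn' := hx1 n' hθ.symm
      have hxA := ins_val hF z π hz l w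
      obtain ⟨hA, r, hr1, hr2⟩ := hxA
      have hπx : π x = π (z l) ^ r := by
        rw [hx, map_mul, map_inv, hq', hr2, hw2, hq, mul_inv_cancel_right]
      have hxmem : π x ∈ A := by rw [hπx]; exact pow_mem (hz l) r
      have hxne : π x ≠ 1 := by rw [hπx]; exact hF.tf _ (hz l) (hz1 l) r (hr1 hw1)
      have hφ' : (C0 (q' * R)).1 = φ := by
        have := hw4
        rw [hφ, hq', this]
      have hn1 : ∀ i : Fin k, ∀ m : ℕ, h m ∈ NF z (F i.succ) := by
        intro i m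
        have := hC1 (q * R) i
        have e : h m = ((q * R) * φ * (q * R)⁻¹) ^ m := by
          simp only [h]; rw [conj_pow]
        rw [e]
        exact pow_mem this m
      obtain ⟨d, rfl⟩ : ∃ d, n' = n + 1 + d := ⟨n' - (n + 1), by omega⟩
      have hdiff : (h n)⁻¹ * h (n + 1 + d) = (q * R) * φ ^ (1 + d) * (q * R)⁻¹ := by
        simp only [h]
        rw [show n + 1 + d = n + (1 + d) by ring, pow_add]
        group
      have hconj : x * ((h n)⁻¹ * h (n + 1 + d)) * x⁻¹ = ((q' * R) * φ * (q' * R)⁻¹) ^ (1 + d) := by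
        rw [hdiff, conj_pow, hx]
        group
      refine ⟨h n * x * (h n)⁻¹ * (h (n + 1 + d) * x * (h (n + 1 + d))⁻¹)⁻¹, ?_, ?_⟩
      · intro i
        refine Fin.cases ?_ (fun i => ?_) i
        · exact mul_mem hxn (inv_mem hxn')
        · have e : h n * x * (h n)⁻¹ * (h (n + 1 + d) * x * (h (n + 1 + d))⁻¹)⁻¹ =
              h n * (x * ((h n)⁻¹ * h (n + 1 + d)) * x⁻¹) * (h (n + 1 + d))⁻¹ := by group
          rw [e, hconj]
          refine mul_mem (mul_mem (hn1 i n) (pow_mem ?_ _)) (inv_mem (hn1 i _))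
          have := hC1 (q' * R) i
          rw [hφ'] at this
          exact this
      · intro m hm
        have e : h n * x * (h n)⁻¹ * (h (n + 1 + d) * x * (h (n + 1 + d))⁻¹)⁻¹ =
            h n * (x * ((h n)⁻¹ * h (n + 1 + d)) * x⁻¹ * ((h n)⁻¹ * h (n + 1 + d))⁻¹) *
              (h n)⁻¹ := by group
        rw [e, map_mul, map_mul, map_inv, conj_pow]
        intro hcon
        rw [mul_inv_eq_one, mul_eq_left] at hcon
        rw [map_mul, map_mul, map_mul, map_inv, map_inv π ((h n)⁻¹ * h (n + 1 + d))] at hcon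
        refine hF.cpow (π x) hxmem hxne (π ((h n)⁻¹ * h (n + 1 + d))) ?_ m hm hcon
        rw [hdiff]
        intro hmem
        apply hφj (1 + d) (by omega)
        have e2 : π ((q * R) * φ ^ (1 + d) * (q * R)⁻¹) =
            π q * (c ^ j * (π φ) ^ (1 + d) * (c ^ j)⁻¹) * (π q)⁻¹ := by
          simp only [map_mul, map_inv, map_pow, hR, hc]
          group
        rw [e2] at hmem
        have hqA : π q ∈ A := hA Q
        have := mul_mem (mul_mem (inv_mem hqA) hmem) hqA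
        have e3 : (π q)⁻¹ * (π q * (c ^ j * (π φ) ^ (1 + d) * (c ^ j)⁻¹) * (π q)⁻¹) * π q =
            c ^ j * (π φ) ^ (1 + d) * (c ^ j)⁻¹ := by group
        rwa [e3] at this
    rcases lt_or_gt_of_ne hne with hlt | hlt
    · exact key n n' hlt hnn
    · exact key n' n hlt hnn.symm

end main

end Pool.Agent.Helper59.PCF
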