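import Mathlib
import Pool.Agent.Helper59.PCF.Lam
import Pool.Agent.Helper59.PCF.Free

set_option autoImplicit false

namespace Pool.Agent.Helper59.PCF

open Filter

theorem star_property (n : ℕ) (L : Fin n → Language (Fin 6)) (hL : ∀ i, (L i).IsContextFree)
    (hWP : ∀ w : List (Fin 6), (w.map gens).prod = 1 ↔ ∀ i, w ∈ L i) :
    ∃ (Θ : Finset (ℤ × ℤ)) (lam : Fin n → List Om → ℕ → ℤ × ℤ), (0, 0) ∉ Θ ∧
      (∀ i y q, lam i y q ∈ Θ) ∧ ∀ y' : List Om,
        (∀ i, ∃ y : List Om, (y.map pv).prod = 1 ∧ Disp (lam i y) y y') →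
          (y'.map pv).prod = 1 := by
  classical
  set ω : Ultrafilter ℕ := Filter.hyperfilter ℕ with hωdef
  have hω : (ω : Filter ℕ) ≤ atTop := by
    rw [← Nat.cofinite_eq_atTop]
    exact Filter.hyperfilter_le_cofinite
  choose Θ lam h1 h2 h3 using fun i => lang_limit (L i) (hL i) ω hω
  refine ⟨Finset.univ.biUnion Θ, lam, ?_, ?_, ?_⟩
  · simp only [Finset.mem_biUnion, not_exists, not_and]
    intro i _
    exact h1 i
  · intro i y q
    exact Finset.mem_biUnion.mpr ⟨i, Finset.mem_univ _, h2 i y q⟩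
  · intro y' hy'
    have h4 : ∀ᶠ t in (ω : Filter ℕ), ∀ i, wd y' t ∈ L i := by
      rw [eventually_all]
      intro i
      obtain ⟨y, hy, hD⟩ := hy' i
      apply h3 i y y' hD
      filter_upwards [hω (nZ_nonneg (y.length + 5) (by omega) y)] with t ht
      apply (hWP _).mp
      unfold wd
      rw [word_val _ (by omega) y t ht, hy, map_one]
    obtain ⟨t, ht1, ht2⟩ := (h4.and (hω (nZ_nonneg (y'.length + 5) (by omega) y'))).exists
    have h5 := (hWP _).mpr ht1
    unfold wd at h5
    rw [word_val _ (by omega) y' t ht2] at h5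
    apply phiN_injective t.factorial t.factorial_pos
    rw [h5, map_one]

end Pool.Agent.Helper59.PCF
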