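import Mathlib
import Pool.Agent.Helper59.PCF.StarP
import Pool.Agent.Helper59.PCF.GammaT
import Pool.Agent.Helper59.PCF.GroupL

set_option autoImplicit false

namespace Pool.Agent.Helper59.PCF

/-- monochromatic pairs in the direction of their colour, finitely many pairs suffice -/
theorem exists_pairs (Θ : Finset (ℤ × ℤ)) :
    ∃ t : Finset ((ℤ × ℤ) × (ℤ × ℤ)), ∀ C : ℤ × ℤ → {θ // θ ∈ Θ}, ∃ p ∈ t,
      C p.1 = C p.2 ∧ ∃ a : ℤ, a ≠ 0 ∧ p.2 = p.1 + a • (C p.1).1 := by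
  classical
  let _ : TopologicalSpace {θ // θ ∈ Θ} := ⊥
  have : DiscreteTopology {θ // θ ∈ Θ} := ⟨rfl⟩
  let U : (ℤ × ℤ) × (ℤ × ℤ) → Set (ℤ × ℤ → {θ // θ ∈ Θ}) := fun p =>
    {C | C p.1 = C p.2 ∧ ∃ a : ℤ, a ≠ 0 ∧ p.2 = p.1 + a • (C p.1).1}
  have hU : ∀ p, IsOpen (U p) := by
    intro p
    rw [isOpen_iff_mem_nhds]
    rintro C ⟨h1, h2⟩
    have e : ∀ v : ℤ × ℤ, ∀ᶠ C' in nhds C, C' v = C v := by
      intro v
      have h2 : ContinuousAt (fun f' : ℤ × ℤ → {θ // θ ∈ Θ} => f' v) C :=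
        (continuous_apply v).continuousAt
      have h3 : ({C v} : Set {θ // θ ∈ Θ}) ∈ nhds (C v) := (isOpen_discrete _).mem_nhds rfl
      exact h2 h3
    filter_upwards [e p.1, e p.2] with C' e1 e2
    refine ⟨by rw [e1, e2, h1], ?_⟩
    rw [e1]; exact h2
  obtain ⟨t, ht⟩ := isCompact_univ.elim_finite_subcover U hU (by
    intro C _
    obtain ⟨a, ha, b, c, hc⟩ := Combinatorics.exists_mono_homothetic_copy (insert 0 Θ) C
    have h0 := hc 0 (Finset.mem_insert_self _ _)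
    have h1 := hc c.1 (Finset.mem_insert_of_mem c.2)
    rw [smul_zero, zero_add] at h0
    refine Set.mem_iUnion.mpr ⟨(b, a • c.1 + b), ?_, (a : ℤ), by omega, ?_⟩
    · simp only; rw [h0, h1]
    · simp only
      rw [h0, add_comm, natCast_zsmul])
  refine ⟨t, fun C => ?_⟩
  have := ht (Set.mem_univ C)
  simp only [Set.mem_iUnion] at this
  obtain ⟨p, hp, hC⟩ := this
  exact ⟨p, hp, hC⟩

def flipO : Om → Om
  | Sum.inl s => Sum.inl (!s)
  | Sum.inr v => Sum.inr (-v)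

theorem pv_flip (o : Om) : pv (flipO o) = (pv o)⁻¹ := by
  rcases o with s | v
  · rcases s with _ | _
    · simp [flipO, pv, ← map_inv]
    · simp [flipO, pv, ← map_inv]
  · simp only [flipO, pv, ← map_inv]
    rfl

theorem exists_inv (w : List Om) : ∃ w' : List Om, vl pv w' = (vl pv w)⁻¹ := by
  refine ⟨(w.map flipO).reverse, ?_⟩
  induction w with
  | nil => simp [vl]
  | cons o w ih =>
    rw [List.map_cons, List.reverse_cons, vl_append, ih]
    simp [vl, pv_flip]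

theorem main (n : ℕ) (L : Fin n → Language (Fin 6)) (hL : ∀ i, (L i).IsContextFree)
    (hWP : ∀ w : List (Fin 6), (w.map gens).prod = 1 ↔ ∀ i, w ∈ L i) : False := by
  classical
  obtain ⟨Θ, lam, h0, hlam, hstar⟩ := star_property n L hL hWP
  obtain ⟨Γ, _, π, ξ, f, hξ, hf, hY⟩ := gamma_theorem pv exists_inv n Θ lam hlam hstar
  obtain ⟨t, ht⟩ := exists_pairs Θ
  let Zs : Finset ((ℤ × ℤ) × (ℤ × ℤ)) := insert ((0, 0), (1, 0)) (t.filter (fun p => p.1 ≠ p.2))
  have hZs : ∀ p ∈ Zs, p.1 ≠ p.2 := by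
    intro p hp
    rcases Finset.mem_insert.mp hp with rfl | hp
    · simp
    · exact (Finset.mem_filter.mp hp).2
  let z : {p // p ∈ Zs} → Γ := fun p => ξ (Sum.inr p.1.2) * (ξ (Sum.inr p.1.1))⁻¹
  have hzv : ∀ p, π (z p) = Monoid.Coprod.inl (Multiplicative.ofAdd (p.1.2 - p.1.1)) := by
    intro p
    simp only [z, map_mul, map_inv, hξ, pv]
    rw [← map_inv, ← map_mul]
    rfl
  have hz : ∀ p, π (z p) ∈ AA := fun p => by rw [hzv]; exact ⟨_, rfl⟩
  have hz1 : ∀ p, π (z p) ≠ 1 := by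
    intro p hp
    rw [hzv, ← map_one (Monoid.Coprod.inl : Multiplicative (ℤ × ℤ) →* GG)] at hp
    have h1 : Multiplicative.ofAdd (p.1.2 - p.1.1) = (1 : Multiplicative (ℤ × ℤ)) := by
      have h2 := congrArg toH hp
      rw [toH_inl, toH_inl] at h2
      exact Monoid.CoprodI.of_injective (M := KK) true h2
    have h3 : p.1.2 - p.1.1 = (0 : ℤ × ℤ) := h1
    exact hZs p.1 p.2 (sub_eq_zero.mp h3).symm
  have hFex : ∀ (i : Fin n) (A : Γ), ∃ p : {p // p ∈ Zs}, f i A p.1.1 = f i A p.1.2 ∧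
      ∃ a : ℤ, p.1.2 = p.1.1 + a • f i A p.1.1 := by
    intro i A
    obtain ⟨p, hp, h1, a, ha, h2⟩ := ht (fun v => ⟨f i A v, hf i A v⟩)
    have hne : p.1 ≠ p.2 := by
      intro heq
      rw [← heq] at h2
      have h3 : a • f i A p.1 = 0 := by
        simpa using h2
      have h4 : f i A p.1 = 0 := (smul_eq_zero.mp h3).resolve_left ha
      exact h0 (by
        have := hf i A p.1
        rw [h4] at this
        exact this)
    refine ⟨⟨p, Finset.mem_insert_of_mem (Finset.mem_filter.mpr ⟨hp, hne⟩)⟩, ?_, a, h2⟩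
    exact congrArg Subtype.val h1
  choose F hF1 hF2 using hFex
  obtain ⟨Y, hY1, hY2⟩ := group_lemma facts ⟨((0, 0), (1, 0)), Finset.mem_insert_self _ _⟩ z π
    (ξ (Sum.inl true)) (by rw [hξ]; rfl) hz hz1 n F
  apply hY2 1 le_rfl
  rw [pow_one]
  apply hY
  intro i
  have hle : (NF z (F i)).toSubmonoid ≤ Submonoid.closure {g | ∃ (A : Γ) (v : ℤ × ℤ) (m : ℤ),
        g = A * ξ (Sum.inr (v + m • f i A v)) * (ξ (Sum.inr v))⁻¹ * A⁻¹} := by
    unfold NF
    rw [Subgroup.closure_toSubmonoid, Submonoid.closure_le]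
    rintro x (⟨A, hx⟩ | ⟨A, hx⟩)
    · obtain ⟨a, ha⟩ := hF2 i A
      refine Submonoid.subset_closure ⟨A, (F i A).1.1, a, ?_⟩
      rw [← ha, hx]
      simp only [z]
      group
    · obtain ⟨a, ha⟩ := hF2 i A
      refine Submonoid.subset_closure ⟨A, (F i A).1.2, -a, ?_⟩
      have e1 : (F i A).1.2 + -a • f i A (F i A).1.2 = (F i A).1.1 := by
        rw [← hF1, neg_smul]
        conv_lhs => rw [ha]
        abel
      rw [e1]
      have hx' : x = (A * z (F i A) * A⁻¹)⁻¹ := by rw [← hx, inv_inv]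
      rw [hx']
      simp only [z]
      group
  exact hle (hY1 i)

end Pool.Agent.Helper59.PCF
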